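import Mathlib

set_option autoImplicit false

/-! Tree decompositions of graphs: basic definitions and a separation lemma. -/

namespace Pool.Agent.V11122

open SimpleGraph

/-- `(T, bag)` is a tree decomposition of `G`: `T` is a tree, every vertex and every edge of `G`
lies in some bag, and for each vertex `v` the nodes whose bags contain `v` induce a connected
subgraph of `T`. -/
structure IsTreeDecomp {V : Type*} {ι : Type*} (G : SimpleGraph V) (T : SimpleGraph ι)
    (bag : ι → Set V) : Prop where
  isTree : T.IsTree
  vertex : ∀ v, ∃ t, v ∈ bag t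
  edge : ∀ u v, G.Adj u v → ∃ t, u ∈ bag t ∧ v ∈ bag t
  conn : ∀ v, (T.induce {t | v ∈ bag t}).Preconnected

variable {V : Type*} {ι : Type*} {G : SimpleGraph V} {T : SimpleGraph ι} {bag : ι → Set V}

/-- If the nodes of `v` do not contain both ends of the edge `ab`, any two of them are joined in
`T - ab`. -/
theorem reach_of_not_both (h : IsTreeDecomp G T bag) {a b : ι} {v : V}
    (hab : ¬ (v ∈ bag a ∧ v ∈ bag b)) {p q : ι} (hp : v ∈ bag p) (hq : v ∈ bag q) :
    (T.deleteEdges {s(a, b)}).Reachable p q := by
  obtain ⟨w⟩ := h.conn v ⟨p, hp⟩ ⟨q, hq⟩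
  have key : ∀ (x y : {t | v ∈ bag t}) (w : (T.induce {t | v ∈ bag t}).Walk x y),
      (T.deleteEdges {s(a, b)}).Reachable x.1 y.1 := by
    intro x y w
    induction w with
    | nil => exact Reachable.refl _
    | @cons x z y hxz w ih =>
      refine Reachable.trans ?_ ih
      apply SimpleGraph.Adj.reachable
      rw [SimpleGraph.deleteEdges_adj]
      refine ⟨hxz, ?_⟩
      intro hmem
      simp only [Set.mem_singleton_iff, Sym2.eq_iff] at hmem
      rcases hmem with ⟨h1, h2⟩ | ⟨h1, h2⟩
      · exact hab ⟨h1 ▸ x.2, h2 ▸ z.2⟩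
      · exact hab ⟨h2 ▸ z.2, h1 ▸ x.2⟩
  exact key _ _ w

theorem not_reach (h : IsTreeDecomp G T bag) {a b : ι} (hab : T.Adj a b) :
    ¬ (T.deleteEdges {s(a, b)}).Reachable a b := by
  have h1 := (SimpleGraph.isAcyclic_iff_forall_isBridge.mp h.isTree.isAcyclic) (e := s(a, b))
    (by simpa using hab)
  rw [SimpleGraph.isBridge_iff] at h1
  exact h1

/-- An edge `ab` of the tree together with two vertices `x`, `z` lying on different sides of it. -/
structure SepEdge (T : SimpleGraph ι) (bag : ι → Set V) (a b : ι) (x z : V) : Prop where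
  adj : T.Adj a b
  hx : ∀ s, x ∈ bag s → (T.deleteEdges {s(a, b)}).Reachable b s
  hz : ∀ s, z ∈ bag s → (T.deleteEdges {s(a, b)}).Reachable a s

/-- A vertex whose nodes meet both sides of `ab` lies in both bags. -/
theorem mem_both (h : IsTreeDecomp G T bag) {a b : ι} (hab : T.Adj a b) {u : V} {p q : ι}
    (hp : u ∈ bag p) (hq : u ∈ bag q)
    (hpb : (T.deleteEdges {s(a, b)}).Reachable b p)
    (hqa : (T.deleteEdges {s(a, b)}).Reachable a q) : u ∈ bag a ∧ u ∈ bag b := by
  by_contra hcon
  have := reach_of_not_both h hcon hp hq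
  exact not_reach h hab ((hqa.trans this.symm).trans hpb.symm)

/-- Either some bag is everything, or there is an edge of the tree separating two vertices. -/
theorem exists_sepEdge [Fintype V] [Nonempty ι] [Finite ι] (h : IsTreeDecomp G T bag) :
    (∃ t, bag t = Set.univ) ∨ ∃ a b x z, SepEdge T bag a b x z := by
  classical
  by_contra hcon
  push Not at hcon
  obtain ⟨h1, h2⟩ := hcon
  obtain ⟨t0, ht0⟩ := Finite.exists_max (fun t => (bag t).ncard)
  have hx : ∃ x, x ∉ bag t0 := by
    by_contra hc
    push Not at hc
    exact h1 t0 (Set.eq_univ_of_forall hc)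
  obtain ⟨x, hx⟩ := hx
  obtain ⟨s, hs⟩ := h.vertex x
  obtain ⟨p, hp⟩ := (h.isTree.1.preconnected t0 s).exists_isPath
  have key : ∀ (t s : ι) (p : T.Walk t s), p.IsPath → (∀ t', (bag t').ncard ≤ (bag t).ncard) →
      x ∉ bag t → x ∈ bag s → False := by
    intro t s p
    induction p with
    | nil => intro _ _ h3 h4; exact h3 h4
    | @cons t t' s hadj p ih =>
      intro hp hmax hxt hxs
      rw [SimpleGraph.Walk.cons_isPath_iff] at hp
      by_cases hsub : bag t ⊆ bag t'
      · have heq : bag t = bag t' := by
          apply Set.eq_of_subset_of_ncard_le hsub (hmax t') (Set.toFinite _)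
        refine ih hp.1 ?_ ?_ hxs
        · rw [← heq]; exact hmax
        · rw [← heq]; exact hxt
      · rw [Set.not_subset] at hsub
        obtain ⟨z, hz1, hz2⟩ := hsub
        apply h2 t t' x z
        refine ⟨hadj, ?_, ?_⟩
        · intro r hr
          have e1 : (T.deleteEdges {s(t, t')}).Reachable s r :=
            reach_of_not_both h (fun hc => hxt hc.1) hxs hr
          have e2 : (T.deleteEdges {s(t, t')}).Reachable t' s := by
            refine ⟨p.toDeleteEdges _ ?_⟩
            intro e he hmem
            simp only [Set.mem_singleton_iff] at hmem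
            subst hmem
            exact hp.2 (SimpleGraph.Walk.fst_mem_support_of_mem_edges _ he)
          exact e2.trans e1
        · intro r hr
          exact reach_of_not_both h (fun hc => hz2 hc.2) hz1 hr
  exact key t0 s p hp ht0 hx hs

end Pool.Agent.V11122
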