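import Mathlib
import Pool.Agent.V11122.TreeDec

set_option autoImplicit false

/-! Rooting a tree decomposition. -/

namespace Pool.Agent.V11122

open SimpleGraph

variable {V : Type*} {ι : Type*} {G : SimpleGraph V} {T : SimpleGraph ι} {bag : ι → Set V}

/-- Every tree decomposition can be rooted: there is a parent function such that the nodes of every
vertex are closed under taking parents, except for a top node. -/
theorem exists_rooted (h : IsTreeDecomp G T bag) (r : ι) :
    ∃ (par : ι → ι) (depth : ι → ℕ),
      (∀ t, t ≠ r → depth (par t) < depth t ∧ T.Adj t (par t)) ∧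
      (∀ v, ∃ top, v ∈ bag top ∧ (∀ t, v ∈ bag t → depth top ≤ depth t) ∧
        ∀ t, v ∈ bag t → t ≠ top → t ≠ r ∧ v ∈ bag (par t)) := by
  classical
  have hpar : ∀ t, ∃ p, t ≠ r → T.dist p r < T.dist t r ∧ T.Adj t p := by
    intro t
    by_cases ht : t = r
    · exact ⟨t, fun h => absurd ht h⟩
    · obtain ⟨w, hw⟩ := (h.isTree.1.preconnected t r).exists_walk_length_eq_dist
      cases w with
      | nil => exact absurd rfl ht
      | @cons _ p _ hadj w =>
        refine ⟨p, fun _ => ⟨?_, hadj⟩⟩
        have h1 := SimpleGraph.dist_le w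
        rw [SimpleGraph.Walk.length_cons] at hw
        omega
  choose par hpar using hpar
  refine ⟨par, fun t => T.dist t r, hpar, ?_⟩
  intro v
  obtain ⟨t0, ht0⟩ := h.vertex v
  -- a node of minimal depth
  obtain ⟨top, htop, hmin⟩ : ∃ top, v ∈ bag top ∧ ∀ t, v ∈ bag t → T.dist top r ≤ T.dist t r := by
    have hne : {n | ∃ t, v ∈ bag t ∧ T.dist t r = n}.Nonempty := ⟨_, t0, ht0, rfl⟩
    obtain ⟨t, ht, htn⟩ := Nat.sInf_mem hne
    refine ⟨t, ht, fun t' ht' => ?_⟩
    rw [htn]
    exact Nat.sInf_le ⟨t', ht', rfl⟩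
  refine ⟨top, htop, hmin, ?_⟩
  intro t ht hne
  have htr : t ≠ r := by
    rintro rfl
    have h1 := hmin t ht
    rw [SimpleGraph.dist_self] at h1
    have h2 : T.dist top t = 0 := by omega
    have := (h.isTree.1.preconnected top t).dist_eq_zero_iff.1 h2
    exact hne this.symm
  refine ⟨htr, ?_⟩
  by_contra hcon
  obtain ⟨hp1, hp2⟩ := hpar t htr
  have hreach : ∀ (n : ℕ) (x : ι), T.dist x r = n → n ≤ T.dist t r → x ≠ t →
      (T.deleteEdges {s(t, par t)}).Reachable x r := by
    intro n
    induction n using Nat.strong_induction_on with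
    | _ n ih =>
      intro x hx hn hxt
      by_cases hxr : x = r
      · rw [hxr]
      · obtain ⟨h1, h2⟩ := hpar x hxr
        have h3 := ih (T.dist (par x) r) (by omega) (par x) rfl (by omega)
          (by intro h; rw [h] at h1; omega)
        refine Reachable.trans (Adj.reachable ?_) h3
        rw [SimpleGraph.deleteEdges_adj]
        refine ⟨h2, ?_⟩
        intro hmem
        simp only [Set.mem_singleton_iff, Sym2.eq_iff] at hmem
        rcases hmem with ⟨h4, h5⟩ | ⟨h4, h5⟩
        · exact hxt h4
        · rw [h5] at h1; omega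
  have e1 := reach_of_not_both h (a := t) (b := par t) (fun hh => hcon hh.2) ht htop
  have e2 := hreach _ top rfl (hmin t ht) (Ne.symm hne)
  have e3 := hreach _ (par t) rfl hp1.le (by intro h; rw [h] at hp1; omega)
  exact not_reach h hp2 ((e1.trans e2).trans e3.symm)

end Pool.Agent.V11122
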