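import Pool.Agent.H175R2.Cw
import Pool.Agent.H175R2.Cut

set_option autoImplicit false

/-! The minimum defining the clique-width is attained. -/

namespace Pool.Agent.V11122

open Pool.Agent.H175R2

theorem dt_all {V : Type} [Fintype V] (G : SimpleGraph V) (A : Finset V) (hA : A.Nonempty) :
    DT G (Fintype.card V) Finset.univ A := by
  classical
  induction hA using Finset.Nonempty.cons_induction with
  | singleton a => exact DT.leaf a
  | cons a s ha hs ih =>
    have h1 : Finset.cons a s ha = {a} ∪ s := by
      rw [Finset.cons_eq_insert]; rfl
    rw [h1]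
    refine DT.node (by simpa using ha) (DT.leaf a) ih ?_
    unfold nt
    refine (Finset.card_erase_le).trans (Finset.card_image_le.trans (Finset.card_le_univ _))

theorem cwLE_cliqueWidth {V : Type} [Finite V] [Nonempty V] (G : SimpleGraph V) :
    CwLE G (cliqueWidth G) := by
  haveI := Fintype.ofFinite V
  exact Nat.sInf_mem (s := {k | CwLE G k})
    ⟨_, cwLE_of_dt (dt_all G Finset.univ Finset.univ_nonempty)⟩

end Pool.Agent.V11122
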