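import Mathlib

set_option autoImplicit false

/-! The counting lemma on traces of the top-down token process for clique-width 3 expressions. -/

namespace Pool.Agent.V11122.Dom3

open Finset

variable {V : Type} [DecidableEq V]

/-- The class with label `q` in a set `X` with labelling `l`. -/
def cl (X : Finset V) (l : V → Fin 3) (q : Fin 3) : Finset V := X.filter (fun x => l x = q)

omit [DecidableEq V] in
theorem mem_cl {X : Finset V} {l : V → Fin 3} {q : Fin 3} {x : V} :
    x ∈ cl X l q ↔ x ∈ X ∧ l x = q := by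
  simp [cl]

theorem three_aux : ∀ q i A B : Fin 3, q ≠ A → q ≠ B → i ≠ A → i ≠ B → B ≠ A → q = i := by
  decide

/-- An abstract trace of the process along the path from the root to the leaf `v`. -/
structure Trace (V : Type) [DecidableEq V] (c : ℕ) where
  v : V
  N : ℕ
  X : ℕ → Finset V
  lab : ℕ → V → Fin 3
  P : ℕ → Fin 3 → Finset (Fin c)
  t : ℕ → V → Option (Fin c)
  seen : ℕ → V → Prop
  hX : ∀ n < N, X (n + 1) ⊆ X n
  hv : ∀ n ≤ N, v ∈ X n
  hlab : ∀ n < N, ∀ x ∈ X (n + 1), ∀ y ∈ X (n + 1), lab (n + 1) x = lab (n + 1) y →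
    lab n x = lab n y
  hP : ∀ n < N, ∀ x ∈ X (n + 1), P n (lab n x) ⊆ P (n + 1) (lab (n + 1) x)
  ht : ∀ n < N, ∀ x, t n x ≠ none → t (n + 1) x = t n x
  ht0 : ∀ x ∈ X 0, t 0 x = none
  hinj : ∀ n ≤ N, ∀ x ∈ X n, ∀ y ∈ X n, lab n x = lab n y → t n x = t n y → t n x ≠ none → x = y
  hseen : ∀ n < N, ∀ y, seen n y → y ∈ X n ∧ X (n + 1) = X n ∧ lab (n + 1) = lab n ∧
    (P (n + 1) (lab n v) = univ ∨ ∀ z ∈ X n, lab n z = lab n y → t (n + 1) z ≠ none) ∧
    ∀ a, t (n + 1) y = some a → a ∈ P (n + 1) (lab n v)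
  hseen' : ∀ n < N, ∀ y y', seen n y → seen n y' → lab n y = lab n y'
  hnew : ∀ n < N, ∀ x ∈ X (n + 1), ∀ a, t n x = none → t (n + 1) x = some a →
    X (n + 1) = X n ∧ lab (n + 1) = lab n ∧ ∃ i, i ≠ lab n x ∧ (∃ z ∈ X n, lab n z = i) ∧
      a ∉ P n i ∧ a ∈ P (n + 1) i ∧ (i = lab n v ↔ seen n x) ∧
      (P (n + 1) (lab n x) = univ ∨ ∀ z ∈ X n, lab n z = i → t (n + 1) z ≠ none) ∧
      ∀ m, n ≤ m → m ≤ N → x ∈ X m → (cl (X m) (lab m) (lab m x)).card ≤ c →
        ∀ q, cl (X m) (lab m) q ⊆ cl (X n) (lab n) (lab n x) → (cl (X m) (lab m) q).card ≤ c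

namespace Trace

variable {c : ℕ} (T : Trace V c)

theorem X_mono {n m : ℕ} (h : n ≤ m) (hm : m ≤ T.N) : T.X m ⊆ T.X n := by
  induction m, h using Nat.le_induction with
  | base => exact Subset.refl _
  | succ k hk ih => exact (T.hX k (by omega)).trans (ih (by omega))

theorem lab_mono {n m : ℕ} (h : n ≤ m) (hm : m ≤ T.N) : ∀ x ∈ T.X m, ∀ y ∈ T.X m,
    T.lab m x = T.lab m y → T.lab n x = T.lab n y := by
  induction m, h using Nat.le_induction with
  | base => intro x _ y _ h; exact h
  | succ k hk ih =>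
    intro x hx y hy hxy
    exact ih (by omega) x (T.hX k (by omega) hx) y (T.hX k (by omega) hy)
      (T.hlab k (by omega) x hx y hy hxy)

theorem P_mono {n m : ℕ} (h : n ≤ m) (hm : m ≤ T.N) : ∀ x ∈ T.X m,
    T.P n (T.lab n x) ⊆ T.P m (T.lab m x) := by
  induction m, h using Nat.le_induction with
  | base => intro x _; exact Subset.refl _
  | succ k hk ih =>
    intro x hx
    exact (ih (by omega) x (T.hX k (by omega) hx)).trans (T.hP k (by omega) x hx)

theorem t_mono {n m : ℕ} (h : n ≤ m) (hm : m ≤ T.N) : ∀ x, T.t n x ≠ none →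
    T.t m x = T.t n x := by
  induction m, h using Nat.le_induction with
  | base => intro x _; rfl
  | succ k hk ih =>
    intro x hx
    have := ih (by omega) x hx
    rw [T.ht k (by omega) x (by rw [this]; exact hx), this]

theorem t_none {n m : ℕ} (h : n ≤ m) (hm : m ≤ T.N) {x : V} (hx : T.t m x = none) :
    T.t n x = none := by
  by_contra hn
  rw [T.t_mono h hm x hn] at hx
  exact hn hx

/-- Few tokens at any time. -/
theorem card_tokens {n : ℕ} (hn : n ≤ T.N) :
    ((T.X n).filter (fun x => T.t n x ≠ none)).card ≤ 3 * c := by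
  classical
  rcases Nat.eq_zero_or_pos c with hc | hc
  · subst hc
    rw [Nat.mul_zero, Nat.le_zero, card_eq_zero, filter_eq_empty_iff]
    intro x _ hx
    obtain ⟨a, ha⟩ := Option.ne_none_iff_exists'.1 hx
    exact a.elim0
  · have h1 : ((T.X n).filter (fun x => T.t n x ≠ none)).card ≤
        (univ : Finset (Fin 3 × Fin c)).card := by
      refine card_le_card_of_injOn (fun x => (T.lab n x, (T.t n x).getD ⟨0, hc⟩))
        (fun _ _ => mem_coe.2 (mem_univ _)) ?_
      intro x hx y hy hxy
      rw [mem_coe, mem_filter] at hx hy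
      obtain ⟨a, ha⟩ := Option.ne_none_iff_exists'.1 hx.2
      obtain ⟨b, hb⟩ := Option.ne_none_iff_exists'.1 hy.2
      simp only [ha, hb, Option.getD_some, Prod.mk.injEq] at hxy
      exact T.hinj n hn x hx.1 y hy.1 hxy.1 (by rw [ha, hb, hxy.2]) hx.2
    simpa using h1

/-- A full class is small. -/
theorem card_full {n : ℕ} (hn : n ≤ T.N) (q : Fin 3)
    (hf : ∀ z ∈ T.X n, T.lab n z = q → T.t n z ≠ none) :
    (cl (T.X n) (T.lab n) q).card ≤ c := by
  classical
  rcases Nat.eq_zero_or_pos c with hc | hc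
  · subst hc
    rw [Nat.le_zero, card_eq_zero]
    ext x
    constructor
    · intro hx
      rw [mem_cl] at hx
      obtain ⟨a, ha⟩ := Option.ne_none_iff_exists'.1 (hf x hx.1 hx.2)
      exact a.elim0
    · intro h; exact absurd h (notMem_empty x)
  · have h1 : (cl (T.X n) (T.lab n) q).card ≤ (univ : Finset (Fin c)).card := by
      refine card_le_card_of_injOn (fun x => (T.t n x).getD ⟨0, hc⟩)
        (fun _ _ => mem_coe.2 (mem_univ _)) ?_
      intro x hx y hy hxy
      rw [mem_coe, mem_cl] at hx hy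
      obtain ⟨a, ha⟩ := Option.ne_none_iff_exists'.1 (hf x hx.1 hx.2)
      obtain ⟨b, hb⟩ := Option.ne_none_iff_exists'.1 (hf y hy.1 hy.2)
      simp only [ha, hb, Option.getD_some] at hxy
      exact T.hinj n hn x hx.1 y hy.1 (hx.2.trans hy.2.symm) (by rw [ha, hb, hxy])
        (hf x hx.1 hx.2)
    simpa using h1

/-- The set of colours that are promised to all classes. -/
def R (n : ℕ) : Finset (Fin c) := univ.filter (fun a => ∀ x ∈ T.X n, a ∈ T.P n (T.lab n x))

theorem R_mono {n m : ℕ} (h : n ≤ m) (hm : m ≤ T.N) : T.R n ⊆ T.R m := by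
  intro a ha
  rw [R, mem_filter] at ha ⊢
  exact ⟨mem_univ _, fun x hx => T.P_mono h hm x hx (ha.2 x (T.X_mono h hm hx))⟩

def w (n : ℕ) : ℕ := (T.P n (T.lab n T.v)).card + (T.R n).card

theorem w_mono {n m : ℕ} (h : n ≤ m) (hm : m ≤ T.N) : T.w n ≤ T.w m :=
  Nat.add_le_add (card_le_card (T.P_mono h hm _ (T.hv m hm))) (card_le_card (T.R_mono h hm))

theorem w_le (n : ℕ) : T.w n ≤ 2 * c := by
  have h1 := card_le_univ (T.P n (T.lab n T.v))
  have h2 := card_le_univ (T.R n)
  rw [Fintype.card_fin] at h1 h2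
  unfold w
  omega

theorem w_const {n m : ℕ} (h : n ≤ m) (hm : m ≤ T.N) (he : T.w n = T.w m) :
    T.P n (T.lab n T.v) = T.P m (T.lab m T.v) ∧ T.R n = T.R m := by
  have h1 := T.P_mono h hm _ (T.hv m hm)
  have h2 := T.R_mono h hm
  have h3 := card_le_card h1
  have h4 := card_le_card h2
  unfold w at he
  exact ⟨eq_of_subset_of_card_le h1 (by omega), eq_of_subset_of_card_le h2 (by omega)⟩

/-- The vertices seen while unsaturated. -/
def NS (y : V) : Prop := ∃ n < T.N, T.seen n y ∧ T.P (n + 1) (T.lab n T.v) ≠ univ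

theorem exists_nu {y : V} (hy : T.NS y) : ∃ n < T.N, T.seen n y ∧ (∀ m < n, ¬ T.seen m y) ∧
    T.P (n + 1) (T.lab n T.v) ≠ univ := by
  classical
  obtain ⟨n, hn, hs, hP⟩ := hy
  have hex : ∃ m, T.seen m y := ⟨n, hs⟩
  have hle : Nat.find hex ≤ n := Nat.find_min' hex hs
  refine ⟨Nat.find hex, by omega, Nat.find_spec hex, fun m hm => Nat.find_min hex hm, ?_⟩
  intro hu
  apply hP
  have h1 := T.P_mono (n := Nat.find hex + 1) (m := n + 1) (by omega) (by omega) T.v
    (T.hv _ (by omega))
  have e1 : T.lab (Nat.find hex + 1) = T.lab (Nat.find hex) :=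
    (T.hseen _ (by omega) y (Nat.find_spec hex)).2.2.1
  have e2 : T.lab (n + 1) = T.lab n := (T.hseen n hn y hs).2.2.1
  rw [e1, e2, hu] at h1
  exact univ_subset_iff.1 h1

/-- `Key y n m`: `y` is first seen at `n`, unsaturated after that, and its token was created at the
step `m`. -/
structure Key (y : V) (n m : ℕ) : Prop where
  hn : n < T.N
  hs : T.seen n y
  hfirst : ∀ k < n, ¬ T.seen k y
  hP : T.P (n + 1) (T.lab n T.v) ≠ univ
  hm : m ≤ n
  hm0 : T.t m y = none
  hm1 : T.t (m + 1) y ≠ none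

theorem exists_key {y : V} (hy : T.NS y) : ∃ n m, T.Key y n m := by
  classical
  obtain ⟨n, hn, hs, hf, hP⟩ := T.exists_nu hy
  obtain ⟨hyX, hX, hl, hfull, -⟩ := T.hseen n hn y hs
  have h1 : T.t (n + 1) y ≠ none := by
    rcases hfull with h | h
    · exact absurd h hP
    · exact h y hyX rfl
  have hex : ∃ m, T.t (m + 1) y ≠ none := ⟨n, h1⟩
  have hle : Nat.find hex ≤ n := Nat.find_min' hex h1
  refine ⟨n, Nat.find hex, hn, hs, hf, hP, hle, ?_, Nat.find_spec hex⟩
  rcases Nat.eq_zero_or_pos (Nat.find hex) with h0 | h0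
  · rw [h0]
    exact T.ht0 y (T.X_mono (Nat.zero_le n) hn.le hyX)
  · have := Nat.find_min hex (m := Nat.find hex - 1) (by omega)
    rw [not_not, Nat.sub_add_cancel h0] at this
    exact this

theorem Key.col_mem {y : V} {n m : ℕ} (h : T.Key y n m) {a : Fin c}
    (ha : T.t (m + 1) y = some a) : a ∈ T.P (n + 1) (T.lab n T.v) := by
  obtain ⟨hyX, hX, hl, hfull, hc⟩ := T.hseen n h.hn y h.hs
  apply hc
  have := h.hm
  have := h.hn
  rw [T.t_mono (n := m + 1) (m := n + 1) (by omega) (by omega) y h.hm1]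
  exact ha

/-- If the weight is not increased when `y` is seen, the token of `y` was created before. -/
theorem Key.lt {y : V} {n m : ℕ} (h : T.Key y n m) (hw : T.w n = T.w (n + 1)) : m < n := by
  by_contra hcon
  have hmn : m = n := le_antisymm h.hm (by omega)
  obtain ⟨a, ha⟩ := Option.ne_none_iff_exists'.1 h.hm1
  obtain ⟨hyX, hX, hl, hfull, hc⟩ := T.hseen n h.hn y h.hs
  have hm0 := h.hm0
  subst hmn
  obtain ⟨-, -, i, hi, -, hai, -, his, -⟩ := T.hnew m h.hn y (by rw [hX]; exact hyX) a hm0 ha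
  have : i = T.lab m T.v := his.2 h.hs
  rw [this] at hai
  have h1 := (T.w_const (n := m) (m := m + 1) (by omega) h.hn hw).1
  rw [hl] at h1
  rw [h1] at hai
  exact hai (hc a ha)

/-- The class of a vertex seen while unsaturated is small. -/
theorem Key.card_class {y : V} {n m : ℕ} (h : T.Key y n m) :
    (cl (T.X n) (T.lab n) (T.lab n y)).card ≤ c := by
  obtain ⟨hyX, hX, hl, hfull, hc⟩ := T.hseen n h.hn y h.hs
  have hf := hfull.resolve_left h.hP
  have := T.card_full (n := n + 1) h.hn (T.lab n y) (by rw [hX, hl]; exact hf)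
  rw [hX, hl] at this
  exact this

theorem Key.deep {y : V} {n m : ℕ} (h : T.Key y n m) (hmn : m < n) : ∀ q,
    cl (T.X n) (T.lab n) q ⊆ cl (T.X m) (T.lab m) (T.lab m y) →
      (cl (T.X n) (T.lab n) q).card ≤ c := by
  obtain ⟨a, ha⟩ := Option.ne_none_iff_exists'.1 h.hm1
  have hn := h.hn
  have hyX := (T.hseen n h.hn y h.hs).1
  obtain ⟨-, -, i, -, -, -, -, -, -, hd⟩ := T.hnew m (by omega) y
    (T.X_mono (n := m + 1) (m := n) (by omega) (by omega) hyX) a h.hm0 ha
  exact hd n hmn.le hn.le hyX h.card_class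

/-- Main structural fact about tokens that are created in a window and not in the class of `v`. -/
theorem Key.other {y : V} {n m : ℕ} (h : T.Key y n m) (hmn : m < n) (hw : T.w m = T.w (n + 1))
    (hlv : T.lab m T.v ≠ T.lab m y) {a : Fin c} (ha : T.t (m + 1) y = some a) :
    a ∈ T.P m (T.lab m T.v) ∧ T.X (m + 1) = T.X m ∧ T.lab (m + 1) = T.lab m ∧
    a ∉ T.P (m + 1) (T.lab m y) ∧
    ∀ z ∈ T.X m, T.lab m z ≠ T.lab m y → T.lab m z ≠ T.lab m T.v → T.t (m + 1) z ≠ none := by
  have hn := h.hn
  obtain ⟨hyX, hXn, hln, hfull, hc⟩ := T.hseen n h.hn y h.hs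
  have hyX1 : y ∈ T.X (m + 1) := T.X_mono (n := m + 1) (m := n) (by omega) (by omega) hyX
  obtain ⟨hX, hl, i, hi, ⟨z, hzX, hz⟩, hai, hai', his, hf, -⟩ := T.hnew m (by omega) y hyX1 a h.hm0 ha
  have hiv : i ≠ T.lab m T.v := fun hh => h.hfirst m hmn (his.1 hh)
  have hw1 : T.w m = T.w (m + 1) := le_antisymm (T.w_mono (by omega) (by omega))
    ((T.w_mono (n := m + 1) (m := n + 1) (by omega) (by omega)).trans_eq hw.symm)
  obtain ⟨hPc, -⟩ := T.w_const (n := m) (m := n + 1) (by omega) (by omega) hw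
  obtain ⟨hPc1, hRc1⟩ := T.w_const (n := m) (m := m + 1) (by omega) (by omega) hw1
  rw [hln] at hPc
  rw [hl] at hPc1
  have haP : a ∈ T.P m (T.lab m T.v) := by rw [hPc]; exact h.col_mem T ha
  have haR : a ∉ T.R m := by
    intro hR
    rw [R, mem_filter] at hR
    have := hR.2 z hzX
    rw [hz] at this
    exact hai this
  have hthree : ∀ q : Fin 3, q ≠ T.lab m y → q ≠ T.lab m T.v → q = i := by
    intro q h1 h2
    exact three_aux _ _ _ _ h1 h2 hi hiv hlv
  have hay : a ∉ T.P (m + 1) (T.lab m y) := by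
    intro hcon
    apply haR
    rw [hRc1, R, mem_filter]
    refine ⟨mem_univ _, ?_⟩
    intro x _
    rw [hl]
    by_cases h1 : T.lab m x = T.lab m y
    · rw [h1]; exact hcon
    · by_cases h2 : T.lab m x = T.lab m T.v
      · rw [h2, ← hPc1]; exact haP
      · rw [hthree _ h1 h2]; exact hai'
  refine ⟨haP, hX, hl, hay, ?_⟩
  intro x hx h1 h2
  rcases hf with h3 | h3
  · rw [h3] at hay; exact absurd (mem_univ _) hay
  · exact h3 x hx (hthree _ h1 h2)

/-- The vertices seen while unsaturated, in a window. -/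
theorem card_window {k : ℕ} (F : Finset V) (hF : ∀ y ∈ F, ∃ n m, T.Key y n m ∧ T.w n = k ∧
    T.w (n + 1) = k) : F.card ≤ 12 * c := by
  classical
  rcases F.eq_empty_or_nonempty with hE | hne
  · rw [hE]; simp
  choose! nu mu hK hw1 hw2 using hF
  -- the beginning of the window
  obtain ⟨y0, hy0⟩ := hne
  have hex : ∃ n, T.w n = k := ⟨_, hw1 y0 hy0⟩
  set α := Nat.find hex with hα
  have hwα : T.w α = k := Nat.find_spec hex
  have hαle : ∀ n, T.w n = k → α ≤ n := fun n hn => Nat.find_min' hex hn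
  have hcover : F ⊆ (F.filter (fun y => mu y < α)) ∪
      ((F.filter (fun y => α ≤ mu y ∧ T.lab (mu y) T.v = T.lab (mu y) y)) ∪
      (F.filter (fun y => α ≤ mu y ∧ T.lab (mu y) T.v ≠ T.lab (mu y) y))) := by
    intro y hy
    simp only [mem_union, mem_filter, hy, true_and]
    by_cases h1 : mu y < α
    · exact Or.inl h1
    · right
      by_cases h2 : T.lab (mu y) T.v = T.lab (mu y) y
      · exact Or.inl ⟨by omega, h2⟩
      · exact Or.inr ⟨by omega, h2⟩
  have hbasic : ∀ y ∈ F, mu y < nu y ∧ nu y < T.N ∧ α ≤ nu y := by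
    intro y hy
    refine ⟨(hK y hy).lt T (by rw [hw1 y hy, hw2 y hy]), (hK y hy).hn, hαle _ (hw1 y hy)⟩
  -- present tokens
  have hpres : ∀ n ≤ T.N, ∀ S : Finset V, (∀ y ∈ S, y ∈ T.X n ∧ T.t n y ≠ none) →
      S.card ≤ 3 * c := by
    intro n hn S hS
    refine (card_le_card ?_).trans (T.card_tokens hn)
    intro y hy
    rw [mem_filter]
    exact hS y hy
  have h0 : (F.filter (fun y => mu y < α)).card ≤ 3 * c := by
    refine hpres α ((hbasic y0 hy0).2.2.trans (hbasic y0 hy0).2.1.le) _ ?_
    intro y hy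
    rw [mem_filter] at hy
    obtain ⟨h1, h2, h3⟩ := hbasic y hy.1
    refine ⟨T.X_mono h3 h2.le (T.hseen _ h2 y (hK y hy.1).hs).1, ?_⟩
    rw [T.t_mono (n := mu y + 1) (m := α) (by omega) (by omega) y (hK y hy.1).hm1]
    exact (hK y hy.1).hm1
  have hI : (F.filter (fun y => α ≤ mu y ∧ T.lab (mu y) T.v = T.lab (mu y) y)).card ≤ 4 * c := by
    set FI := F.filter (fun y => α ≤ mu y ∧ T.lab (mu y) T.v = T.lab (mu y) y) with hFI
    rcases FI.eq_empty_or_nonempty with hE | hne
    · rw [hE]; simp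
    obtain ⟨y1, hy1, hmin⟩ := exists_min_image FI nu hne
    have hy1' := hy1
    rw [hFI, mem_filter] at hy1'
    obtain ⟨b1, b2, b3⟩ := hbasic y1 hy1'.1
    have hvc : (cl (T.X (nu y1)) (T.lab (nu y1)) (T.lab (nu y1) T.v)).card ≤ c := by
      apply (hK y1 hy1'.1).deep T b1
      intro x hx
      rw [mem_cl] at hx ⊢
      refine ⟨T.X_mono b1.le b2.le hx.1, ?_⟩
      rw [← hy1'.2.2]
      exact T.lab_mono b1.le b2.le x hx.1 T.v (T.hv _ b2.le) hx.2
    have hsplit : FI ⊆ (FI.filter (fun y => T.t (nu y1 + 1) y ≠ none)) ∪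
        cl (T.X (nu y1)) (T.lab (nu y1)) (T.lab (nu y1) T.v) := by
      intro y hy
      rw [mem_union, mem_filter]
      by_cases h1 : T.t (nu y1 + 1) y ≠ none
      · exact Or.inl ⟨hy, h1⟩
      · right
        rw [not_not] at h1
        have hy' := hy
        rw [hFI, mem_filter] at hy'
        obtain ⟨c1, c2, c3⟩ := hbasic y hy'.1
        have hlt : nu y1 + 1 ≤ mu y := by
          by_contra hcon
          have := T.t_none (n := mu y + 1) (m := nu y1 + 1) (by omega) (by omega) h1
          exact (hK y hy'.1).hm1 this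
        have hyX := (T.hseen _ c2 y (hK y hy'.1).hs).1
        have hyX2 := T.X_mono c1.le c2.le hyX
        rw [mem_cl]
        refine ⟨T.X_mono (by omega) (by omega) hyX2, ?_⟩
        exact T.lab_mono (n := nu y1) (m := mu y) (by omega) (by omega) y hyX2 T.v
          (T.hv _ (by omega)) hy'.2.2.symm
    have h1 : (FI.filter (fun y => T.t (nu y1 + 1) y ≠ none)).card ≤ 3 * c := by
      refine hpres (nu y1 + 1) b2 _ ?_
      intro y hy
      rw [mem_filter] at hy
      refine ⟨?_, hy.2⟩
      have hy' := hy.1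
      have hle := hmin y hy'
      rw [hFI, mem_filter] at hy'
      obtain ⟨c1, c2, c3⟩ := hbasic y hy'.1
      have hyX := (T.hseen _ c2 y (hK y hy'.1).hs).1
      have e1 := (T.hseen _ b2 y1 (hK y1 hy1'.1).hs).2.1
      rw [e1]
      exact T.X_mono hle c2.le hyX
    have h2 := card_le_card hsplit
    have h3 := card_union_le (FI.filter (fun y => T.t (nu y1 + 1) y ≠ none))
      (cl (T.X (nu y1)) (T.lab (nu y1)) (T.lab (nu y1) T.v))
    omega
  have hII : (F.filter (fun y => α ≤ mu y ∧ T.lab (mu y) T.v ≠ T.lab (mu y) y)).card ≤ 5 * c := by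
    set FI := F.filter (fun y => α ≤ mu y ∧ T.lab (mu y) T.v ≠ T.lab (mu y) y) with hFI
    rcases FI.eq_empty_or_nonempty with hE | hne
    · rw [hE]; simp
    obtain ⟨y1, hy1, hmin⟩ := exists_min_image FI nu hne
    have hwin : ∀ y ∈ FI, T.w (mu y) = T.w (nu y + 1) := by
      intro y hy
      rw [hFI, mem_filter] at hy
      obtain ⟨c1, c2, c3⟩ := hbasic y hy.1
      apply le_antisymm (T.w_mono (by omega) (by omega))
      rw [hw2 y hy.1, ← hwα]
      exact T.w_mono hy.2.1 (by omega)
    have hy1' := hy1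
    rw [hFI, mem_filter] at hy1'
    obtain ⟨b1, b2, b3⟩ := hbasic y1 hy1'.1
    obtain ⟨a1, ha1⟩ := Option.ne_none_iff_exists'.1 (hK y1 hy1'.1).hm1
    obtain ⟨o1, o2, o3, o4, o5⟩ := (hK y1 hy1'.1).other T b1 (hwin y1 hy1) hy1'.2.2 ha1
    set n1 := nu y1 with hn1
    set m1 := mu y1 with hm1
    have hsplit : FI ⊆ (FI.filter (fun y => T.t (n1 + 1) y ≠ none)) ∪
        (univ.filter (fun q : Fin 3 => q ≠ T.lab n1 T.v ∧
          (cl (T.X n1) (T.lab n1) q).card ≤ c)).biUnion (fun q => cl (T.X n1) (T.lab n1) q) := by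
      intro y hy
      rw [mem_union, mem_filter]
      by_cases h1 : T.t (n1 + 1) y ≠ none
      · exact Or.inl ⟨hy, h1⟩
      · right
        rw [not_not] at h1
        have hy' := hy
        rw [hFI, mem_filter] at hy'
        obtain ⟨c1, c2, c3⟩ := hbasic y hy'.1
        have hlt : n1 + 1 ≤ mu y := by
          by_contra hcon
          have := T.t_none (n := mu y + 1) (m := n1 + 1) (by omega) (by omega) h1
          exact (hK y hy'.1).hm1 this
        have hyX := (T.hseen _ c2 y (hK y hy'.1).hs).1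
        have hyX2 := T.X_mono c1.le c2.le hyX
        obtain ⟨a, ha⟩ := Option.ne_none_iff_exists'.1 (hK y hy'.1).hm1
        obtain ⟨p1, p2, p3, p4, -⟩ := (hK y hy'.1).other T c1 (hwin y hy) hy'.2.2 ha
        -- the class of `y` at the time `m1`
        have hyX3 : y ∈ T.X (m1 + 1) := T.X_mono (n := m1 + 1) (m := mu y) (by omega) (by omega) hyX2
        have hyX4 : y ∈ T.X m1 := by rw [← o2]; exact hyX3
        have hfree : T.t (m1 + 1) y = none :=
          T.t_none (n := m1 + 1) (m := mu y) (by omega) (by omega) (hK y hy'.1).hm0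
        have hlab1 : T.lab m1 y = T.lab m1 y1 := by
          by_contra hcon
          by_cases hv : T.lab m1 y = T.lab m1 T.v
          · apply p4
            have e1 : T.w (m1 + 1) = T.w (mu y) := by
              apply le_antisymm (T.w_mono (by omega) (by omega))
              have e2 : T.w (mu y) ≤ k := by
                rw [← hw1 y hy'.1]
                exact T.w_mono (by omega) (by omega)
              have e3 : k ≤ T.w (m1 + 1) := by
                rw [← hwα]
                have := hy1'.2.1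
                exact T.w_mono (by omega) (by omega)
              exact e2.trans e3
            have e4 := (T.w_const (n := m1 + 1) (m := mu y) (by omega) (by omega) e1).1
            rw [← e4, o3, ← hv, ← o3] at p1
            have e5 := T.P_mono (n := m1 + 1) (m := mu y + 1) (by omega) (by omega) y
              (by rw [p2]; exact hyX2)
            rw [p3] at e5
            exact e5 p1
          · exact o5 y hyX4 hcon hv hfree
        rw [mem_biUnion]
        have hyX5 : y ∈ T.X n1 := T.X_mono (by omega) (by omega) hyX2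
        refine ⟨T.lab n1 y, ?_, mem_cl.2 ⟨hyX5, rfl⟩⟩
        rw [mem_filter]
        refine ⟨mem_univ _, ?_, ?_⟩
        · intro hcon
          have := T.lab_mono (n := m1) (m := n1) (by omega) (by omega) y hyX5 T.v
            (T.hv _ (by omega)) hcon
          rw [hlab1] at this
          exact hy1'.2.2 this.symm
        · apply (hK y1 hy1'.1).deep T b1
          intro x hx
          rw [mem_cl] at hx ⊢
          refine ⟨T.X_mono b1.le b2.le hx.1, ?_⟩
          rw [← hlab1]
          exact T.lab_mono b1.le b2.le x hx.1 y hyX5 hx.2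
    have h1 : (FI.filter (fun y => T.t (n1 + 1) y ≠ none)).card ≤ 3 * c := by
      refine hpres (n1 + 1) b2 _ ?_
      intro y hy
      rw [mem_filter] at hy
      refine ⟨?_, hy.2⟩
      have hy' := hy.1
      have hle := hmin y hy'
      rw [hFI, mem_filter] at hy'
      obtain ⟨c1, c2, c3⟩ := hbasic y hy'.1
      have hyX := (T.hseen _ c2 y (hK y hy'.1).hs).1
      have e1 := (T.hseen _ b2 y1 (hK y1 hy1'.1).hs).2.1
      rw [e1]
      exact T.X_mono hle c2.le hyX
    have h2 := card_le_card hsplit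
    have h3 := card_union_le (FI.filter (fun y => T.t (n1 + 1) y ≠ none))
      ((univ.filter (fun q : Fin 3 => q ≠ T.lab n1 T.v ∧
          (cl (T.X n1) (T.lab n1) q).card ≤ c)).biUnion (fun q => cl (T.X n1) (T.lab n1) q))
    have h4 : ((univ.filter (fun q : Fin 3 => q ≠ T.lab n1 T.v ∧
          (cl (T.X n1) (T.lab n1) q).card ≤ c)).biUnion
            (fun q => cl (T.X n1) (T.lab n1) q)).card ≤
        (univ.filter (fun q : Fin 3 => q ≠ T.lab n1 T.v ∧
          (cl (T.X n1) (T.lab n1) q).card ≤ c)).card * c := by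
      apply card_biUnion_le_card_mul
      intro q hq
      rw [mem_filter] at hq
      exact hq.2.2
    have h5 : (univ.filter (fun q : Fin 3 => q ≠ T.lab n1 T.v ∧
          (cl (T.X n1) (T.lab n1) q).card ≤ c)).card ≤ 2 := by
      have h6 : (univ.filter (fun q : Fin 3 => q ≠ T.lab n1 T.v ∧
          (cl (T.X n1) (T.lab n1) q).card ≤ c)) ⊆ univ.erase (T.lab n1 T.v) := by
        intro q hq
        rw [mem_filter] at hq
        exact mem_erase.2 ⟨hq.2.1, mem_univ _⟩
      have h7 := card_le_card h6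
      rw [card_erase_of_mem (mem_univ _)] at h7
      simpa using h7
    nlinarith
  have h1 := card_le_card hcover
  have h2 := card_union_le (F.filter (fun y => mu y < α))
      ((F.filter (fun y => α ≤ mu y ∧ T.lab (mu y) T.v = T.lab (mu y) y)) ∪
      (F.filter (fun y => α ≤ mu y ∧ T.lab (mu y) T.v ≠ T.lab (mu y) y)))
  have h3 := card_union_le
      (F.filter (fun y => α ≤ mu y ∧ T.lab (mu y) T.v = T.lab (mu y) y))
      (F.filter (fun y => α ≤ mu y ∧ T.lab (mu y) T.v ≠ T.lab (mu y) y))
  omega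

/-- The total number of vertices seen while unsaturated. -/
theorem card_NS (F : Finset V) (hF : ∀ y ∈ F, T.NS y) : F.card ≤ 26 * c ^ 2 + 12 * c := by
  classical
  have hF' : ∀ y ∈ F, ∃ n m, T.Key y n m := fun y hy => T.exists_key (hF y hy)
  choose! nu mu hK using hF'
  have h1 : (F.filter (fun y => T.w (nu y) < T.w (nu y + 1))).card ≤ c * (2 * c) := by
    have := card_le_mul_card_image_of_maps_to
      (s := F.filter (fun y => T.w (nu y) < T.w (nu y + 1))) (f := fun y => T.w (nu y))
      (t := range (2 * c)) ?_ c ?_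
    · simpa using this
    · intro y hy
      rw [mem_filter] at hy
      rw [mem_range]
      exact lt_of_lt_of_le hy.2 (T.w_le _)
    · intro k _
      rcases ((F.filter (fun y => T.w (nu y) < T.w (nu y + 1))).filter
        (fun y => T.w (nu y) = k)).eq_empty_or_nonempty with hE | ⟨y0, hy0⟩
      · rw [hE]; simp
      · have hy0' := hy0
        rw [mem_filter, mem_filter] at hy0'
        have hn0 := (hK y0 hy0'.1.1).hn
        refine (card_le_card ?_).trans ((hK y0 hy0'.1.1).card_class T)
        intro y hy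
        rw [mem_filter, mem_filter] at hy
        have hn := (hK y hy.1.1).hn
        have hnu : nu y = nu y0 := by
          rcases lt_trichotomy (nu y) (nu y0) with h | h | h
          · exfalso
            have := T.w_mono (n := nu y + 1) (m := nu y0) (by omega) (by omega)
            omega
          · exact h
          · exfalso
            have := T.w_mono (n := nu y0 + 1) (m := nu y) (by omega) (by omega)
            omega
        have hs := (hK y hy.1.1).hs
        rw [hnu] at hs
        rw [mem_cl]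
        exact ⟨(T.hseen _ hn0 y hs).1, T.hseen' _ hn0 y y0 hs (hK y0 hy0'.1.1).hs⟩
  have h2 : (F.filter (fun y => ¬ T.w (nu y) < T.w (nu y + 1))).card ≤ 12 * c * (2 * c + 1) := by
    have := card_le_mul_card_image_of_maps_to
      (s := F.filter (fun y => ¬ T.w (nu y) < T.w (nu y + 1))) (f := fun y => T.w (nu y))
      (t := range (2 * c + 1)) ?_ (12 * c) ?_
    · simpa using this
    · intro y hy
      rw [mem_range]
      have := T.w_le (nu y)
      omega
    · intro k _
      apply T.card_window (k := k)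
      intro y hy
      rw [mem_filter, mem_filter] at hy
      have hn := (hK y hy.1.1).hn
      refine ⟨nu y, mu y, hK y hy.1.1, hy.2, ?_⟩
      have := T.w_mono (n := nu y) (m := nu y + 1) (by omega) (by omega)
      omega
  have h3 := card_filter_add_card_filter_not (s := F) (fun y => T.w (nu y) < T.w (nu y + 1))
  nlinarith

end Trace

end Pool.Agent.V11122.Dom3
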