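import Mathlib
import Pool.Agent.V11122.Dom3Seq
import Pool.Agent.H175R2.Defs

set_option autoImplicit false

/-! Clique-width 3 expressions and the top-down token process. -/

namespace Pool.Agent.V11122.Dom3

open Finset

variable {V : Type} [DecidableEq V]

/-- clique-width expressions with three labels on vertices from `V` -/
inductive Ex (V : Type) where
  | leaf (v : V) (i : Fin 3) : Ex V
  | union (a b : Ex V) : Ex V
  | join (i j : Fin 3) (a : Ex V) : Ex V
  | relabel (i j : Fin 3) (a : Ex V) : Ex V

namespace Ex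

def verts : Ex V → Finset V
  | leaf v _ => {v}
  | union a b => a.verts ∪ b.verts
  | join _ _ a => a.verts
  | relabel _ _ a => a.verts

def lab : Ex V → V → Fin 3
  | leaf _ i => fun _ => i
  | union a b => fun x => if x ∈ a.verts then a.lab x else b.lab x
  | join _ _ a => a.lab
  | relabel i j a => fun x => if a.lab x = i then j else a.lab x

/-- `y` is joined to `x` at the top node. -/
def seen : Ex V → V → V → Prop
  | join i j a => fun x y => x ∈ a.verts ∧ y ∈ a.verts ∧
      ((a.lab x = i ∧ a.lab y = j) ∨ (a.lab x = j ∧ a.lab y = i))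
  | _ => fun _ _ => False

def adj : Ex V → V → V → Prop
  | leaf _ _ => fun _ _ => False
  | union a b => fun x y => a.adj x y ∨ b.adj x y
  | join i j a => fun x y => a.adj x y ∨ (join i j a).seen x y
  | relabel _ _ a => a.adj

def wf : Ex V → Prop
  | leaf _ _ => True
  | union a b => a.wf ∧ b.wf ∧ Disjoint a.verts b.verts
  | join i j a => i ≠ j ∧ a.wf
  | relabel _ _ a => a.wf

theorem adj_mem (e : Ex V) {x y : V} (h : e.adj x y) : x ∈ e.verts ∧ y ∈ e.verts := by
  induction e with
  | leaf v i => exact h.elim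
  | union a b iha ihb =>
    rcases h with h | h
    · exact ⟨mem_union_left _ (iha h).1, mem_union_left _ (iha h).2⟩
    · exact ⟨mem_union_right _ (ihb h).1, mem_union_right _ (ihb h).2⟩
  | join i j a ih =>
    rcases h with h | h
    · exact ih h
    · exact ⟨h.1, h.2.1⟩
  | relabel i j a ih => exact ih h

/-- sub-expressions -/
inductive Sub : Ex V → Ex V → Prop
  | refl (e : Ex V) : Sub e e
  | unionL {s a : Ex V} (b : Ex V) : Sub s a → Sub s (union a b)
  | unionR {s b : Ex V} (a : Ex V) : Sub s b → Sub s (union a b)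
  | join {s a : Ex V} (i j : Fin 3) : Sub s a → Sub s (join i j a)
  | relabel {s a : Ex V} (i j : Fin 3) : Sub s a → Sub s (relabel i j a)

theorem Sub.verts {s e : Ex V} (h : Sub s e) : s.verts ⊆ e.verts := by
  induction h with
  | refl => exact Subset.refl _
  | unionL b _ ih => exact ih.trans subset_union_left
  | unionR a _ ih => exact ih.trans subset_union_right
  | join i j _ ih => exact ih
  | relabel i j _ ih => exact ih

omit [DecidableEq V] in
theorem Sub.trans {r s e : Ex V} (h1 : Sub r s) (h2 : Sub s e) : Sub r e := by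
  induction h2 with
  | refl => exact h1
  | unionL b _ ih => exact Sub.unionL b ih
  | unionR a _ ih => exact Sub.unionR a ih
  | join i j _ ih => exact Sub.join i j ih
  | relabel i j _ ih => exact Sub.relabel i j ih

/-- class of the label `q` -/
def cls (e : Ex V) (q : Fin 3) : Finset V := cl e.verts e.lab q

theorem mem_cls {e : Ex V} {q : Fin 3} {x : V} : x ∈ e.cls q ↔ x ∈ e.verts ∧ e.lab x = q := mem_cl

/-- `x` is a deep element of `Y` in `e`. -/
def Deep (c : ℕ) (x : V) (Y : Finset V) (e : Ex V) : Prop :=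
  ∀ s, Sub s e → x ∈ s.verts → (s.cls (s.lab x)).card ≤ c → ∀ q, s.cls q ⊆ Y → (s.cls q).card ≤ c

theorem deep_exists (c : ℕ) (Y : Finset V) (e : Ex V) (he : e.wf)
    (h : ∃ s, Sub s e ∧ ∃ q, s.cls q ⊆ Y ∧ c < (s.cls q).card) :
    ∃ Z : Finset V, Z ⊆ Y ∧ Z ⊆ e.verts ∧ c < Z.card ∧ (∀ x ∈ Z, Deep c x Y e) ∧
      ∀ x ∈ Z, ∀ y ∈ Z, e.lab x = e.lab y := by
  -- the case in which no proper sub-expression has a large class
  have hself : ∀ e : Ex V, (∃ q, e.cls q ⊆ Y ∧ c < (e.cls q).card) →
      (∀ s, Sub s e → s = e ∨ ∀ q, s.cls q ⊆ Y → (s.cls q).card ≤ c) →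
      ∃ Z : Finset V, Z ⊆ Y ∧ Z ⊆ e.verts ∧ c < Z.card ∧ (∀ x ∈ Z, Deep c x Y e) ∧
      ∀ x ∈ Z, ∀ y ∈ Z, e.lab x = e.lab y := by
    rintro e ⟨q, h1, h2⟩ hs
    refine ⟨e.cls q, h1, fun x hx => (mem_cls.1 hx).1, h2, ?_, ?_⟩
    · intro x hx s hse hxs hcard
      rcases hs s hse with h | h
      · subst h
        rw [(mem_cls.1 hx).2] at hcard
        omega
      · exact h
    · intro x hx y hy
      rw [(mem_cls.1 hx).2, (mem_cls.1 hy).2]
  -- lifting from a child
  have hlift : ∀ (a e : Ex V), a.verts ⊆ e.verts → (∀ x ∈ a.verts, ∀ y ∈ a.verts,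
      a.lab x = a.lab y → e.lab x = e.lab y) →
      (∀ s x, Sub s e → x ∈ s.verts → x ∈ a.verts → s = e ∨ Sub s a) →
      (∃ Z : Finset V, Z ⊆ Y ∧ Z ⊆ a.verts ∧ c < Z.card ∧ (∀ x ∈ Z, Deep c x Y a) ∧
      ∀ x ∈ Z, ∀ y ∈ Z, a.lab x = a.lab y) →
      ∃ Z : Finset V, Z ⊆ Y ∧ Z ⊆ e.verts ∧ c < Z.card ∧ (∀ x ∈ Z, Deep c x Y e) ∧
      ∀ x ∈ Z, ∀ y ∈ Z, e.lab x = e.lab y := by
    rintro a e hv hl hsub ⟨Z, h1, h2, h3, h4, h5⟩
    refine ⟨Z, h1, h2.trans hv, h3, ?_, ?_⟩
    · intro x hx s hse hxs hcard
      rcases hsub s x hse hxs (h2 hx) with h | h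
      · exfalso
        subst h
        have : Z ⊆ s.cls (s.lab x) := by
          intro y hy
          rw [mem_cls]
          exact ⟨hv (h2 hy), hl y (h2 hy) x (h2 hx) (h5 y hy x hx)⟩
        have := card_le_card this
        omega
      · exact h4 x hx s h hxs hcard
    · intro x hx y hy
      exact hl x (h2 hx) y (h2 hy) (h5 x hx y hy)
  induction e with
  | leaf v i =>
    obtain ⟨s, hs, q, h1, h2⟩ := h
    have hsub : ∀ s, Sub s (leaf v i) → s = leaf v i := by
      intro s hs
      cases hs
      rfl
    rw [hsub s hs] at h1 h2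
    exact hself _ ⟨q, h1, h2⟩ (fun s hs => Or.inl (hsub s hs))
  | union a b iha ihb =>
    obtain ⟨wa, wb, wd⟩ := he
    by_cases ha : ∃ s, Sub s a ∧ ∃ q, s.cls q ⊆ Y ∧ c < (s.cls q).card
    · refine hlift a _ subset_union_left ?_ ?_ (iha wa ha)
      · intro x hx y hy hxy
        simp only [lab, hx, hy, if_true]
        exact hxy
      · intro s x hs hxs hxa
        cases hs with
        | refl => exact Or.inl rfl
        | unionL _ h => exact Or.inr h
        | unionR _ h => exact absurd (h.verts hxs) (disjoint_left.1 wd hxa)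
    · by_cases hb : ∃ s, Sub s b ∧ ∃ q, s.cls q ⊆ Y ∧ c < (s.cls q).card
      · refine hlift b _ subset_union_right ?_ ?_ (ihb wb hb)
        · intro x hx y hy hxy
          have h1 := disjoint_right.1 wd hx
          have h2 := disjoint_right.1 wd hy
          simp only [lab, h1, h2, if_false]
          exact hxy
        · intro s x hs hxs hxb
          cases hs with
          | refl => exact Or.inl rfl
          | unionL _ h => exact absurd (h.verts hxs) (disjoint_right.1 wd hxb)
          | unionR _ h => exact Or.inr h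
      · push Not at ha hb
        obtain ⟨s, hs, q, h1, h2⟩ := h
        apply hself
        · cases hs with
          | refl => exact ⟨q, h1, h2⟩
          | unionL _ h => exact absurd h2 (not_lt.2 (ha s h q h1))
          | unionR _ h => exact absurd h2 (not_lt.2 (hb s h q h1))
        · intro s hs
          cases hs with
          | refl => exact Or.inl rfl
          | unionL _ h => exact Or.inr (ha s h)
          | unionR _ h => exact Or.inr (hb s h)
  | join i j a ih =>
    obtain ⟨wi, wa⟩ := he
    by_cases ha : ∃ s, Sub s a ∧ ∃ q, s.cls q ⊆ Y ∧ c < (s.cls q).card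
    · refine hlift a _ (Subset.refl _) (fun x _ y _ h => h) ?_ (ih wa ha)
      intro s x hs hxs hxa
      cases hs with
      | refl => exact Or.inl rfl
      | join _ _ h => exact Or.inr h
    · push Not at ha
      obtain ⟨s, hs, q, h1, h2⟩ := h
      apply hself
      · cases hs with
        | refl => exact ⟨q, h1, h2⟩
        | join _ _ h => exact absurd h2 (not_lt.2 (ha s h q h1))
      · intro s hs
        cases hs with
        | refl => exact Or.inl rfl
        | join _ _ h => exact Or.inr (ha s h)
  | relabel i j a ih =>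
    by_cases ha : ∃ s, Sub s a ∧ ∃ q, s.cls q ⊆ Y ∧ c < (s.cls q).card
    · refine hlift a _ (Subset.refl _) (fun x _ y _ h => ?_) ?_ (ih he ha)
      · simp only [lab, h]
      intro s x hs hxs hxa
      cases hs with
      | refl => exact Or.inl rfl
      | relabel _ _ h => exact Or.inr h
    · push Not at ha
      obtain ⟨s, hs, q, h1, h2⟩ := h
      apply hself
      · cases hs with
        | refl => exact ⟨q, h1, h2⟩
        | relabel _ _ h => exact absurd h2 (not_lt.2 (ha s h q h1))
      · intro s hs
        cases hs with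
        | refl => exact Or.inl rfl
        | relabel _ _ h => exact Or.inr (ha s h)

end Ex

/-- matching of free elements and missing colours -/
theorem matching {c : ℕ} (D : Finset V) (M : Finset (Fin c)) :
    ∃ (D' : Finset V) (g : V → Option (Fin c)), D' ⊆ D ∧
      (∀ x ∈ D', ∃ a ∈ M, g x = some a) ∧ (∀ x ∈ D', ∀ y ∈ D', g x = g y → x = y) ∧
      ((∀ a ∈ M, ∃ x ∈ D', g x = some a) ∨ D' = D) := by
  classical
  rcases le_total M.card D.card with h | h
  · obtain ⟨D', hD', hcard⟩ := exists_subset_card_eq h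
    have e : D' ≃ M := Finset.equivOfCardEq hcard
    refine ⟨D', fun x => if hx : x ∈ D' then some (e ⟨x, hx⟩).1 else none, hD', ?_, ?_, Or.inl ?_⟩
    · intro x hx
      exact ⟨_, (e ⟨x, hx⟩).2, dif_pos hx⟩
    · intro x hx y hy hxy
      simp only [dif_pos hx, dif_pos hy, Option.some.injEq] at hxy
      have := e.injective (Subtype.ext hxy)
      exact congrArg Subtype.val this
    · intro a ha
      refine ⟨(e.symm ⟨a, ha⟩).1, (e.symm ⟨a, ha⟩).2, ?_⟩
      refine (dif_pos (e.symm ⟨a, ha⟩).2).trans ?_
      simp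
  · obtain ⟨M', hM', hcard⟩ := exists_subset_card_eq h
    have e : D ≃ M' := Finset.equivOfCardEq hcard.symm
    refine ⟨D, fun x => if hx : x ∈ D then some (e ⟨x, hx⟩).1 else none, Subset.refl _, ?_, ?_,
      Or.inr rfl⟩
    · intro x hx
      exact ⟨_, hM' (e ⟨x, hx⟩).2, dif_pos hx⟩
    · intro x hx y hy hxy
      simp only [dif_pos hx, dif_pos hy, Option.some.injEq] at hxy
      have := e.injective (Subtype.ext hxy)
      exact congrArg Subtype.val this

/-- colours of the tokens in `S` -/
def cols {c : ℕ} (t : V → Option (Fin c)) (S : Finset V) : Finset (Fin c) :=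
  univ.filter (fun a => ∃ x ∈ S, t x = some a)

omit [DecidableEq V] in
theorem mem_cols {c : ℕ} {t : V → Option (Fin c)} {S : Finset V} {a : Fin c} :
    a ∈ cols t S ↔ ∃ x ∈ S, t x = some a := by
  simp [cols]

/-- All classes of `e` have tokens of distinct colours. -/
def Inj {c : ℕ} (e : Ex V) (t : V → Option (Fin c)) : Prop :=
  ∀ x ∈ e.verts, ∀ y ∈ e.verts, e.lab x = e.lab y → t x = t y → t x ≠ none → x = y

/-- the promises below a join -/
def joinP {c : ℕ} (i j : Fin 3) (a : Ex V) (P : Fin 3 → Finset (Fin c)) (t' : V → Option (Fin c)) :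
    Fin 3 → Finset (Fin c) :=
  fun q => if q = i then P i ∪ cols t' (a.cls j) else if q = j then P j ∪ cols t' (a.cls i) else P q

/-- The tokens that are created at a join in the class `j` for the sake of the class `i`. -/
theorem half_create {c : ℕ} (i j : Fin 3) (a : Ex V) (hwf : (Ex.join i j a).wf)
    (P : Fin 3 → Finset (Fin c)) (t : V → Option (Fin c)) (hinj : Inj a t) :
    ∃ (D' : Finset V) (g : V → Option (Fin c)), D' ⊆ a.cls j ∧
      (∀ x ∈ D', t x = none ∧ Ex.Deep c x (a.cls j) (Ex.join i j a)) ∧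
      (∀ x ∈ D', ∃ b, b ∉ P i ∧ b ∉ cols t (a.cls j) ∧ g x = some b) ∧
      (∀ x ∈ D', ∀ y ∈ D', g x = g y → x = y) ∧
      ((∀ b, b ∈ P i ∨ b ∈ cols t (a.cls j) ∨ ∃ x ∈ D', g x = some b) ∨
        ∀ x ∈ a.cls j, t x = none → x ∈ D') := by
  classical
  set e := Ex.join i j a with he
  set D := (a.cls j).filter (fun x => t x = none ∧ Ex.Deep c x (a.cls j) e) with hD
  set M : Finset (Fin c) := univ.filter (fun b => b ∉ P i ∧ b ∉ cols t (a.cls j)) with hM
  obtain ⟨D', g, h1, h2, h3, h4⟩ := matching D M
  refine ⟨D', g, ?_, ?_, ?_, h3, ?_⟩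
  · intro x hx
    have := h1 hx
    rw [hD, mem_filter] at this
    exact this.1
  · intro x hx
    have := h1 hx
    rw [hD, mem_filter] at this
    exact this.2
  · intro x hx
    obtain ⟨b, hb, hg⟩ := h2 x hx
    rw [hM, mem_filter] at hb
    exact ⟨b, hb.2.1, hb.2.2, hg⟩
  · have hcase : (∀ b ∈ M, ∃ x ∈ D', g x = some b) ∨ ∀ x ∈ a.cls j, t x = none → x ∈ D' := by
      by_cases hcard : (a.cls j).card ≤ c
      · rcases h4 with h4 | h4
        · exact Or.inl h4
        · right
          intro x hx hx0
          rw [h4, hD, mem_filter]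
          refine ⟨hx, hx0, ?_⟩
          intro s _ _ _ q hq
          exact (card_le_card hq).trans hcard
      · rcases h4 with h4 | h4
        · exact Or.inl h4
        · left
          -- many deep free elements
          push Not at hcard
          obtain ⟨Z, z1, z2, z3, z4, z5⟩ := Ex.deep_exists c (a.cls j) e hwf
            ⟨e, Ex.Sub.refl _, j, Subset.refl _, hcard⟩
          -- the tokens in `Z` are at most as many as the colours of the class
          have hZt : (Z.filter (fun x => t x ≠ none)).card ≤ (cols t (a.cls j)).card := by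
            rcases Nat.eq_zero_or_pos c with hc | hc
            · subst hc
              rw [card_eq_zero.2]
              · exact Nat.zero_le _
              · rw [filter_eq_empty_iff]
                intro x _ hx
                obtain ⟨b, hb⟩ := Option.ne_none_iff_exists'.1 hx
                exact b.elim0
            · refine card_le_card_of_injOn (fun x => (t x).getD ⟨0, hc⟩) ?_ ?_
              · intro x hx
                rw [mem_coe, mem_filter] at hx
                obtain ⟨b, hb⟩ := Option.ne_none_iff_exists'.1 hx.2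
                rw [mem_coe, mem_cols]
                exact ⟨x, z1 hx.1, by simp [hb]⟩
              · intro x hx y hy hxy
                rw [mem_coe, mem_filter] at hx hy
                obtain ⟨b, hb⟩ := Option.ne_none_iff_exists'.1 hx.2
                obtain ⟨b', hb'⟩ := Option.ne_none_iff_exists'.1 hy.2
                simp only [hb, hb', Option.getD_some] at hxy
                have m1 := Ex.mem_cls.1 (z1 hx.1)
                have m2 := Ex.mem_cls.1 (z1 hy.1)
                exact hinj x m1.1 y m2.1 (m1.2.trans m2.2.symm) (by rw [hb, hb', hxy]) hx.2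
          have hZf : (Z.filter (fun x => ¬ t x ≠ none)) ⊆ D := by
            intro x hx
            rw [mem_filter, not_not] at hx
            rw [hD, mem_filter]
            exact ⟨z1 hx.1, hx.2, z4 x hx.1⟩
          have e1 := card_filter_add_card_filter_not (s := Z) (fun x => t x ≠ none)
          have e2 := card_le_card hZf
          have e3 : M.card + (cols t (a.cls j)).card ≤ c := by
            have : Disjoint M (cols t (a.cls j)) := by
              rw [disjoint_left]
              intro b hb
              rw [hM, mem_filter] at hb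
              exact hb.2.2
            rw [← card_union_of_disjoint this]
            exact (card_le_univ _).trans_eq (Fintype.card_fin c)
          -- now `M.card < D.card = D'.card ≤ M.card`
          exfalso
          have e4 : D'.card ≤ M.card := by
            rcases Nat.eq_zero_or_pos c with hc | hc
            · subst hc
              rw [card_eq_zero.2]
              · exact Nat.zero_le _
              · rw [eq_empty_iff_forall_notMem]
                intro x hx
                obtain ⟨b, _⟩ := h2 x hx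
                exact b.elim0
            · refine card_le_card_of_injOn (fun x => (g x).getD ⟨0, hc⟩) ?_ ?_
              · intro x hx
                obtain ⟨b, hb, hg⟩ := h2 x hx
                simpa [hg] using hb
              · intro x hx y hy hxy
                obtain ⟨b, hb, hg⟩ := h2 x hx
                obtain ⟨b', hb', hg'⟩ := h2 y hy
                simp only [hg, hg', Option.getD_some] at hxy
                exact h3 x hx y hy (by rw [hg, hg', hxy])
          rw [h4] at e4
          omega
    rcases hcase with h | h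
    · left
      intro b
      by_cases hb : b ∈ M
      · exact Or.inr (Or.inr (h b hb))
      · rw [hM, mem_filter] at hb
        by_contra hcon
        push Not at hcon
        exact hb ⟨mem_univ _, hcon.1, hcon.2.1⟩
    · exact Or.inr h

/-- The conditions on the tokens `t'` after a join. -/
structure JoinOK {c : ℕ} (i j : Fin 3) (a : Ex V) (P : Fin 3 → Finset (Fin c))
    (t t' : V → Option (Fin c)) : Prop where
  ext : ∀ x, t x ≠ none → t' x = t x
  newj : ∀ x b, t x = none → t' x = some b →
    (x ∈ a.cls j ∧ (a.cls i).Nonempty ∧ b ∉ P i ∧ Ex.Deep c x (a.cls j) (Ex.join i j a)) ∨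
    (x ∈ a.cls i ∧ (a.cls j).Nonempty ∧ b ∉ P j ∧ Ex.Deep c x (a.cls i) (Ex.join i j a))
  inj : Inj a t'
  eagi : (a.cls i).Nonempty → (∀ b, b ∈ P i ∪ cols t' (a.cls j)) ∨ ∀ x ∈ a.cls j, t' x ≠ none
  eagj : (a.cls j).Nonempty → (∀ b, b ∈ P j ∪ cols t' (a.cls i)) ∨ ∀ x ∈ a.cls i, t' x ≠ none

theorem exists_join {c : ℕ} (i j : Fin 3) (a : Ex V) (hwf : (Ex.join i j a).wf)
    (P : Fin 3 → Finset (Fin c)) (t : V → Option (Fin c)) (hinj : Inj a t) :
    ∃ t', JoinOK i j a P t t' := by
  classical
  have hwf2 : (Ex.join j i a).wf := ⟨hwf.1.symm, hwf.2⟩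
  have hhalf : ∀ (i j : Fin 3), (Ex.join i j a).wf → ∃ (D' : Finset V) (g : V → Option (Fin c)),
      D' ⊆ a.cls j ∧
      (∀ x ∈ D', t x = none ∧ (a.cls i).Nonempty ∧ Ex.Deep c x (a.cls j) (Ex.join i j a)) ∧
      (∀ x ∈ D', ∃ b, b ∉ P i ∧ b ∉ cols t (a.cls j) ∧ g x = some b) ∧
      (∀ x ∈ D', ∀ y ∈ D', g x = g y → x = y) ∧
      ((a.cls i).Nonempty → (∀ b, b ∈ P i ∨ b ∈ cols t (a.cls j) ∨ ∃ x ∈ D', g x = some b) ∨
        ∀ x ∈ a.cls j, t x = none → x ∈ D') := by
    intro i j hw
    by_cases hne : (a.cls i).Nonempty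
    · obtain ⟨D', g, h1, h2, h3, h4, h5⟩ := half_create i j a hw P t hinj
      exact ⟨D', g, h1, fun x hx => ⟨(h2 x hx).1, hne, (h2 x hx).2⟩, h3, h4, fun _ => h5⟩
    · exact ⟨∅, fun _ => none, empty_subset _, by simp, by simp, by simp,
        fun h => absurd h hne⟩
  obtain ⟨D, g, d1, d2, d3, d4, d5⟩ := hhalf i j hwf
  obtain ⟨D', g', e1, e2, e3, e4, e5⟩ := hhalf j i hwf2
  have hdisj : Disjoint D D' := by
    rw [disjoint_left]
    intro x hx hx'
    have h1 := Ex.mem_cls.1 (d1 hx)
    have h2 := Ex.mem_cls.1 (e1 hx')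
    exact hwf.1 (h2.2.symm.trans h1.2)
  set t' : V → Option (Fin c) := fun x => if x ∈ D then g x else if x ∈ D' then g' x else t x
    with ht'
  have tD : ∀ x ∈ D, t' x = g x := fun x hx => if_pos hx
  have tD' : ∀ x ∈ D', t' x = g' x := by
    intro x hx
    have : x ∉ D := disjoint_right.1 hdisj hx
    simp only [ht', this, if_false, hx, if_true]
  have tn : ∀ x, x ∉ D → x ∉ D' → t' x = t x := by
    intro x h1 h2
    simp only [ht', h1, h2, if_false]
  have hext : ∀ x, t x ≠ none → t' x = t x := by
    intro x hx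
    apply tn
    · intro h; exact hx (d2 x h).1
    · intro h; exact hx (e2 x h).1
  have hdeep : ∀ x Y, Ex.Deep c x Y (Ex.join j i a) → Ex.Deep c x Y (Ex.join i j a) := by
    intro x Y h s hs hx hcard q hq
    cases hs with
    | refl => exact h (Ex.join j i a) (Ex.Sub.refl _) hx hcard q hq
    | join _ _ hs => exact h s (Ex.Sub.join _ _ hs) hx hcard q hq
  -- injectivity in the classes
  have hinjc : ∀ (D : Finset V) (g : V → Option (Fin c)) (i j : Fin 3), D ⊆ a.cls j →
      (∀ x ∈ D, ∃ b, b ∉ P i ∧ b ∉ cols t (a.cls j) ∧ g x = some b) →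
      (∀ x ∈ D, ∀ y ∈ D, g x = g y → x = y) → (∀ x ∈ D, t' x = g x) →
      (∀ x ∈ a.cls j, x ∉ D → t' x = t x) →
      ∀ x ∈ a.cls j, ∀ y ∈ a.cls j, t' x = t' y → t' x ≠ none → x = y := by
    intro D g i j h1 h2 h3 h4 h5 x hx y hy hxy hne
    by_cases hxD : x ∈ D
    · by_cases hyD : y ∈ D
      · exact h3 x hxD y hyD (by rw [← h4 x hxD, ← h4 y hyD, hxy])
      · exfalso
        obtain ⟨b, hb1, hb2, hb3⟩ := h2 x hxD
        apply hb2
        rw [mem_cols]
        exact ⟨y, hy, by rw [← h5 y hy hyD, ← hxy, h4 x hxD, hb3]⟩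
    · by_cases hyD : y ∈ D
      · exfalso
        obtain ⟨b, hb1, hb2, hb3⟩ := h2 y hyD
        apply hb2
        rw [mem_cols]
        exact ⟨x, hx, by rw [← h5 x hx hxD, hxy, h4 y hyD, hb3]⟩
      · have hx' := Ex.mem_cls.1 hx
        have hy' := Ex.mem_cls.1 hy
        refine hinj x hx'.1 y hy'.1 (hx'.2.trans hy'.2.symm) ?_ ?_
        · rw [← h5 x hx hxD, ← h5 y hy hyD, hxy]
        · rw [← h5 x hx hxD]; exact hne
  have heag : ∀ (D : Finset V) (g : V → Option (Fin c)) (i j : Fin 3), D ⊆ a.cls j →
      (∀ x ∈ D, ∃ b, b ∉ P i ∧ b ∉ cols t (a.cls j) ∧ g x = some b) →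
      ((∀ b, b ∈ P i ∨ b ∈ cols t (a.cls j) ∨ ∃ x ∈ D, g x = some b) ∨
        ∀ x ∈ a.cls j, t x = none → x ∈ D) → (∀ x ∈ D, t' x = g x) →
      (∀ b, b ∈ P i ∪ cols t' (a.cls j)) ∨ ∀ x ∈ a.cls j, t' x ≠ none := by
    intro D g i j h1 h2 h3 h4
    rcases h3 with h3 | h3
    · left
      intro b
      rw [mem_union]
      rcases h3 b with h | h | ⟨x, hx, hg⟩
      · exact Or.inl h
      · right
        rw [mem_cols] at h ⊢
        obtain ⟨x, hx, hxt⟩ := h
        exact ⟨x, hx, by rw [hext x (by rw [hxt]; simp), hxt]⟩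
      · right
        rw [mem_cols]
        exact ⟨x, h1 hx, by rw [h4 x hx, hg]⟩
    · right
      intro x hx
      by_cases hn : t x = none
      · obtain ⟨b, -, -, hb⟩ := h2 x (h3 x hx hn)
        rw [h4 x (h3 x hx hn), hb]
        simp
      · rw [hext x hn]; exact hn
  refine ⟨t', hext, ?_, ?_, ?_, ?_⟩
  · intro x b hx hb
    by_cases h1 : x ∈ D
    · left
      obtain ⟨b', hb1, -, hb3⟩ := d3 x h1
      rw [tD x h1, hb3] at hb
      have : b' = b := Option.some.inj hb
      subst this
      exact ⟨d1 h1, (d2 x h1).2.1, hb1, (d2 x h1).2.2⟩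
    · by_cases h2 : x ∈ D'
      · right
        obtain ⟨b', hb1, -, hb3⟩ := e3 x h2
        rw [tD' x h2, hb3] at hb
        have : b' = b := Option.some.inj hb
        subst this
        exact ⟨e1 h2, (e2 x h2).2.1, hb1, hdeep x _ (e2 x h2).2.2⟩
      · rw [tn x h1 h2, hx] at hb
        exact absurd hb (by simp)
  · intro x hx y hy hxy htt hne
    by_cases hj : a.lab x = j
    · refine hinjc D g i j d1 d3 d4 tD ?_ x (Ex.mem_cls.2 ⟨hx, hj⟩) y
        (Ex.mem_cls.2 ⟨hy, hxy.symm.trans hj⟩) htt hne
      intro z hz hzD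
      apply tn z hzD
      intro hzD'
      exact hwf.1 ((Ex.mem_cls.1 (e1 hzD')).2.symm.trans (Ex.mem_cls.1 hz).2)
    · by_cases hi : a.lab x = i
      · refine hinjc D' g' j i e1 e3 e4 tD' ?_ x (Ex.mem_cls.2 ⟨hx, hi⟩) y
          (Ex.mem_cls.2 ⟨hy, hxy.symm.trans hi⟩) htt hne
        intro z hz hzD
        apply tn z _ hzD
        intro hzD'
        exact hwf.1 ((Ex.mem_cls.1 hz).2.symm.trans (Ex.mem_cls.1 (d1 hzD')).2)
      · have key : ∀ z, z ∈ a.verts → a.lab z = a.lab x → t' z = t z := by
          intro z hz hzx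
          apply tn
          · intro h; exact hj (hzx.symm.trans (Ex.mem_cls.1 (d1 h)).2)
          · intro h; exact hi (hzx.symm.trans (Ex.mem_cls.1 (e1 h)).2)
        rw [key x hx rfl, key y hy hxy.symm] at htt
        rw [key x hx rfl] at hne
        exact hinj x hx y hy hxy htt hne
  · intro hne
    exact heag D g i j d1 d3 (d5 hne) tD
  · intro hne
    exact heag D' g' j i e1 e3 (e5 hne) tD'

/-- A state of the process. -/
structure St (V : Type) (c : ℕ) where
  e : Ex V
  P : Fin 3 → Finset (Fin c)
  t : V → Option (Fin c)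

/-- the steps of the process along a path of the expression tree -/
inductive Step {c : ℕ} : St V c → St V c → Prop
  | unionL (a b : Ex V) (P : Fin 3 → Finset (Fin c)) (t : V → Option (Fin c)) :
      Step ⟨Ex.union a b, P, t⟩ ⟨a, P, t⟩
  | unionR (a b : Ex V) (P : Fin 3 → Finset (Fin c)) (t : V → Option (Fin c)) :
      Step ⟨Ex.union a b, P, t⟩ ⟨b, P, t⟩
  | relabel (i j : Fin 3) (a : Ex V) (P : Fin 3 → Finset (Fin c)) (t : V → Option (Fin c)) :
      Step ⟨Ex.relabel i j a, P, t⟩ ⟨a, fun q => if q = i then P j else P q, t⟩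
  | join (i j : Fin 3) (a : Ex V) (P : Fin 3 → Finset (Fin c)) (t t' : V → Option (Fin c))
      (h : JoinOK i j a P t t') : Step ⟨Ex.join i j a, P, t⟩ ⟨a, joinP i j a P t', t'⟩

/-- A path of the process from the state `s` to the leaf `v`, compatible with the final colouring
`col`. -/
def HasPath {c : ℕ} (s : St V c) (col : V → Option (Fin c)) (v : V) : Prop :=
  ∃ (N : ℕ) (σ : ℕ → St V c), σ 0 = s ∧ (∀ n < N, Step (σ n) (σ (n + 1))) ∧
    (∀ n ≤ N, v ∈ (σ n).e.verts) ∧ (∃ i, (σ N).e = Ex.leaf v i) ∧
    ∀ n ≤ N, ∀ x ∈ (σ n).e.verts, (σ n).t x ≠ none → col x = (σ n).t x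

theorem HasPath.cons {c : ℕ} {s s' : St V c} {col : V → Option (Fin c)} {v : V}
    (h : HasPath s' col v) (hs : Step s s') (hv : v ∈ s.e.verts)
    (hc : ∀ x ∈ s.e.verts, s.t x ≠ none → col x = s.t x) : HasPath s col v := by
  obtain ⟨N, σ, h0, h1, h2, h3, h4⟩ := h
  refine ⟨N + 1, fun n => Nat.casesOn n s σ, rfl, ?_, ?_, h3, ?_⟩
  · intro n hn
    rcases n with _ | n
    · show Step s (σ 0)
      rw [h0]; exact hs
    · exact h1 n (by omega)
  · intro n hn
    rcases n with _ | n
    · exact hv
    · exact h2 n (by omega)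
  · intro n hn
    rcases n with _ | n
    · exact hc
    · exact h4 n (by omega)

theorem exists_col {c : ℕ} (e : Ex V) (he : e.wf) : ∀ (P : Fin 3 → Finset (Fin c))
    (t : V → Option (Fin c)), Inj e t → ∃ col : V → Option (Fin c),
    (∀ x ∈ e.verts, t x ≠ none → col x = t x) ∧ ∀ v ∈ e.verts, HasPath ⟨e, P, t⟩ col v := by
  classical
  induction e with
  | leaf u i =>
    intro P t hinj
    refine ⟨t, fun _ _ _ => rfl, ?_⟩
    intro v hv
    have hvu : v = u := by simpa [Ex.verts] using hv
    subst hvu
    refine ⟨0, fun _ => ⟨Ex.leaf v i, P, t⟩, rfl, fun n hn => absurd hn (Nat.not_lt_zero n), ?_,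
      ⟨i, rfl⟩, fun _ _ _ _ _ => rfl⟩
    intro n _
    exact hv
  | union a b iha ihb =>
    intro P t hinj
    obtain ⟨wa, wb, wd⟩ := he
    have ia : Inj a t := by
      intro x hx y hy hxy
      apply hinj x (mem_union_left _ hx) y (mem_union_left _ hy)
      simp only [Ex.lab, hx, hy, if_true]
      exact hxy
    have ib : Inj b t := by
      intro x hx y hy hxy
      apply hinj x (mem_union_right _ hx) y (mem_union_right _ hy)
      have h1 := disjoint_right.1 wd hx
      have h2 := disjoint_right.1 wd hy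
      simp only [Ex.lab, h1, h2, if_false]
      exact hxy
    obtain ⟨ca, ha1, ha2⟩ := iha wa P t ia
    obtain ⟨cb, hb1, hb2⟩ := ihb wb P t ib
    have hcol : ∀ x ∈ (Ex.union a b).verts, t x ≠ none →
        (if x ∈ a.verts then ca x else cb x) = t x := by
      intro x hx ht
      by_cases h : x ∈ a.verts
      · rw [if_pos h]; exact ha1 x h ht
      · rw [if_neg h]
        rcases mem_union.1 hx with h' | h'
        · exact absurd h' h
        · exact hb1 x h' ht
    refine ⟨fun x => if x ∈ a.verts then ca x else cb x, hcol, ?_⟩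
    -- change of the final colouring
    have hchange : ∀ (d : Ex V) (s : St V c) (c1 c2 : V → Option (Fin c)) (v : V), s.e = d →
        (∀ x ∈ d.verts, c1 x = c2 x) → HasPath s c1 v → HasPath s c2 v := by
      rintro d s c1 c2 v hd hc ⟨N, σ, h0, h1, h2, h3, h4⟩
      refine ⟨N, σ, h0, h1, h2, h3, ?_⟩
      intro n hn x hx ht
      rw [← h4 n hn x hx ht]
      symm
      apply hc
      have hmono : ∀ m ≤ N, (σ m).e.verts ⊆ d.verts := by
        intro m
        induction m with
        | zero => intro _; rw [h0, hd]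
        | succ m ih =>
          intro hm
          refine Subset.trans ?_ (ih (by omega))
          have := h1 m (by omega)
          generalize σ m = s1 at this
          generalize σ (m + 1) = s2 at this
          cases this with
          | unionL a b P t => exact subset_union_left
          | unionR a b P t => exact subset_union_right
          | relabel i j a P t => exact Subset.refl _
          | join i j a P t t' h => exact Subset.refl _
      exact hmono n hn hx
    intro v hv
    rcases mem_union.1 hv with h | h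
    · refine HasPath.cons (hchange a _ ca _ v rfl ?_ (ha2 v h)) (Step.unionL a b P t) hv hcol
      intro x hx
      simp only [hx, if_true]
    · refine HasPath.cons (hchange b _ cb _ v rfl ?_ (hb2 v h)) (Step.unionR a b P t) hv hcol
      intro x hx
      have := disjoint_right.1 wd hx
      simp only [this, if_false]
  | join i j a ih =>
    intro P t hinj
    obtain ⟨t', ht'⟩ := exists_join i j a he P t hinj
    obtain ⟨col, h1, h2⟩ := ih he.2 (joinP i j a P t') t' ht'.inj
    have hcol : ∀ x ∈ (Ex.join i j a).verts, t x ≠ none → col x = t x := by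
      intro x hx ht
      rw [h1 x hx (by rw [ht'.ext x ht]; exact ht), ht'.ext x ht]
    refine ⟨col, hcol, ?_⟩
    intro v hv
    exact HasPath.cons (h2 v hv) (Step.join i j a P t t' ht') hv hcol
  | relabel i j a ih =>
    intro P t hinj
    obtain ⟨col, h1, h2⟩ := ih he (fun q => if q = i then P j else P q) t (by
      intro x hx y hy hxy
      apply hinj x hx y hy
      simp only [Ex.lab, hxy])
    exact ⟨col, h1, fun v hv => HasPath.cons (h2 v hv) (Step.relabel i j a P t) hv h1⟩

end Pool.Agent.V11122.Dom3
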