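import Mathlib
import Pool.Agent.V11122.Dom3Ex

set_option autoImplicit false

/-! The colouring theorem for clique-width 3. -/

namespace Pool.Agent.V11122.Dom3

open Finset

variable {V : Type} [DecidableEq V]

theorem mem_joinP {c : ℕ} {i j : Fin 3} (hij : i ≠ j) {a : Ex V} {P : Fin 3 → Finset (Fin c)}
    {t' : V → Option (Fin c)} : joinP i j a P t' i = P i ∪ cols t' (a.cls j) ∧
      joinP i j a P t' j = P j ∪ cols t' (a.cls i) ∧
      ∀ q, q ≠ i → q ≠ j → joinP i j a P t' q = P q := by
  refine ⟨by simp [joinP], by simp [joinP, hij.symm], ?_⟩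
  intro q h1 h2
  simp [joinP, h1, h2]

theorem step_sub {c : ℕ} {s s' : St V c} (h : Step s s') : Ex.Sub s'.e s.e := by
  cases h with
  | unionL a b P t => exact Ex.Sub.unionL _ (Ex.Sub.refl _)
  | unionR a b P t => exact Ex.Sub.unionR _ (Ex.Sub.refl _)
  | relabel i j a P t => exact Ex.Sub.relabel _ _ (Ex.Sub.refl _)
  | join i j a P t t' h => exact Ex.Sub.join _ _ (Ex.Sub.refl _)

theorem step_wf {c : ℕ} {s s' : St V c} (h : Step s s') (hw : s.e.wf) : s'.e.wf := by
  cases h with
  | unionL a b P t => exact hw.1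
  | unionR a b P t => exact hw.2.1
  | relabel i j a P t => exact hw
  | join i j a P t t' h => exact hw.2

theorem step_lab {c : ℕ} {s s' : St V c} (h : Step s s') (hw : s.e.wf) :
    ∀ x ∈ s'.e.verts, ∀ y ∈ s'.e.verts, s'.e.lab x = s'.e.lab y → s.e.lab x = s.e.lab y := by
  cases h with
  | unionL a b P t =>
    intro x hx y hy hxy
    have hx' : x ∈ a.verts := hx
    have hy' : y ∈ a.verts := hy
    simp only [Ex.lab, hx', hy', if_true]
    exact hxy
  | unionR a b P t =>
    intro x hx y hy hxy
    have h1 : x ∉ a.verts := disjoint_right.1 hw.2.2 hx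
    have h2 : y ∉ a.verts := disjoint_right.1 hw.2.2 hy
    simp only [Ex.lab, h1, h2, if_false]
    exact hxy
  | relabel i j a P t =>
    intro x hx y hy hxy
    have hxy' : a.lab x = a.lab y := hxy
    simp only [Ex.lab, hxy']
  | join i j a P t t' h =>
    intro x hx y hy hxy
    exact hxy

theorem step_P {c : ℕ} {s s' : St V c} (h : Step s s') (hw : s.e.wf) :
    ∀ x ∈ s'.e.verts, s.P (s.e.lab x) ⊆ s'.P (s'.e.lab x) := by
  cases h with
  | unionL a b P t =>
    intro x hx
    have hx' : x ∈ a.verts := hx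
    simp only [Ex.lab, hx', if_true]
    exact Subset.refl _
  | unionR a b P t =>
    intro x hx
    have h1 : x ∉ a.verts := disjoint_right.1 hw.2.2 hx
    simp only [Ex.lab, h1, if_false]
    exact Subset.refl _
  | relabel i j a P t =>
    intro x hx
    show P (if a.lab x = i then j else a.lab x) ⊆ if a.lab x = i then P j else P (a.lab x)
    by_cases h : a.lab x = i
    · rw [if_pos h, if_pos h]
    · rw [if_neg h, if_neg h]
  | join i j a P t t' h =>
    intro x hx
    show P (a.lab x) ⊆ joinP i j a P t' (a.lab x)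
    obtain ⟨h1, h2, h3⟩ := mem_joinP (c := c) hw.1 (a := a) (P := P) (t' := t')
    by_cases hi : a.lab x = i
    · rw [hi, h1]; exact subset_union_left
    · by_cases hj : a.lab x = j
      · rw [hj, h2]; exact subset_union_left
      · rw [h3 _ hi hj]

theorem step_t {c : ℕ} {s s' : St V c} (h : Step s s') :
    ∀ x, s.t x ≠ none → s'.t x = s.t x := by
  cases h with
  | unionL a b P t => intro x _; rfl
  | unionR a b P t => intro x _; rfl
  | relabel i j a P t => intro x _; rfl
  | join i j a P t t' h => exact h.ext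

theorem step_inj {c : ℕ} {s s' : St V c} (h : Step s s') (hw : s.e.wf) (hi : Inj s.e s.t) :
    Inj s'.e s'.t := by
  have hl := step_lab h hw
  have hv := (step_sub h).verts
  cases h with
  | unionL a b P t =>
    intro x hx y hy hxy
    exact hi x (hv hx) y (hv hy) (hl x hx y hy hxy)
  | unionR a b P t =>
    intro x hx y hy hxy
    exact hi x (hv hx) y (hv hy) (hl x hx y hy hxy)
  | relabel i j a P t =>
    intro x hx y hy hxy
    exact hi x (hv hx) y (hv hy) (hl x hx y hy hxy)
  | join i j a P t t' h => exact h.inj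

theorem step_adj {c : ℕ} {s s' : St V c} (h : Step s s') (hw : s.e.wf) {v y : V}
    (hv : v ∈ s'.e.verts) (ha : s.e.adj v y) : s'.e.adj v y ∨ s.e.seen v y := by
  cases h with
  | unionL a b P t =>
    rcases ha with ha | ha
    · exact Or.inl ha
    · exact absurd (b.adj_mem ha).1 (disjoint_left.1 hw.2.2 hv)
  | unionR a b P t =>
    rcases ha with ha | ha
    · exact absurd (a.adj_mem ha).1 (disjoint_right.1 hw.2.2 hv)
    · exact Or.inl ha
  | relabel i j a P t => exact Or.inl ha
  | join i j a P t t' h => exact ha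

theorem step_adj' {c : ℕ} {s s' : St V c} (h : Step s s') {v y : V} (ha : s'.e.adj v y) :
    s.e.adj v y := by
  cases h with
  | unionL a b P t => exact Or.inl ha
  | unionR a b P t => exact Or.inr ha
  | relabel i j a P t => exact ha
  | join i j a P t t' h => exact Or.inl ha

theorem seen_adj {e : Ex V} {v y : V} (h : e.seen v y) : e.adj v y := by
  cases e with
  | leaf _ _ => exact h
  | union _ _ => exact h.elim
  | relabel _ _ _ => exact h.elim
  | join i j a => exact Or.inr h

/-- what happens at a step in which `v` sees `y` -/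
theorem step_seen {c : ℕ} {s s' : St V c} (h : Step s s') (hw : s.e.wf) {v y : V}
    (hs : s.e.seen v y) : y ∈ s.e.verts ∧ s'.e.verts = s.e.verts ∧ s'.e.lab = s.e.lab ∧
    (s'.P (s.e.lab v) = univ ∨ ∀ z ∈ s.e.verts, s.e.lab z = s.e.lab y → s'.t z ≠ none) ∧
    (∀ a, s'.t y = some a → a ∈ s'.P (s.e.lab v)) := by
  cases h with
  | unionL a b P t => exact hs.elim
  | unionR a b P t => exact hs.elim
  | relabel i j a P t => exact hs.elim
  | join i j a P t t' h =>
    obtain ⟨hv, hy, hl⟩ := hs
    obtain ⟨h1, h2, h3⟩ := mem_joinP (c := c) hw.1 (a := a) (P := P) (t' := t')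
    refine ⟨hy, rfl, rfl, ?_, ?_⟩
    · show joinP i j a P t' (a.lab v) = univ ∨ ∀ z ∈ a.verts, a.lab z = a.lab y → t' z ≠ none
      rcases hl with ⟨l1, l2⟩ | ⟨l1, l2⟩
      · rw [l1, l2, h1]
        rcases h.eagi ⟨v, Ex.mem_cls.2 ⟨hv, l1⟩⟩ with h4 | h4
        · left; ext b; simp only [mem_univ, iff_true]; exact h4 b
        · right; intro z hz hzl; exact h4 z (Ex.mem_cls.2 ⟨hz, hzl⟩)
      · rw [l1, l2, h2]
        rcases h.eagj ⟨v, Ex.mem_cls.2 ⟨hv, l1⟩⟩ with h4 | h4
        · left; ext b; simp only [mem_univ, iff_true]; exact h4 b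
        · right; intro z hz hzl; exact h4 z (Ex.mem_cls.2 ⟨hz, hzl⟩)
    · intro b hb
      show b ∈ joinP i j a P t' (a.lab v)
      rcases hl with ⟨l1, l2⟩ | ⟨l1, l2⟩
      · rw [l1, h1]
        exact mem_union_right _ (mem_cols.2 ⟨y, Ex.mem_cls.2 ⟨hy, l2⟩, hb⟩)
      · rw [l1, h2]
        exact mem_union_right _ (mem_cols.2 ⟨y, Ex.mem_cls.2 ⟨hy, l2⟩, hb⟩)

theorem step_seen' {e : Ex V} (hw : e.wf) {v y y' : V}
    (hs : e.seen v y) (hs' : e.seen v y') : e.lab y = e.lab y' := by
  cases e with
  | leaf _ _ => exact hs.elim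
  | union _ _ => exact hs.elim
  | relabel _ _ _ => exact hs.elim
  | join i j a =>
    obtain ⟨_, _, h1⟩ := hs
    obtain ⟨_, _, h2⟩ := hs'
    show a.lab y = a.lab y'
    rcases h1 with ⟨h1, h3⟩ | ⟨h1, h3⟩ <;> rcases h2 with ⟨h2, h4⟩ | ⟨h2, h4⟩
    · rw [h3, h4]
    · exact absurd (h1.symm.trans h2) hw.1
    · exact absurd (h2.symm.trans h1) hw.1
    · rw [h3, h4]

/-- what happens at a step in which the token of `x` is created -/
theorem step_new {c : ℕ} {s s' : St V c} (h : Step s s') (hw : s.e.wf) {v x : V}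
    (hv : v ∈ s.e.verts) (hx : x ∈ s'.e.verts) {b : Fin c} (h0 : s.t x = none)
    (h1 : s'.t x = some b) : s'.e.verts = s.e.verts ∧ s'.e.lab = s.e.lab ∧ ∃ i, i ≠ s.e.lab x ∧
      (∃ z ∈ s.e.verts, s.e.lab z = i) ∧ b ∉ s.P i ∧ b ∈ s'.P i ∧ (i = s.e.lab v ↔ s.e.seen v x) ∧
      (s'.P (s.e.lab x) = univ ∨ ∀ z ∈ s.e.verts, s.e.lab z = i → s'.t z ≠ none) ∧
      Ex.Deep c x (s.e.cls (s.e.lab x)) s.e := by
  cases h with
  | unionL a b P t => simp only at h0 h1; rw [h0] at h1; simp at h1
  | unionR a b P t => simp only at h0 h1; rw [h0] at h1; simp at h1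
  | relabel i j a P t => simp only at h0 h1; rw [h0] at h1; simp at h1
  | join i j a P t t' h =>
    obtain ⟨p1, p2, p3⟩ := mem_joinP (c := c) hw.1 (a := a) (P := P) (t' := t')
    refine ⟨rfl, rfl, ?_⟩
    simp only at hv hx h0 h1
    rcases h.newj x b h0 h1 with ⟨hj, ⟨z, hz⟩, hb, hd⟩ | ⟨hj, ⟨z, hz⟩, hb, hd⟩
    · rw [Ex.mem_cls] at hj hz
      have hlx : (Ex.join i j a).lab x = j := hj.2
      refine ⟨i, by rw [hlx]; exact hw.1, ⟨z, hz.1, hz.2⟩, hb, ?_, ?_, ?_, ?_⟩
      · show b ∈ joinP i j a P t' i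
        rw [p1]
        exact mem_union_right _ (mem_cols.2 ⟨x, Ex.mem_cls.2 hj, h1⟩)
      · constructor
        · intro hi
          exact ⟨hv, hj.1, Or.inl ⟨hi.symm, hj.2⟩⟩
        · rintro ⟨_, _, hl | hl⟩
          · exact hl.1.symm
          · exact absurd (hl.2.symm.trans hj.2) hw.1
      · show joinP i j a P t' ((Ex.join i j a).lab x) = univ ∨ _
        rw [hlx, p2]
        rcases h.eagj ⟨x, Ex.mem_cls.2 hj⟩ with h4 | h4
        · left; ext b; simp only [mem_univ, iff_true]; exact h4 b
        · right; intro z hz hzl; exact h4 z (Ex.mem_cls.2 ⟨hz, hzl⟩)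
      · show Ex.Deep c x ((Ex.join i j a).cls ((Ex.join i j a).lab x)) _
        rw [hlx]
        exact hd
    · rw [Ex.mem_cls] at hj hz
      have hlx : (Ex.join i j a).lab x = i := hj.2
      refine ⟨j, by rw [hlx]; exact hw.1.symm, ⟨z, hz.1, hz.2⟩, hb, ?_, ?_, ?_, ?_⟩
      · show b ∈ joinP i j a P t' j
        rw [p2]
        exact mem_union_right _ (mem_cols.2 ⟨x, Ex.mem_cls.2 hj, h1⟩)
      · constructor
        · intro hi
          exact ⟨hv, hj.1, Or.inr ⟨hi.symm, hj.2⟩⟩
        · rintro ⟨_, _, hl | hl⟩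
          · exact absurd (hj.2.symm.trans hl.2) hw.1
          · exact hl.1.symm
      · show joinP i j a P t' ((Ex.join i j a).lab x) = univ ∨ _
        rw [hlx, p1]
        rcases h.eagi ⟨x, Ex.mem_cls.2 hj⟩ with h4 | h4
        · left; ext b; simp only [mem_univ, iff_true]; exact h4 b
        · right; intro z hz hzl; exact h4 z (Ex.mem_cls.2 ⟨hz, hzl⟩)
      · show Ex.Deep c x ((Ex.join i j a).cls ((Ex.join i j a).lab x)) _
        rw [hlx]
        exact hd

/-- A vertex of large degree is saturated at some point. -/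
theorem saturated {c : ℕ} (e : Ex V) (he : e.wf) (P : Fin 3 → Finset (Fin c)) (hP : ∀ q, P q = ∅)
    (col : V → Option (Fin c)) (v : V) (hpath : HasPath ⟨e, P, fun _ => none⟩ col v)
    (F : Finset V) (hF : ∀ y ∈ F, e.adj v y) (hcard : 26 * c ^ 2 + 12 * c < F.card) :
    ∀ b : Fin c, ∃ y, e.adj v y ∧ col y = some b := by
  classical
  obtain ⟨N, σ, h0, h1, h2, ⟨i0, h3⟩, h4⟩ := hpath
  have hwf : ∀ n ≤ N, (σ n).e.wf := by
    intro n
    induction n with
    | zero => intro _; rw [h0]; exact he
    | succ n ih => intro hn; exact step_wf (h1 n (by omega)) (ih (by omega))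
  have hinj : ∀ n ≤ N, Inj (σ n).e (σ n).t := by
    intro n
    induction n with
    | zero =>
      intro _; rw [h0]
      intro x _ y _ _ _ hne
      exact absurd rfl hne
    | succ n ih => intro hn; exact step_inj (h1 n (by omega)) (hwf n (by omega)) (ih (by omega))
  have hsub : ∀ n m, n ≤ m → m ≤ N → Ex.Sub (σ m).e (σ n).e := by
    intro n m h
    induction m, h using Nat.le_induction with
    | base => intro _; exact Ex.Sub.refl _
    | succ k hk ih =>
      intro hk2
      exact (step_sub (h1 k (by omega))).trans (ih (by omega))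
  have hadj' : ∀ n ≤ N, ∀ y, (σ n).e.adj v y → e.adj v y := by
    intro n
    induction n with
    | zero => intro _ y hy; rw [h0] at hy; exact hy
    | succ n ih => intro hn y hy; exact ih (by omega) y (step_adj' (h1 n (by omega)) hy)
  -- promised colours are present
  have hPcol : ∀ n ≤ N, ∀ b ∈ (σ n).P ((σ n).e.lab v), ∃ y, e.adj v y ∧ col y = some b := by
    intro n
    induction n with
    | zero => intro _ b hb; rw [h0] at hb; simp [hP] at hb
    | succ n ih =>
      intro hn b hb
      have hst := h1 n (by omega)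
      have hw := hwf n (by omega)
      have hvn := h2 (n + 1) hn
      have hcoln := h4 (n + 1) hn
      have hadn : ∀ y, (σ n).e.adj v y → e.adj v y := hadj' n (by omega)
      have ihn := ih (by omega)
      revert hst hw hvn hcoln hadn ihn hb
      generalize σ n = s
      generalize σ (n + 1) = s'
      intro hb hst hw hvn hcoln hadn ihn
      cases hst with
      | unionL a b' P t =>
        apply ihn
        have hx' : v ∈ a.verts := hvn
        simp only [Ex.lab, hx', if_true]
        exact hb
      | unionR a b' P t =>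
        apply ihn
        have h1 : v ∉ a.verts := disjoint_right.1 hw.2.2 hvn
        simp only [Ex.lab, h1, if_false]
        exact hb
      | relabel i j a P t =>
        apply ihn
        show b ∈ P (if a.lab v = i then j else a.lab v)
        have hb' : b ∈ if a.lab v = i then P j else P (a.lab v) := hb
        by_cases h : a.lab v = i
        · rw [if_pos h] at hb' ⊢; exact hb'
        · rw [if_neg h] at hb' ⊢; exact hb'
      | join i j a P t t' h =>
        have hb' : b ∈ joinP i j a P t' (a.lab v) := hb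
        have hcoln' : ∀ x ∈ a.verts, t' x ≠ none → col x = t' x := hcoln
        have hvn' : v ∈ a.verts := hvn
        obtain ⟨p1, p2, p3⟩ := mem_joinP (c := c) hw.1 (a := a) (P := P) (t' := t')
        by_cases hi : a.lab v = i
        · rw [hi, p1, mem_union] at hb'
          rcases hb' with hb' | hb'
          · apply ihn
            show b ∈ P (a.lab v)
            rw [hi]; exact hb'
          · obtain ⟨x, hx, hxt⟩ := mem_cols.1 hb'
            rw [Ex.mem_cls] at hx
            refine ⟨x, hadn x (Or.inr ⟨hvn', hx.1, Or.inl ⟨hi, hx.2⟩⟩), ?_⟩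
            rw [hcoln' x hx.1 (by rw [hxt]; simp), hxt]
        · by_cases hj : a.lab v = j
          · rw [hj, p2, mem_union] at hb'
            rcases hb' with hb' | hb'
            · apply ihn
              show b ∈ P (a.lab v)
              rw [hj]; exact hb'
            · obtain ⟨x, hx, hxt⟩ := mem_cols.1 hb'
              rw [Ex.mem_cls] at hx
              refine ⟨x, hadn x (Or.inr ⟨hvn', hx.1, Or.inr ⟨hj, hx.2⟩⟩), ?_⟩
              rw [hcoln' x hx.1 (by rw [hxt]; simp), hxt]
          · rw [p3 _ hi hj] at hb'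
            exact ihn b hb'
  -- all neighbours are seen
  have hseen : ∀ y, e.adj v y → ∃ n < N, (σ n).e.seen v y := by
    intro y hy
    by_contra hcon
    push Not at hcon
    have : ∀ n ≤ N, (σ n).e.adj v y := by
      intro n
      induction n with
      | zero => intro _; rw [h0]; exact hy
      | succ n ih =>
        intro hn
        rcases step_adj (h1 n (by omega)) (hwf n (by omega)) (h2 (n + 1) hn) (ih (by omega)) with h | h
        · exact h
        · exact absurd h (hcon n (by omega))
    have := this N le_rfl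
    rw [h3] at this
    exact this
  -- the trace
  let T : Trace V c :=
    { v := v
      N := N
      X := fun n => (σ n).e.verts
      lab := fun n => (σ n).e.lab
      P := fun n => (σ n).P
      t := fun n => (σ n).t
      seen := fun n y => (σ n).e.seen v y
      hX := fun n hn => (step_sub (h1 n hn)).verts
      hv := h2
      hlab := fun n hn => step_lab (h1 n hn) (hwf n hn.le)
      hP := fun n hn => step_P (h1 n hn) (hwf n hn.le)
      ht := fun n hn => step_t (h1 n hn)
      ht0 := fun x _ => by simp only [h0]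
      hinj := fun n hn => hinj n hn
      hseen := fun n hn y hy => step_seen (h1 n hn) (hwf n hn.le) hy
      hseen' := fun n hn y y' hy hy' => step_seen' (hwf n hn.le) hy hy'
      hnew := fun n hn x hx b hb0 hb1 => by
        obtain ⟨a1, a2, i, a3, a4, a5, a6, a7, a8, a9⟩ :=
          step_new (h1 n hn) (hwf n hn.le) (h2 n hn.le) hx hb0 hb1
        refine ⟨a1, a2, i, a3, a4, a5, a6, a7, a8, ?_⟩
        intro m hnm hm hxm hcard q hq
        exact a9 (σ m).e (hsub n m hnm hm) hxm hcard q hq }
  by_contra hcon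
  push Not at hcon
  obtain ⟨b, hb⟩ := hcon
  have := T.card_NS F (by
    intro y hy
    obtain ⟨n, hn, hs⟩ := hseen y (hF y hy)
    refine ⟨n, hn, hs, ?_⟩
    intro hu
    have e1 : (σ (n + 1)).e.lab = (σ n).e.lab :=
      (step_seen (h1 n hn) (hwf n hn.le) hs).2.2.1
    have : b ∈ (σ (n + 1)).P ((σ (n + 1)).e.lab v) := by
      rw [e1]
      have hu' : (σ (n + 1)).P ((σ n).e.lab v) = univ := hu
      rw [hu']
      exact mem_univ _
    obtain ⟨y, hy1, hy2⟩ := hPcol (n + 1) hn b this
    exact hb y hy1 hy2)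
  omega

/-- The colouring theorem for expressions with three labels. -/
theorem exists_coloring {c : ℕ} (hc : 0 < c) (e : Ex V) (he : e.wf)
    (hdeg : ∀ v ∈ e.verts, ∃ F : Finset V, (∀ y ∈ F, e.adj v y) ∧ 26 * c ^ 2 + 12 * c < F.card) :
    ∃ f : V → Fin c, ∀ v ∈ e.verts, ∀ b, ∃ y, e.adj v y ∧ f y = b := by
  obtain ⟨col, -, h2⟩ := exists_col e he (fun _ => (∅ : Finset (Fin c))) (fun _ => none)
    (fun _ _ _ _ _ _ h => absurd rfl h)
  refine ⟨fun x => (col x).getD ⟨0, hc⟩, ?_⟩
  intro v hv b
  obtain ⟨F, hF, hcard⟩ := hdeg v hv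
  obtain ⟨y, hy, hyb⟩ := saturated e he _ (fun _ => rfl) col v (h2 v hv) F hF hcard b
  exact ⟨y, hy, by simp [hyb]⟩

end Pool.Agent.V11122.Dom3
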