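import Mathlib
import Pool.Agent.V11122.Dom3Main
import Pool.Agent.V11122.CwBasic

set_option autoImplicit false

/-! From clique-width constructions to expressions. -/

namespace Pool.Agent.V11122.Dom3

open Pool.Agent.H175R2

theorem toEx {W : Type} {G : SimpleGraph W} {l : W → Fin 3} (h : CwBuilt 3 W G l) :
    ∀ (U : Type) [DecidableEq U] (f : W → U), Function.Injective f → ∃ e : Ex U, e.wf ∧
      (∀ u, u ∈ e.verts ↔ ∃ x, f x = u) ∧ (∀ x, e.lab (f x) = l x) ∧
      ∀ x y, e.adj (f x) (f y) ↔ G.Adj x y := by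
  induction h with
  | single i =>
    intro U _ f hf
    refine ⟨Ex.leaf (f ()) i, trivial, ?_, fun _ => rfl, ?_⟩
    · intro u
      simp only [Ex.verts, Finset.mem_singleton]
      constructor
      · intro h; exact ⟨(), h.symm⟩
      · rintro ⟨x, rfl⟩; rfl
    · intro x y
      simp [Ex.adj]
  | union V W G H l m _ _ ih1 ih2 =>
    intro U _ f hf
    obtain ⟨e1, w1, v1, l1, a1⟩ := ih1 U (f ∘ Sum.inl) (hf.comp Sum.inl_injective)
    obtain ⟨e2, w2, v2, l2, a2⟩ := ih2 U (f ∘ Sum.inr) (hf.comp Sum.inr_injective)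
    have hd : Disjoint e1.verts e2.verts := by
      rw [Finset.disjoint_left]
      intro u h1 h2
      obtain ⟨x, hx⟩ := (v1 u).1 h1
      obtain ⟨y, hy⟩ := (v2 u).1 h2
      have : (Sum.inl x : V ⊕ W) = Sum.inr y := hf (hx.trans hy.symm)
      exact absurd this (by simp)
    have n1 : ∀ y, f (Sum.inr y) ∉ e1.verts := fun y hy =>
      Finset.disjoint_left.1 hd hy ((v2 _).2 ⟨y, rfl⟩)
    have n2 : ∀ x, f (Sum.inl x) ∉ e2.verts := fun x hx =>
      Finset.disjoint_left.1 hd ((v1 _).2 ⟨x, rfl⟩) hx
    refine ⟨Ex.union e1 e2, ⟨w1, w2, hd⟩, ?_, ?_, ?_⟩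
    · intro u
      simp only [Ex.verts, Finset.mem_union, v1, v2]
      constructor
      · rintro (⟨x, hx⟩ | ⟨x, hx⟩)
        · exact ⟨_, hx⟩
        · exact ⟨_, hx⟩
      · rintro ⟨x | x, hx⟩
        · exact Or.inl ⟨x, hx⟩
        · exact Or.inr ⟨x, hx⟩
    · rintro (x | x)
      · have : f (Sum.inl x) ∈ e1.verts := (v1 _).2 ⟨x, rfl⟩
        simp only [Ex.lab, this, if_true]
        exact l1 x
      · simp only [Ex.lab, n1 x, if_false]
        exact l2 x
    · rintro (x | x) (y | y)
      · simp only [Ex.adj, SimpleGraph.sum_adj]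
        constructor
        · rintro (h | h)
          · exact (a1 x y).1 h
          · exact absurd (e2.adj_mem h).1 (n2 x)
        · intro h; exact Or.inl ((a1 x y).2 h)
      · simp only [Ex.adj, SimpleGraph.sum_adj, iff_false]
        rintro (h | h)
        · exact absurd (e1.adj_mem h).2 (n1 y)
        · exact absurd (e2.adj_mem h).1 (n2 x)
      · simp only [Ex.adj, SimpleGraph.sum_adj, iff_false]
        rintro (h | h)
        · exact absurd (e1.adj_mem h).1 (n1 x)
        · exact absurd (e2.adj_mem h).2 (n2 y)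
      · simp only [Ex.adj, SimpleGraph.sum_adj]
        constructor
        · rintro (h | h)
          · exact absurd (e1.adj_mem h).1 (n1 x)
          · exact (a2 x y).1 h
        · intro h; exact Or.inr ((a2 x y).2 h)
  | join V G l i j hij _ ih =>
    intro U _ f hf
    obtain ⟨e, w, v, hl, ha⟩ := ih U f hf
    refine ⟨Ex.join i j e, ⟨hij, w⟩, v, hl, ?_⟩
    intro x y
    have hx : f x ∈ e.verts := (v _).2 ⟨x, rfl⟩
    have hy : f y ∈ e.verts := (v _).2 ⟨y, rfl⟩
    simp only [Ex.adj, Ex.seen, SimpleGraph.sup_adj, SimpleGraph.fromRel_adj, ha, hx, hy, hl,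
      true_and]
    constructor
    · rintro (h | h)
      · exact Or.inl h
      · right
        refine ⟨?_, ?_⟩
        · rintro rfl
          rcases h with h | h
          · exact hij (h.1.symm.trans h.2)
          · exact hij (h.2.symm.trans h.1)
        · rcases h with h | h
          · exact Or.inl h
          · exact Or.inr ⟨h.2, h.1⟩
    · rintro (h | ⟨_, h⟩)
      · exact Or.inl h
      · right
        rcases h with h | h
        · exact Or.inl h
        · exact Or.inr ⟨h.2, h.1⟩
  | relabel V G l i j _ ih =>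
    intro U _ f hf
    obtain ⟨e, w, v, hl, ha⟩ := ih U f hf
    refine ⟨Ex.relabel i j e, w, v, ?_, ha⟩
    intro x
    simp only [Ex.lab, hl]

theorem CwBuilt_mono {k k' : ℕ} (hk : k ≤ k') {W : Type} {G : SimpleGraph W} {l : W → Fin k}
    (h : CwBuilt k W G l) : CwBuilt k' W G (fun v => Fin.castLE hk (l v)) := by
  induction h with
  | single i => exact CwBuilt.single _
  | union V W G H l m _ _ ih1 ih2 =>
    have := CwBuilt.union V W G H _ _ ih1 ih2
    have e : (fun v => Fin.castLE hk (Sum.elim l m v)) =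
        Sum.elim (fun v => Fin.castLE hk (l v)) (fun v => Fin.castLE hk (m v)) := by
      funext v
      rcases v with v | v <;> rfl
    rw [e]
    exact this
  | join V G l i j hij _ ih =>
    have := CwBuilt.join V G _ (Fin.castLE hk i) (Fin.castLE hk j)
      (fun h => hij (Fin.castLE_injective hk h)) ih
    have e : (SimpleGraph.fromRel (fun u v => l u = i ∧ l v = j) : SimpleGraph V) =
        SimpleGraph.fromRel (fun u v => Fin.castLE hk (l u) = Fin.castLE hk i ∧
          Fin.castLE hk (l v) = Fin.castLE hk j) := by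
      ext u v
      simp only [SimpleGraph.fromRel_adj, (Fin.castLE_injective hk).eq_iff]
    rw [e]
    exact this
  | relabel V G l i j _ ih =>
    have := CwBuilt.relabel V G _ (Fin.castLE hk i) (Fin.castLE hk j) ih
    have e : (fun v => Fin.castLE hk (if l v = i then j else l v)) =
        (fun v => if Fin.castLE hk (l v) = Fin.castLE hk i then Fin.castLE hk j
          else Fin.castLE hk (l v)) := by
      funext v
      by_cases h : l v = i
      · simp [h]
      · have : ¬ Fin.castLE hk (l v) = Fin.castLE hk i := fun h' => h (Fin.castLE_injective hk h')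
        simp [h]
    rw [e]
    exact this

theorem cwLE_mono {V : Type} {G : SimpleGraph V} {k k' : ℕ} (hk : k ≤ k') (h : CwLE G k) :
    CwLE G k' := by
  obtain ⟨W, G', l, hb, hi⟩ := h
  exact ⟨W, G', _, CwBuilt_mono hk hb, hi⟩

/-- The positive part: graphs of clique-width at most 3. -/
theorem coloring_of_cw {V : Type} [Finite V] [Nonempty V] (G : SimpleGraph V)
    (hcw : cliqueWidth G ≤ 3) {c : ℕ} (hc : 0 < c)
    (hdeg : ∀ v, 26 * c ^ 2 + 12 * c < (G.neighborSet v).ncard) :
    ∃ f : V → Fin c, ∀ i v, ∃ w, f w = i ∧ G.Adj v w := by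
  classical
  obtain ⟨W, G', l, hb, ⟨iso⟩⟩ := cwLE_mono hcw (cwLE_cliqueWidth G)
  obtain ⟨e, w, hv, hl, ha⟩ := toEx hb V iso.symm iso.symm.injective
  have hadj : ∀ x y : V, e.adj x y ↔ G.Adj x y := by
    intro x y
    have := ha (iso x) (iso y)
    rw [iso.map_adj_iff] at this
    simpa using this
  have hmem : ∀ x : V, x ∈ e.verts := fun x => (hv x).2 ⟨iso x, by simp⟩
  obtain ⟨f, hf⟩ := exists_coloring hc e w (by
    intro v _
    have hfin : (G.neighborSet v).Finite := Set.toFinite _
    refine ⟨hfin.toFinset, ?_, ?_⟩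
    · intro y hy
      rw [Set.Finite.mem_toFinset] at hy
      exact (hadj v y).2 hy
    · rw [← Set.ncard_eq_toFinset_card _ hfin]
      exact hdeg v)
  refine ⟨f, ?_⟩
  intro i v
  obtain ⟨y, h1, h2⟩ := hf v (hmem v) i
  exact ⟨y, h2, (hadj v y).1 h1⟩

end Pool.Agent.V11122.Dom3
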