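import Mathlib
import Pool.Agent.H175R2.Defs

set_option autoImplicit false

/-! Graphs of clique-width at most 4, large minimum degree and domatic number at most 3. -/

namespace Pool.Agent.V11122.Dom4

open Pool.Agent.H175R2 SimpleGraph

/-- Labels: 0 path vertices, 1 roots, 2 auxiliary, 3 finished. -/
structure Good (δ h m : ℕ) (V : Type) (G : SimpleGraph V) (l : V → Fin 4) : Prop where
  fin : Finite V
  built : CwBuilt 4 V G l
  two : ∀ v, l v ≠ 2
  roots : m ≤ {v | l v = 1}.ncard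
  paths : δ ≤ {v | l v = 0}.ncard
  deg3 : ∀ v, l v = 3 → δ ≤ (G.neighborSet v).ncard
  deg1 : ∀ v, l v = 1 → δ ≤ (G.neighborSet v).ncard
  deg0 : ∀ v, l v = 0 → h ≤ (G.neighborSet v).ncard
  col : ∀ (c : V → Fin 4) (α β : Fin 4), α ≠ β →
    (∀ v, l v = 3 → ∀ i, ∃ w, c w = i ∧ (w = v ∨ G.Adj v w)) →
    (∃ v, l v = 1 ∧ (c v = α ∨ c v = β)) →
    ∃ v, l v = 0 ∧ ∀ w, G.Adj v w → (c w = α ∨ c w = β)

theorem ncard_le_of_inj {V W : Type} [Finite W] {G : SimpleGraph V} {H : SimpleGraph W}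
    (f : V → W) (hf : Function.Injective f) {v : V} {u : W} (h : ∀ w, G.Adj v w → H.Adj u (f w)) :
    (G.neighborSet v).ncard ≤ (H.neighborSet u).ncard := by
  rw [← Set.ncard_image_of_injective _ hf]
  apply Set.ncard_le_ncard _ (Set.toFinite _)
  rintro _ ⟨w, hw, rfl⟩
  exact h w hw

theorem Good.union {δ h m1 m2 : ℕ} {V W : Type} {G : SimpleGraph V} {H : SimpleGraph W}
    {l : V → Fin 4} {m : W → Fin 4} (h1 : Good δ h m1 V G l) (h2 : Good δ h m2 W H m) :
    Good δ h (m1 + m2) (V ⊕ W) (G ⊕g H) (Sum.elim l m) := by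
  haveI := h1.fin
  haveI := h2.fin
  have dl : ∀ v : V, (G.neighborSet v).ncard ≤ ((G ⊕g H).neighborSet (Sum.inl v)).ncard :=
    fun v => ncard_le_of_inj Sum.inl Sum.inl_injective (fun w hw => by simpa using hw)
  have dr : ∀ v : W, (H.neighborSet v).ncard ≤ ((G ⊕g H).neighborSet (Sum.inr v)).ncard :=
    fun v => ncard_le_of_inj Sum.inr Sum.inr_injective (fun w hw => by simpa using hw)
  refine ⟨inferInstance, CwBuilt.union _ _ _ _ _ _ h1.built h2.built, ?_, ?_, ?_, ?_, ?_, ?_, ?_⟩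
  · rintro (v | v)
    · exact h1.two v
    · exact h2.two v
  · have e : {v | Sum.elim l m v = 1} = (Sum.inl '' {v | l v = 1}) ∪ (Sum.inr '' {v | m v = 1}) := by
      ext v
      rcases v with v | v <;> simp
    rw [e, Set.ncard_union_eq, Set.ncard_image_of_injective _ Sum.inl_injective,
      Set.ncard_image_of_injective _ Sum.inr_injective]
    · exact Nat.add_le_add h1.roots h2.roots
    · rw [Set.disjoint_left]
      rintro _ ⟨a, _, rfl⟩ ⟨b, _, hb⟩
      exact absurd hb (by simp)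
  · refine h1.paths.trans ?_
    rw [← Set.ncard_image_of_injective {v | l v = 0} (f := (Sum.inl : V → V ⊕ W)) Sum.inl_injective]
    apply Set.ncard_le_ncard _ (Set.toFinite _)
    rintro _ ⟨w, hw, rfl⟩
    exact hw
  · rintro (v | v) hv
    · exact (h1.deg3 v hv).trans (dl v)
    · exact (h2.deg3 v hv).trans (dr v)
  · rintro (v | v) hv
    · exact (h1.deg1 v hv).trans (dl v)
    · exact (h2.deg1 v hv).trans (dr v)
  · rintro (v | v) hv
    · exact (h1.deg0 v hv).trans (dl v)
    · exact (h2.deg0 v hv).trans (dr v)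
  · intro c α β hab hd hr
    obtain ⟨v, hv, hcv⟩ := hr
    rcases v with v | v
    · obtain ⟨u, hu, hu2⟩ := h1.col (fun x => c (Sum.inl x)) α β hab (by
        intro x hx i
        obtain ⟨w, hw, hw2⟩ := hd (Sum.inl x) hx i
        rcases w with w | w
        · refine ⟨w, hw, ?_⟩
          simpa using hw2
        · simp at hw2) ⟨v, hv, hcv⟩
      refine ⟨Sum.inl u, hu, ?_⟩
      rintro (w | w) hw
      · exact hu2 w (by simpa using hw)
      · simp at hw
    · obtain ⟨u, hu, hu2⟩ := h2.col (fun x => c (Sum.inr x)) α β hab (by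
        intro x hx i
        obtain ⟨w, hw, hw2⟩ := hd (Sum.inr x) hx i
        rcases w with w | w
        · simp at hw2
        · refine ⟨w, hw, ?_⟩
          simpa using hw2) ⟨v, hv, hcv⟩
      refine ⟨Sum.inr u, hu, ?_⟩
      rintro (w | w) hw
      · simp at hw
      · exact hu2 w (by simpa using hw)

theorem Good.many {δ h : ℕ} (h1 : ∃ (V : Type) (G : SimpleGraph V) (l : V → Fin 4),
    Good δ h 1 V G l) (n : ℕ) (hn : 1 ≤ n) :
    ∃ (V : Type) (G : SimpleGraph V) (l : V → Fin 4), Good δ h n V G l := by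
  induction n, hn using Nat.le_induction with
  | base => exact h1
  | succ n _ ih =>
    obtain ⟨V, G, l, hg⟩ := ih
    obtain ⟨W, H, m, hg'⟩ := h1
    exact ⟨_, _, _, hg.union hg'⟩

theorem bot_sum_bot {V W : Type} : ((⊥ : SimpleGraph V) ⊕g (⊥ : SimpleGraph W)) = ⊥ := by
  ext u v
  rcases u with u | u <;> rcases v with v | v <;> simp

/-- an edgeless graph with `n ≥ 1` vertices, all labelled `0` -/
theorem exists_indep (n : ℕ) (hn : 1 ≤ n) : ∃ V : Type, Finite V ∧ Nat.card V = n ∧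
    CwBuilt 4 V ⊥ (fun _ => 0) := by
  induction n, hn using Nat.le_induction with
  | base => exact ⟨Unit, inferInstance, by simp, CwBuilt.single 0⟩
  | succ n _ ih =>
    obtain ⟨V, hV, hcard, hb⟩ := ih
    refine ⟨V ⊕ Unit, inferInstance, ?_, ?_⟩
    · rw [Nat.card_sum, hcard]; simp
    · have := CwBuilt.union _ _ _ _ _ _ hb (CwBuilt.single (k := 4) 0)
      rw [bot_sum_bot] at this
      have e : (Sum.elim (fun _ : V => (0 : Fin 4)) (fun _ : Unit => 0)) = fun _ => 0 := by
        funext v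
        rcases v with v | v <;> rfl
      rw [e] at this
      exact this

/-- the star: the root and `δ` path vertices -/
theorem base (δ : ℕ) (hδ : 1 ≤ δ) : ∃ (V : Type) (G : SimpleGraph V) (l : V → Fin 4),
    Good δ 1 1 V G l := by
  obtain ⟨V, hV, hcard, hb⟩ := exists_indep δ hδ
  have b1 := CwBuilt.union _ _ _ _ _ _ hb (CwBuilt.single (k := 4) 1)
  have b2 := CwBuilt.join _ _ _ 0 1 (by decide) b1
  set l : V ⊕ Unit → Fin 4 := Sum.elim (fun _ => 0) (fun _ => 1) with hl
  set G : SimpleGraph (V ⊕ Unit) :=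
    ((⊥ : SimpleGraph V) ⊕g (⊥ : SimpleGraph Unit)) ⊔ SimpleGraph.fromRel
      (fun u v => l u = 0 ∧ l v = 1) with hG
  have a1 : ∀ v : V, G.Adj (Sum.inl v) (Sum.inr ()) := by intro v; simp [hG, hl]
  have a2 : ∀ v w : V, ¬ G.Adj (Sum.inl v) (Sum.inl w) := by intro v w; simp [hG, hl]
  refine ⟨_, G, l, inferInstance, b2, ?_, ?_, ?_, ?_, ?_, ?_, ?_⟩
  · rintro (v | v) <;> simp [hl]
  · rw [Nat.one_le_iff_ne_zero, ← Nat.pos_iff_ne_zero, Set.ncard_pos (Set.toFinite _)]
    exact ⟨Sum.inr (), rfl⟩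
  · have : Set.range (Sum.inl : V → V ⊕ Unit) ⊆ {v | l v = 0} := by
      rintro _ ⟨w, rfl⟩
      rfl
    refine le_trans ?_ (Set.ncard_le_ncard this (Set.toFinite _))
    rw [← Set.image_univ, Set.ncard_image_of_injective _ Sum.inl_injective, Set.ncard_univ, hcard]
  · rintro (v | v) hv <;> simp [hl] at hv
  · rintro (v | v) hv
    · simp [hl] at hv
    · have : Set.range (Sum.inl : V → V ⊕ Unit) ⊆ G.neighborSet (Sum.inr v) := by
        rintro _ ⟨w, rfl⟩
        exact (a1 w).symm
      refine le_trans ?_ (Set.ncard_le_ncard this (Set.toFinite _))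
      rw [← Set.image_univ, Set.ncard_image_of_injective _ Sum.inl_injective, Set.ncard_univ, hcard]
  · rintro (v | v) hv
    · rw [Nat.one_le_iff_ne_zero, ← Nat.pos_iff_ne_zero, Set.ncard_pos (Set.toFinite _)]
      exact ⟨_, a1 v⟩
    · simp [hl] at hv
  · intro c α β hab _ hr
    obtain ⟨v, hv, hcv⟩ := hr
    rcases v with v | v
    · simp [hl] at hv
    · have hne : Nonempty V := by
        rw [← Finite.card_pos_iff, hcard]; omega
      obtain ⟨u⟩ := hne
      refine ⟨Sum.inl u, rfl, ?_⟩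
      rintro (w | w) hw
      · exact absurd hw (a2 u w)
      · exact hcv

/-- one more level of the tree -/
theorem step {δ h : ℕ} (hδ : 1 ≤ δ) (hg : ∃ (V : Type) (G : SimpleGraph V) (l : V → Fin 4),
    Good δ h δ V G l) : ∃ (V : Type) (G : SimpleGraph V) (l : V → Fin 4),
    Good δ (h + 1) 1 V G l := by
  obtain ⟨V, G, l, hg⟩ := hg
  haveI := hg.fin
  have b1 := CwBuilt.union _ _ _ _ _ _ hg.built (CwBuilt.single (k := 4) 2)
  have b2 := CwBuilt.join _ _ _ 1 2 (by decide) b1
  have b3 := CwBuilt.relabel _ _ _ 1 3 b2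
  have b4 := CwBuilt.relabel _ _ _ 2 3 b3
  have b5 := CwBuilt.union _ _ _ _ _ _ b4 (CwBuilt.single (k := 4) 1)
  have b6 := CwBuilt.join _ _ _ 0 1 (by decide) b5
  revert b6
  generalize hl4 : Sum.elim (fun v : V ⊕ Unit =>
      if (if Sum.elim l (fun _ => 2) v = 1 then (3 : Fin 4) else Sum.elim l (fun _ => 2) v) = 2
        then 3 else if Sum.elim l (fun _ => 2) v = 1 then 3 else Sum.elim l (fun _ => 2) v)
      (fun _ : Unit => (1 : Fin 4)) = l4
  intro b6
  revert b6
  generalize hG4 : (((G ⊕g (⊥ : SimpleGraph Unit)) ⊔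
      SimpleGraph.fromRel fun u v => Sum.elim l (fun _ => 2) u = 1 ∧ Sum.elim l (fun _ => 2) v = 2) ⊕g
      (⊥ : SimpleGraph Unit)) ⊔ SimpleGraph.fromRel (fun u v => l4 u = 0 ∧ l4 v = 1) = G4
  intro b6
  -- labels
  have lab : ∀ v : V, l4 (Sum.inl (Sum.inl v)) = if l v = 1 then 3 else l v := by
    intro v
    rw [← hl4]
    have := hg.two v
    by_cases h1 : l v = 1
    · simp [h1]
    · simp [h1, this]
  have labs : l4 (Sum.inl (Sum.inr ())) = 3 := by rw [← hl4]; simp
  have labx : l4 (Sum.inr ()) = 1 := by rw [← hl4]; rfl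
  have lab1 : ∀ v : V, l4 (Sum.inl (Sum.inl v)) ≠ 1 := by
    intro v
    rw [lab]
    by_cases h1 : l v = 1
    · simp [h1]
    · simp [h1]
  have lab0 : ∀ v : V, l4 (Sum.inl (Sum.inl v)) = 0 ↔ l v = 0 := by
    intro v
    rw [lab]
    by_cases h1 : l v = 1
    · simp [h1]
    · simp [h1]
  -- adjacency
  have avv : ∀ v w : V, G4.Adj (Sum.inl (Sum.inl v)) (Sum.inl (Sum.inl w)) ↔ G.Adj v w := by
    intro v w
    rw [← hG4]
    have h1 := lab1 v
    have h2 := lab1 w
    have h3 := hg.two v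
    have h4 := hg.two w
    simp [h1, h2, h3, h4]
  have avs : ∀ v : V, G4.Adj (Sum.inl (Sum.inl v)) (Sum.inl (Sum.inr ())) ↔ l v = 1 := by
    intro v
    rw [← hG4]
    have h1 := lab1 v
    have h3 := hg.two v
    simp [h1, h3, labs]
  have avx : ∀ v : V, G4.Adj (Sum.inl (Sum.inl v)) (Sum.inr ()) ↔ l v = 0 := by
    intro v
    rw [← hG4]
    have h1 := lab1 v
    simp [h1, lab0 v, labx]
  have asx : ¬ G4.Adj (Sum.inl (Sum.inr ())) (Sum.inr ()) := by
    rw [← hG4]
    simp [labs, labx]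
  have dl : ∀ v : V, (G.neighborSet v).ncard ≤ (G4.neighborSet (Sum.inl (Sum.inl v))).ncard :=
    fun v => ncard_le_of_inj (fun x => Sum.inl (Sum.inl x))
      (Sum.inl_injective.comp Sum.inl_injective) (fun w hw => (avv v w).2 hw)
  have hinj : Function.Injective (fun x : V => (Sum.inl (Sum.inl x) : (V ⊕ Unit) ⊕ Unit)) :=
    Sum.inl_injective.comp Sum.inl_injective
  have paths : ∀ S : Set ((V ⊕ Unit) ⊕ Unit), (∀ v, l v = 0 → Sum.inl (Sum.inl v) ∈ S) →
      δ ≤ S.ncard := by
    intro S hS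
    refine hg.paths.trans ?_
    rw [← Set.ncard_image_of_injective {v | l v = 0} hinj]
    apply Set.ncard_le_ncard _ (Set.toFinite _)
    rintro _ ⟨w, hw, rfl⟩
    exact hS w hw
  refine ⟨_, G4, l4, inferInstance, b6, ?_, ?_, ?_, ?_, ?_, ?_, ?_⟩
  · rintro ((v | v) | v)
    · rw [lab]
      have := hg.two v
      by_cases h1 : l v = 1
      · simp [h1]
      · simp [h1, this]
    · rw [labs]; decide
    · rw [labx]; decide
  · rw [Nat.one_le_iff_ne_zero, ← Nat.pos_iff_ne_zero, Set.ncard_pos (Set.toFinite _)]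
    exact ⟨Sum.inr (), labx⟩
  · exact paths _ (fun v hv => (lab0 v).2 hv)
  · rintro ((v | v) | v) hv
    · refine le_trans ?_ (dl v)
      rw [lab] at hv
      by_cases h1 : l v = 1
      · exact hg.deg1 v h1
      · rw [if_neg h1] at hv
        exact hg.deg3 v hv
    · refine hg.roots.trans ?_
      rw [← Set.ncard_image_of_injective {v | l v = 1} (f := fun x : V => (Sum.inl (Sum.inl x) :
        (V ⊕ Unit) ⊕ Unit)) (Sum.inl_injective.comp Sum.inl_injective)]
      apply Set.ncard_le_ncard _ (Set.toFinite _)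
      rintro _ ⟨w, hw, rfl⟩
      exact ((avs w).2 hw).symm
    · rw [labx] at hv; exact absurd hv (by decide)
  · rintro ((v | v) | v) hv
    · exact absurd hv (lab1 v)
    · rw [labs] at hv; exact absurd hv (by decide)
    · exact paths _ (fun v hv => ((avx v).2 hv).symm)
  · rintro ((v | v) | v) hv
    · rw [lab0] at hv
      have h1 := hg.deg0 v hv
      have h2 : insert (Sum.inr ()) ((fun x : V => (Sum.inl (Sum.inl x) : (V ⊕ Unit) ⊕ Unit)) ''
          (G.neighborSet v)) ⊆ G4.neighborSet (Sum.inl (Sum.inl v)) := by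
        intro w hw
        rcases hw with rfl | ⟨w, hw, rfl⟩
        · exact (avx v).2 hv
        · exact (avv v w).2 hw
      have h3 := Set.ncard_le_ncard h2 (Set.toFinite _)
      rw [Set.ncard_insert_of_notMem (by simp) (Set.toFinite _),
        Set.ncard_image_of_injective _ hinj] at h3
      omega
    · rw [labs] at hv; exact absurd hv (by decide)
    · rw [labx] at hv; exact absurd hv (by decide)
  · intro c α β hab hd hr
    -- the new root has a colour in `{α, β}`
    have hx : c (Sum.inr ()) = α ∨ c (Sum.inr ()) = β := by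
      obtain ⟨v, hv, hcv⟩ := hr
      rcases v with (v | v) | v
      · exact absurd hv (lab1 v)
      · rw [labs] at hv; exact absurd hv (by decide)
      · exact hcv
    -- an old root has a colour in `{α, β}`
    have hold : ∃ v, l v = 1 ∧ (c (Sum.inl (Sum.inl v)) = α ∨ c (Sum.inl (Sum.inl v)) = β) := by
      have key : ∀ γ, c (Sum.inl (Sum.inr ())) ≠ γ → ∃ v, l v = 1 ∧ c (Sum.inl (Sum.inl v)) = γ := by
        intro γ hγ
        obtain ⟨w, hw, hw2⟩ := hd (Sum.inl (Sum.inr ())) labs γ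
        rcases hw2 with rfl | hw2
        · exact absurd hw hγ
        · rcases w with (w | w) | w
          · exact ⟨w, (avs w).1 hw2.symm, hw⟩
          · exact absurd hw2 (G4.loopless.irrefl _)
          · exact absurd hw2 asx
      by_cases hs : c (Sum.inl (Sum.inr ())) = α
      · obtain ⟨v, hv, hcv⟩ := key β (by rw [hs]; exact hab)
        exact ⟨v, hv, Or.inr hcv⟩
      · obtain ⟨v, hv, hcv⟩ := key α hs
        exact ⟨v, hv, Or.inl hcv⟩
    obtain ⟨u, hu, hu2⟩ := hg.col (fun x => c (Sum.inl (Sum.inl x))) α β hab (by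
      intro v hv i
      have hv' : l4 (Sum.inl (Sum.inl v)) = 3 := by
        rw [lab, hv]; decide
      obtain ⟨w, hw, hw2⟩ := hd _ hv' i
      rcases w with (w | w) | w
      · refine ⟨w, hw, ?_⟩
        rcases hw2 with hw2 | hw2
        · left; simpa using hw2
        · right; exact (avv v w).1 hw2
      · exfalso
        rcases hw2 with hw2 | hw2
        · simp at hw2
        · have := (avs v).1 hw2
          rw [hv] at this
          exact absurd this (by decide)
      · exfalso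
        rcases hw2 with hw2 | hw2
        · simp at hw2
        · have := (avx v).1 hw2
          rw [hv] at this
          exact absurd this (by decide)) hold
    refine ⟨Sum.inl (Sum.inl u), (lab0 u).2 hu, ?_⟩
    rintro ((w | w) | w) hw
    · exact hu2 w ((avv u w).1 hw)
    · exfalso
      have := (avs u).1 hw
      rw [hu] at this
      exact absurd this (by decide)
    · exact hx

/-- Graphs of clique-width at most 4 with large minimum degree that cannot be partitioned into four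
dominating sets. -/
theorem exists_bad (δ : ℕ) (hδ : 1 ≤ δ) : ∃ (V : Type) (G : SimpleGraph V), Finite V ∧ Nonempty V ∧
    CwLE G 4 ∧ (∀ v, δ ≤ (G.neighborSet v).ncard) ∧
    ¬ ∃ f : V → Fin 4, ∀ i v, ∃ w, f w = i ∧ (w = v ∨ G.Adj v w) := by
  have hall : ∀ h, 1 ≤ h → ∃ (V : Type) (G : SimpleGraph V) (l : V → Fin 4),
      Good δ h 1 V G l := by
    intro h hh
    induction h, hh using Nat.le_induction with
    | base => exact base δ hδ
    | succ n _ ih => exact step hδ (Good.many ih δ hδ)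
  obtain ⟨V, G, l, hg⟩ := hall δ hδ
  haveI := hg.fin
  have hroot : ∃ v, l v = 1 := by
    have h1 := hg.roots
    have h2 : {v | l v = 1}.Nonempty := by
      rw [← Set.ncard_pos (Set.toFinite _)]
      omega
    exact h2
  obtain ⟨x, hx⟩ := hroot
  have h4 : ∀ i : Fin 4, i = 0 ∨ i = 1 ∨ i = 2 ∨ i = 3 := by decide
  refine ⟨V, G, hg.fin, ⟨x⟩, ⟨V, G, l, hg.built, ⟨SimpleGraph.Iso.refl⟩⟩, ?_, ?_⟩
  · intro v
    rcases h4 (l v) with h | h | h | h
    · exact hg.deg0 v h
    · exact hg.deg1 v h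
    · exact absurd h (hg.two v)
    · exact hg.deg3 v h
  · rintro ⟨f, hf⟩
    obtain ⟨β, hβ⟩ : ∃ β : Fin 4, f x ≠ β := by
      have : ∀ i : Fin 4, ∃ β : Fin 4, i ≠ β := by decide
      exact this (f x)
    obtain ⟨v, hv, hv2⟩ := hg.col f (f x) β hβ (fun v _ i => hf i v) ⟨x, hx, Or.inl rfl⟩
    obtain ⟨γ, γ', h1, h2, h3, h5, h6⟩ : ∃ γ γ' : Fin 4, γ ≠ γ' ∧ γ ≠ f x ∧ γ ≠ β ∧ γ' ≠ f x ∧
        γ' ≠ β := by
      have : ∀ i j : Fin 4, ∃ γ γ' : Fin 4, γ ≠ γ' ∧ γ ≠ i ∧ γ ≠ j ∧ γ' ≠ i ∧ γ' ≠ j := by decide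
      exact this (f x) β
    have key : ∀ γ : Fin 4, γ ≠ f x → γ ≠ β → f v = γ := by
      intro γ g1 g2
      obtain ⟨w, hw, hw2⟩ := hf γ v
      rcases hw2 with rfl | hw2
      · exact hw
      · rcases hv2 w hw2 with h | h
        · exact absurd (hw.symm.trans h) g1
        · exact absurd (hw.symm.trans h) g2
    exact h1 ((key γ h2 h3).symm.trans (key γ' h5 h6))

end Pool.Agent.V11122.Dom4
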