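import Mathlib

set_option autoImplicit false

/-! Two fixed-point-free involutions can be 2-coloured. -/

namespace Pool.Agent.V11122

theorem conj_zpow_invol {D : Type*} (α β : Equiv.Perm D) (hα : α * α = 1) (hβ : β * β = 1)
    (k : ℤ) : α * (β * α) ^ k = (β * α) ^ (-k) * α := by
  have hα' : α⁻¹ = α := inv_eq_of_mul_eq_one_right hα
  have hβ' : β⁻¹ = β := inv_eq_of_mul_eq_one_right hβ
  have h1 : α * (β * α) * α⁻¹ = (β * α)⁻¹ := by
    rw [mul_inv_rev, hα', hβ', mul_assoc, mul_assoc, hα, mul_one]
  have h2 : α * (β * α) ^ k * α⁻¹ = (β * α) ^ (-k) := by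
    rw [← conj_zpow, h1, inv_zpow, zpow_neg]
  rw [← h2, inv_mul_cancel_right]

/-- Two fixed-point-free involutions have a common proper 2-colouring. -/
theorem two_color {D : Type*} (α β : Equiv.Perm D) (hα : ∀ d, α (α d) = d)
    (hα' : ∀ d, α d ≠ d) (hβ : ∀ d, β (β d) = d) (hβ' : ∀ d, β d ≠ d) :
    ∃ χ : D → Bool, (∀ d, χ (α d) = !χ d) ∧ ∀ d, χ (β d) = !χ d := by
  classical
  have ha : α * α = 1 := Equiv.ext hα
  have hb : β * β = 1 := Equiv.ext hβ
  set σ := β * α with hσ
  have hconj : ∀ (k : ℤ) d, α ((σ ^ k) d) = (σ ^ (-k)) (α d) := by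
    intro k d
    have := congrArg (fun f : Equiv.Perm D => f d) (conj_zpow_invol α β ha hb k)
    simpa [Equiv.Perm.mul_apply] using this
  have K1 : ∀ d e, σ.SameCycle d e → σ.SameCycle (α d) (α e) := by
    rintro d e ⟨k, hk⟩
    refine ⟨-k, ?_⟩
    rw [← hconj, hk]
  have K2 : ∀ d, σ.SameCycle (α d) (β d) := by
    intro d
    refine ⟨1, ?_⟩
    rw [zpow_one, hσ, Equiv.Perm.mul_apply, hα]
  have K3 : ∀ d, ¬ σ.SameCycle d (α d) := by
    rintro d ⟨k, hk⟩
    rcases Int.even_or_odd' k with ⟨j, hj | hj⟩
    · have h1 : (σ ^ j) d = α ((σ ^ j) d) := by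
        rw [hconj, ← hk, hj, ← Equiv.Perm.mul_apply, ← zpow_add]
        congr 2
        ring
      exact hα' _ h1.symm
    · have h1 : σ ((σ ^ j) d) = α ((σ ^ j) d) := by
        rw [hconj, ← hk, hj, ← Equiv.Perm.mul_apply, ← Equiv.Perm.mul_apply, ← zpow_add,
          ← zpow_one_add]
        congr 2
        ring
      rw [hσ, Equiv.Perm.mul_apply] at h1
      exact hβ' _ h1
  let R : Setoid D :=
    { r := fun d e => σ.SameCycle d e ∨ σ.SameCycle (α d) e
      iseqv := by
        refine ⟨fun d => Or.inl (Equiv.Perm.SameCycle.refl _ _), ?_, ?_⟩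
        · rintro d e (h | h)
          · exact Or.inl h.symm
          · have := K1 _ _ h
            rw [hα] at this
            exact Or.inr this.symm
        · rintro d e f (h | h) (h' | h')
          · exact Or.inl (h.trans h')
          · exact Or.inr ((K1 _ _ h).trans h')
          · exact Or.inr (h.trans h')
          · have := K1 _ _ h
            rw [hα] at this
            exact Or.inl (this.trans h') }
  let rep : D → D := fun d => (Quotient.mk R d).out
  have hrep : ∀ d, σ.SameCycle d (rep d) ∨ σ.SameCycle (α d) (rep d) := by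
    intro d
    have h1 : R (rep d) d := Quotient.mk_out d
    exact R.symm h1
  have hrepα : ∀ d, rep (α d) = rep d := by
    intro d
    have : (Quotient.mk R (α d)) = Quotient.mk R d := by
      apply Quotient.sound
      right
      rw [hα]
    show (Quotient.mk R (α d)).out = (Quotient.mk R d).out
    rw [this]
  have hrepβ : ∀ d, rep (β d) = rep d := by
    intro d
    have : (Quotient.mk R (β d)) = Quotient.mk R d := by
      apply Quotient.sound
      right
      have := K1 _ _ (K2 d)
      rw [hα] at this
      exact this.symm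
    show (Quotient.mk R (β d)).out = (Quotient.mk R d).out
    rw [this]
  have key : ∀ d e, σ.SameCycle e (α d) → rep e = rep d →
      decide (σ.SameCycle e (rep e)) = !decide (σ.SameCycle d (rep d)) := by
    intro d e he hr
    rw [hr]
    by_cases h : σ.SameCycle d (rep d)
    · have : ¬ σ.SameCycle e (rep d) := by
        intro h'
        exact K3 d (h.trans (h'.symm.trans he))
      simp [h, this]
    · have : σ.SameCycle e (rep d) := by
        rcases hrep d with h' | h'
        · exact absurd h' h
        · exact he.trans h'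
      simp [h, this]
  exact ⟨fun d => decide (σ.SameCycle d (rep d)),
    fun d => key d (α d) (Equiv.Perm.SameCycle.refl _ _) (hrepα d),
    fun d => key d (β d) (K2 d).symm (hrepβ d)⟩

/-- A fixed-point-free involution `β` and an arbitrary involution `α` have a common 2-colouring. -/
theorem two_color' {D : Type*} (α β : D → D) (hα : ∀ d, α (α d) = d)
    (hβ : ∀ d, β (β d) = d) (hβ' : ∀ d, β d ≠ d) :
    ∃ χ : D → Bool, (∀ d, α d ≠ d → χ (α d) = !χ d) ∧ ∀ d, χ (β d) = !χ d := by
  classical
  let a : D × Bool → D × Bool := fun p => if α p.1 = p.1 then (p.1, !p.2) else (α p.1, p.2)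
  let b : D × Bool → D × Bool := fun p => (β p.1, p.2)
  have ha : ∀ p, a (a p) = p := by
    intro p
    by_cases h : α p.1 = p.1
    · simp [a, h]
    · have h2 : α (α p.1) ≠ α p.1 := by rw [hα]; exact fun h' => h h'.symm
      simp only [a, if_neg h, if_neg h2, hα]
  have ha' : ∀ p, a p ≠ p := by
    intro p
    by_cases h : α p.1 = p.1
    · simp only [a, if_pos h]
      intro h'
      have := congrArg Prod.snd h'
      simp at this
    · simp only [a, if_neg h]
      intro h'
      exact h (congrArg Prod.fst h')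
  have hb : ∀ p, b (b p) = p := by
    intro p; simp [b, hβ]
  have hb' : ∀ p, b p ≠ p := by
    intro p h'
    exact hβ' p.1 (congrArg Prod.fst h')
  obtain ⟨χ, h1, h2⟩ := two_color (⟨a, a, ha, ha⟩ : Equiv.Perm (D × Bool)) ⟨b, b, hb, hb⟩
    ha ha' hb hb'
  refine ⟨fun d => χ (d, false), ?_, ?_⟩
  · intro d hd
    have := h1 (d, false)
    simp only [Equiv.coe_fn_mk, a, if_neg hd] at this
    exact this
  · intro d
    exact h2 (d, false)

end Pool.Agent.V11122
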