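import Mathlib

/-!
# A tree whose irregularity strength is far from the degree-count bound

The tree has 301 vertices `0, …, 300`. The vertices `0, …, 198` form a heap (the parent of `i` is
`(i - 1) / 2`), and the vertices `199, …, 300` form a path attached to `0`.
-/

set_option autoImplicit false

namespace Pool.Agent.V11122.IrrTree

open Finset

/-- The sum of distinct natural numbers. -/
lemma sum_distinct (k : ℕ) : ∀ A : Finset ℕ, A.card = k → k * (k - 1) ≤ 2 * ∑ x ∈ A, x := by
  induction k with
  | zero => intro A _; simp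
  | succ k ih =>
    intro A h
    have hne : A.Nonempty := by rw [← card_pos]; omega
    have hm : A.max' hne ∈ A := A.max'_mem hne
    generalize hmm : A.max' hne = m at hm
    have hk : (A.erase m).card = k := by rw [card_erase_of_mem hm, h]; rfl
    have h1 := ih (A.erase m) hk
    have h2 : ∑ x ∈ A, x = m + ∑ x ∈ A.erase m, x := (add_sum_erase A _ hm).symm
    have h3 : k + 1 ≤ m + 1 := by
      have : A ⊆ range (m + 1) := fun x hx =>
        mem_range.2 (Nat.lt_succ_of_le (hmm ▸ A.le_max' x hx))
      have := card_le_card this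
      rw [card_range, h] at this
      exact this
    rw [h2]
    cases k with
    | zero => simp
    | succ k =>
      simp only [Nat.add_sub_cancel] at *
      nlinarith

lemma sum_inj {ι : Type*} (I : Finset ι) (f : ι → ℕ) (hf : Set.InjOn f I) :
    I.card * (I.card - 1) ≤ 2 * ∑ i ∈ I, f i := by
  classical
  have h := sum_distinct _ (I.image f) rfl
  rw [card_image_of_injOn hf, sum_image hf] at h
  exact h

lemma sum_pairs (g : ℕ → ℕ) (n : ℕ) :
    ∑ i ∈ range n, (g (2 * i) + g (2 * i + 1)) = ∑ j ∈ range (2 * n), g j := by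
  induction n with
  | zero => simp
  | succ n ih =>
    rw [sum_range_succ, ih, show 2 * (n + 1) = 2 * n + 1 + 1 by ring, sum_range_succ,
      sum_range_succ]
    ring

/-- The counting argument. -/
theorem core (f a : ℕ → ℕ) (hinj : Set.InjOn f (range 301 : Finset ℕ))
    (h1 : ∀ i < 301, 1 ≤ f i) (h2 : ∀ i, 99 ≤ i → i < 301 → f i ≤ 204)
    (hleaf : ∀ i, 99 ≤ i → i < 199 → f i = a i)
    (hint : ∀ i < 99, f i = a i + a (2 * i + 1) + a (2 * i + 2))
    (ha : ∀ i < 199, a i ≤ 102) : False := by
  -- at most two of the vertices of degree three have a small sum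
  set B := (range 99).filter (fun i => f i ≤ 204) with hB
  have hBc : B.card ≤ 2 := by
    have hsub : ∀ i ∈ Ico 99 301 ∪ B, i < 301 := by
      intro i hi
      rcases mem_union.1 hi with hi | hi
      · exact (mem_Ico.1 hi).2
      · have := mem_range.1 (mem_filter.1 hi).1
        omega
    have hle : (Ico 99 301 ∪ B).card ≤ (Icc 1 204).card := by
      apply card_le_card_of_injOn f
      · intro i hi
        have hi' : i ∈ Ico 99 301 ∪ B := hi
        have hlt := hsub i hi'
        refine mem_coe.2 (mem_Icc.2 ⟨h1 i hlt, ?_⟩)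
        rcases mem_union.1 hi' with hi | hi
        · exact h2 i (mem_Ico.1 hi).1 hlt
        · exact (mem_filter.1 hi).2
      · intro i hi j hj hij
        exact hinj (mem_coe.2 (mem_range.2 (hsub i hi))) (mem_coe.2 (mem_range.2 (hsub j hj))) hij
    have hdis : Disjoint (Ico 99 301) B := by
      rw [disjoint_left]
      intro i hi hi'
      have h3 := (mem_Ico.1 hi).1
      have h4 := mem_range.1 (mem_filter.1 hi').1
      omega
    rw [card_union_of_disjoint hdis, Nat.card_Ico, Nat.card_Icc] at hle
    omega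
  set I := (range 99).filter (fun i => ¬ f i ≤ 204) with hI
  have hIc : I.card + B.card = 99 := by
    have := card_filter_add_card_filter_not (s := range 99) (fun i => f i ≤ 204)
    rw [card_range] at this
    rw [add_comm, hI, hB]
    convert this
  have hIle : ∑ i ∈ I, f i ≤ ∑ i ∈ range 99, f i :=
    sum_le_sum_of_subset (filter_subset _ _)
  have hIsum : I.card * (I.card - 1) ≤ 2 * ∑ i ∈ I, (f i - 205) := by
    apply sum_inj
    intro i hi j hj hij
    have hi' := mem_filter.1 (mem_coe.1 hi)
    have hj' := mem_filter.1 (mem_coe.1 hj)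
    have h3 := mem_range.1 hi'.1
    have h4 := mem_range.1 hj'.1
    apply hinj (mem_coe.2 (mem_range.2 (by omega))) (mem_coe.2 (mem_range.2 (by omega)))
    have := hi'.2
    have := hj'.2
    simp only at hij
    omega
  have hIeq : ∑ i ∈ I, (f i - 205) + 205 * I.card = ∑ i ∈ I, f i := by
    rw [mul_comm, ← smul_eq_mul, ← sum_const, ← sum_add_distrib]
    apply sum_congr rfl
    intro i hi
    have := (mem_filter.1 hi).2
    omega
  have hD : 24541 ≤ ∑ i ∈ range 99, f i := by
    have hc1 : 97 ≤ I.card := by omega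
    have hc2 : I.card ≤ 99 := by omega
    generalize I.card = c at *
    interval_cases c <;> omega
  -- the leaves
  have hL : ∑ i ∈ Ico 99 199, a i ≤ 5250 := by
    have h3 : (Ico 99 199).card * ((Ico 99 199).card - 1) ≤ 2 * ∑ i ∈ Ico 99 199, (102 - a i) := by
      apply sum_inj
      intro i hi j hj hij
      have hi' := mem_Ico.1 (mem_coe.1 hi)
      have hj' := mem_Ico.1 (mem_coe.1 hj)
      apply hinj (mem_coe.2 (mem_range.2 (by omega))) (mem_coe.2 (mem_range.2 (by omega)))
      rw [hleaf i hi'.1 hi'.2, hleaf j hj'.1 hj'.2]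
      have := ha i hi'.2
      have := ha j hj'.2
      simp only at hij
      omega
    have h4 : ∑ i ∈ Ico 99 199, (102 - a i) + ∑ i ∈ Ico 99 199, a i = 102 * 100 := by
      rw [← sum_add_distrib]
      have : ∀ i ∈ Ico 99 199, 102 - a i + a i = 102 := by
        intro i hi
        have := ha i (mem_Ico.1 hi).2
        omega
      rw [sum_congr rfl this, sum_const, Nat.card_Ico, smul_eq_mul]
    rw [Nat.card_Ico] at h3
    omega
  -- the sums
  have hsum : ∀ n ≤ 99, ∑ i ∈ range n, f i = ∑ i ∈ range n, a i
      + ∑ j ∈ range (2 * n), a (j + 1) := by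
    intro n hn
    rw [← sum_pairs (fun j => a (j + 1)), ← sum_add_distrib]
    apply sum_congr rfl
    intro i hi
    rw [hint i (by have := mem_range.1 hi; omega)]
    ring
  have e1 := hsum 99 le_rfl
  have e2 := hsum 49 (by norm_num)
  have e3 : ∑ i ∈ range 99, a i = ∑ j ∈ range 98, a (j + 1) + a 0 := sum_range_succ' _ _
  have e4 : ∑ j ∈ range (2 * 99), a (j + 1)
      = ∑ j ∈ range 98, a (j + 1) + ∑ i ∈ Ico 99 199, a i := by
    rw [← sum_range_add_sum_Ico (fun j => a (j + 1)) (show 98 ≤ 2 * 99 by norm_num)]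
    rw [sum_Ico_add' (fun j => a j) 98 (2 * 99) 1]
  have e5 : ∑ i ∈ range 99, a i ≤ ∑ i ∈ range 49, a i + 102 * 50 := by
    rw [← sum_range_add_sum_Ico (fun j => a j) (show 49 ≤ 99 by norm_num)]
    have : ∑ i ∈ Ico 49 99, a i ≤ ∑ i ∈ Ico 49 99, 102 :=
      sum_le_sum (fun i hi => ha i (by have := (mem_Ico.1 hi).2; omega))
    rw [sum_const, Nat.card_Ico, smul_eq_mul] at this
    omega
  have e6 : (range 49).card * ((range 49).card - 1) ≤ 2 * ∑ i ∈ range 49, (306 - f i) := by
    apply sum_inj
    intro i hi j hj hij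
    have hi' := mem_range.1 (mem_coe.1 hi)
    have hj' := mem_range.1 (mem_coe.1 hj)
    apply hinj (mem_coe.2 (mem_range.2 (by omega))) (mem_coe.2 (mem_range.2 (by omega)))
    have hb : ∀ k < 49, f k ≤ 306 := by
      intro k hk
      rw [hint k (by omega)]
      have := ha k (by omega)
      have := ha (2 * k + 1) (by omega)
      have := ha (2 * k + 2) (by omega)
      omega
    have := hb i hi'
    have := hb j hj'
    simp only at hij
    omega
  have e7 : ∑ i ∈ range 49, (306 - f i) + ∑ i ∈ range 49, f i = 306 * 49 := by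
    rw [← sum_add_distrib]
    have : ∀ i ∈ range 49, 306 - f i + f i = 306 := by
      intro i hi
      have hi' := mem_range.1 hi
      rw [hint i (by omega)]
      have := ha i (by omega)
      have := ha (2 * i + 1) (by omega)
      have := ha (2 * i + 2) (by omega)
      omega
    rw [sum_congr rfl this, sum_const, card_range, smul_eq_mul]
  rw [card_range] at e6
  norm_num at e1 e2 e3 e4 e5 e6 e7
  omega

/-! ### The tree -/

/-- The parent of a vertex. -/
def par (i : ℕ) : ℕ := if i < 199 then (i - 1) / 2 else if i = 199 then 0 else i - 1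

/-- The tree. -/
def T : SimpleGraph (Fin 301) where
  Adj i j := (i.val < j.val ∧ par j.val = i.val) ∨ (j.val < i.val ∧ par i.val = j.val)
  symm := ⟨fun i j h => by
    rcases h with h | h
    · exact Or.inr h
    · exact Or.inl h⟩
  loopless := ⟨fun i h => by
    rcases h with h | h
    · exact absurd h.1 (lt_irrefl _)
    · exact absurd h.1 (lt_irrefl _)⟩

instance : DecidableRel T.Adj := fun i j =>
  inferInstanceAs (Decidable ((i.val < j.val ∧ par j.val = i.val) ∨
    (j.val < i.val ∧ par i.val = j.val)))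

lemma adj_iff (i j : Fin 301) : T.Adj i j ↔
    (i.val < j.val ∧ par j.val = i.val) ∨ (j.val < i.val ∧ par i.val = j.val) := Iff.rfl

/-- The neighbour of a heap vertex that is not a child. -/
def up (i : ℕ) : ℕ := if i = 0 then 199 else (i - 1) / 2

lemma nbr_int (i : ℕ) (hi : i < 99) : T.neighborFinset ⟨i, by omega⟩ =
    {⟨up i, by unfold up; split_ifs <;> omega⟩, ⟨2 * i + 1, by omega⟩, ⟨2 * i + 2, by omega⟩} := by
  ext ⟨j, hj⟩
  simp only [SimpleGraph.mem_neighborFinset, adj_iff, mem_insert, mem_singleton, Fin.mk.injEq,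
    par, up]
  split_ifs <;> omega

lemma nbr_leaf (i : ℕ) (h1 : 99 ≤ i) (h2 : i < 199) : T.neighborFinset ⟨i, by omega⟩ =
    {⟨(i - 1) / 2, by omega⟩} := by
  ext ⟨j, hj⟩
  simp only [SimpleGraph.mem_neighborFinset, adj_iff, mem_singleton, Fin.mk.injEq, par]
  split_ifs <;> omega

lemma nbr_path (i : ℕ) (h1 : 199 ≤ i) (h2 : i < 300) : T.neighborFinset ⟨i, by omega⟩ =
    {⟨if i = 199 then 0 else i - 1, by split_ifs <;> omega⟩, ⟨i + 1, by omega⟩} := by
  ext ⟨j, hj⟩
  simp only [SimpleGraph.mem_neighborFinset, adj_iff, mem_insert, mem_singleton, Fin.mk.injEq, par]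
  split_ifs <;> omega

lemma nbr_end : T.neighborFinset ⟨300, by omega⟩ = {⟨299, by omega⟩} := by
  ext ⟨j, hj⟩
  simp only [SimpleGraph.mem_neighborFinset, adj_iff, mem_singleton, Fin.mk.injEq, par]
  split_ifs <;> omega

/-- The degrees. -/
def dg (i : ℕ) : ℕ := if i < 99 then 3 else if i < 199 then 1 else if i < 300 then 2 else 1

lemma degree_eq (v : Fin 301) : T.degree v = dg v.val := by
  obtain ⟨i, hi⟩ := v
  rw [← SimpleGraph.card_neighborFinset_eq_degree]
  simp only [dg]
  by_cases h1 : i < 99
  · rw [if_pos h1, nbr_int i h1, card_eq_three]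
    refine ⟨_, _, _, ?_, ?_, ?_, rfl⟩ <;> simp only [ne_eq, Fin.mk.injEq, up] <;>
      (try split_ifs) <;> omega
  · rw [if_neg h1]
    by_cases h2 : i < 199
    · rw [if_pos h2, nbr_leaf i (by omega) h2, card_singleton]
    · rw [if_neg h2]
      by_cases h3 : i < 300
      · rw [if_pos h3, nbr_path i (by omega) h3]
        apply card_pair
        intro h
        have h' := congrArg Fin.val h
        simp only at h'
        split_ifs at h' <;> omega
      · rw [if_neg h3]
        obtain rfl : i = 300 := by omega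
        rw [nbr_end, card_singleton]

lemma reach (n : ℕ) : ∀ (h : n < 301), T.Reachable ⟨0, by omega⟩ ⟨n, h⟩ := by
  induction n using Nat.strong_induction_on with
  | _ n ih =>
    intro h
    by_cases h0 : n = 0
    · subst h0
      exact SimpleGraph.Reachable.refl _
    · have hp : par n < n := by unfold par; split_ifs <;> omega
      refine (ih (par n) hp (hp.trans h)).trans (SimpleGraph.Adj.reachable ?_)
      exact Or.inl ⟨hp, rfl⟩

lemma isTree : T.IsTree := by
  rw [SimpleGraph.isTree_iff_connected_and_card]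
  constructor
  · rw [SimpleGraph.connected_iff_exists_forall_reachable]
    exact ⟨⟨0, Nat.succ_pos _⟩, fun w => reach w.val w.isLt⟩
  · have h := T.sum_degrees_eq_twice_card_edges
    have h2 : ∑ v : Fin 301, T.degree v = 600 := by
      simp_rw [degree_eq]
      decide +kernel
    rw [h2] at h
    rw [Nat.card_eq_fintype_card, ← SimpleGraph.edgeFinset_card, Nat.card_eq_fintype_card,
      Fintype.card_fin]
    omega

lemma card_deg (i j : ℕ) : Fintype.card {v : Fin 301 // i ≤ T.degree v ∧ T.degree v ≤ j} =
    ((univ : Finset (Fin 301)).filter (fun v => i ≤ dg v.val ∧ dg v.val ≤ j)).card := by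
  rw [Fintype.card_subtype]
  simp_rw [degree_eq]

lemma maxDegree_le : T.maxDegree ≤ 3 := by
  apply SimpleGraph.maxDegree_le_of_forall_degree_le
  intro v
  rw [degree_eq]
  unfold dg
  split_ifs <;> omega

/-- No edge weighting with weights at most `102` has distinct vertex sums. -/
theorem no_weight (w : Fin 301 → Fin 301 → ℕ)
    (hw : ∀ u v : Fin 301, T.Adj u v → 1 ≤ w u v ∧ w u v ≤ 102 ∧ w u v = w v u)
    (hinj : Function.Injective (fun v : Fin 301 => ∑ u ∈ T.neighborFinset v, w v u)) : False := by
  set S : Fin 301 → ℕ := fun v => ∑ u ∈ T.neighborFinset v, w v u with hS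
  have up_lt : ∀ i < 199, up i < 301 := by
    intro i hi; unfold up; split_ifs <;> omega
  let f : ℕ → ℕ := fun i => if h : i < 301 then S ⟨i, h⟩ else 0
  let a : ℕ → ℕ := fun i => if h : i < 199 then w ⟨i, by omega⟩ ⟨up i, up_lt i h⟩ else 0
  have hf : ∀ i (h : i < 301), f i = S ⟨i, h⟩ := fun i h => dif_pos h
  have haa : ∀ i (h : i < 199), a i = w ⟨i, by omega⟩ ⟨up i, up_lt i h⟩ := fun i h => dif_pos h
  have hadj : ∀ i (h : i < 199), T.Adj ⟨i, by omega⟩ ⟨up i, up_lt i h⟩ := by
    intro i h
    rw [adj_iff]
    simp only [par, up]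
    split_ifs <;> omega
  apply core f a
  · intro i hi j hj hij
    have hi' := mem_range.1 (mem_coe.1 hi)
    have hj' := mem_range.1 (mem_coe.1 hj)
    rw [hf i hi', hf j hj'] at hij
    have := hinj hij
    simpa using this
  · intro i hi
    rw [hf i hi]
    have hd : 0 < (T.neighborFinset ⟨i, hi⟩).card := by
      rw [SimpleGraph.card_neighborFinset_eq_degree, degree_eq]
      simp only [dg]
      split_ifs <;> omega
    obtain ⟨u, hu⟩ := card_pos.1 hd
    have h1 := (hw _ _ ((SimpleGraph.mem_neighborFinset _ _ _).1 hu)).1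
    exact h1.trans (single_le_sum (f := fun u => w ⟨i, hi⟩ u) (fun _ _ => Nat.zero_le _) hu)
  · intro i h1 h2
    rw [hf i h2]
    have hd : (T.neighborFinset ⟨i, h2⟩).card ≤ 2 := by
      rw [SimpleGraph.card_neighborFinset_eq_degree, degree_eq]
      simp only [dg]
      split_ifs <;> omega
    have : S ⟨i, h2⟩ ≤ (T.neighborFinset ⟨i, h2⟩).card • 102 :=
      sum_le_card_nsmul _ _ _ (fun u hu => (hw _ _ ((SimpleGraph.mem_neighborFinset _ _ _).1 hu)).2.1)
    rw [smul_eq_mul] at this
    omega
  · intro i h1 h2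
    rw [hf i (by omega), haa i h2]
    simp only [hS]
    rw [nbr_leaf i h1 h2, sum_singleton]
    congr 2
    simp only [up]
    rw [if_neg (by omega)]
  · intro i hi
    have e1 : a (2 * i + 1) = w ⟨i, by omega⟩ ⟨2 * i + 1, by omega⟩ := by
      rw [haa (2 * i + 1) (by omega)]
      have h := hadj (2 * i + 1) (by omega)
      have hu : up (2 * i + 1) = i := by unfold up; rw [if_neg (by omega)]; omega
      rw [(hw _ _ h).2.2]
      congr 2
    have e2 : a (2 * i + 2) = w ⟨i, by omega⟩ ⟨2 * i + 2, by omega⟩ := by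
      rw [haa (2 * i + 2) (by omega)]
      have h := hadj (2 * i + 2) (by omega)
      have hu : up (2 * i + 2) = i := by unfold up; rw [if_neg (by omega)]; omega
      rw [(hw _ _ h).2.2]
      congr 2
    rw [e1, e2, haa i (by omega), hf i (by omega)]
    simp only [hS]
    rw [nbr_int i hi, sum_insert, sum_insert, sum_singleton]
    · ring
    · simp only [mem_singleton, Fin.mk.injEq]; omega
    · simp only [mem_insert, mem_singleton, Fin.mk.injEq, up]
      split_ifs <;> omega
  · intro i hi
    rw [haa i hi]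
    exact (hw _ _ (hadj i hi)).2.1

end Pool.Agent.V11122.IrrTree
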