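import Mathlib

/-!
# Counting classes of fixed point free involutions

Helper lemmas on surfaces that are given by three fixed point free involutions of a finite set of
flags: merging of classes, a parity argument, and an Euler type inequality.
-/

namespace Pool.Agent.V11122.MapG

/-- The relation that links a flag with its images under two maps. -/
def rel2 {Φ : Type} (f g : Φ → Φ) (x y : Φ) : Prop := y = f x ∨ y = g x

/-- One more pair merges at most two classes. -/
theorem merge_one {Φ : Type} [Finite Φ] (R : Φ → Φ → Prop) (x y : Φ) :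
    Nat.card (Quot R) ≤ Nat.card (Quot (fun a b => R a b ∨ (a = x ∧ b = y))) + 1 := by
  classical
  have hwd : ∀ a b, (R a b ∨ (a = x ∧ b = y)) →
      (if Quot.mk R a = Quot.mk R y then Quot.mk R x else Quot.mk R a) =
      (if Quot.mk R b = Quot.mk R y then Quot.mk R x else Quot.mk R b) := by
    rintro a b (hab | ⟨rfl, rfl⟩)
    · have := Quot.sound hab
      rw [this]
    · by_cases h : Quot.mk R a = Quot.mk R b
      · simp [h]
      · simp [h]
  let h : Quot (fun a b => R a b ∨ (a = x ∧ b = y)) → Quot R :=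
    Quot.lift (fun z => if Quot.mk R z = Quot.mk R y then Quot.mk R x else Quot.mk R z) hwd
  let F : Quot R → Option (Quot (fun a b => R a b ∨ (a = x ∧ b = y))) := fun q =>
    if q = Quot.mk R y then none
    else some (Quot.map id (fun a b (hab : R a b) => Or.inl hab) q)
  have hF : Function.Injective F := by
    intro q1 q2 h12
    by_cases h1 : q1 = Quot.mk R y
    · by_cases h2 : q2 = Quot.mk R y
      · rw [h1, h2]
      · simp [F, h1, h2] at h12
    · by_cases h2 : q2 = Quot.mk R y
      · simp [F, h1, h2] at h12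
      · simp only [F, h1, h2, if_false, Option.some.injEq] at h12
        have h3 := congrArg h h12
        induction q1 using Quot.ind with
        | mk a =>
        induction q2 using Quot.ind with
        | mk b =>
        simpa [h, Quot.map, h1, h2] using h3
  calc Nat.card (Quot R) ≤ Nat.card (Option (Quot (fun a b => R a b ∨ (a = x ∧ b = y)))) :=
        Nat.card_le_card_of_injective F hF
    _ = _ := by rw [Finite.card_option]

theorem card_mono {Φ : Type} [Finite Φ] (R R' : Φ → Φ → Prop)
    (h : ∀ a b, R a b → Quot.mk R' a = Quot.mk R' b) :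
    Nat.card (Quot R') ≤ Nat.card (Quot R) := by
  apply Nat.card_le_card_of_surjective (Quot.lift (Quot.mk R') h)
  intro q
  induction q using Quot.ind with
  | mk a => exact ⟨Quot.mk R a, rfl⟩

theorem merge_many {Φ : Type} [Finite Φ] (R : Φ → Φ → Prop) (f : Φ → Φ) (S : Finset Φ) :
    Nat.card (Quot R) ≤ Nat.card (Quot (fun a b => R a b ∨ (a ∈ S ∧ b = f a))) + S.card := by
  classical
  induction S using Finset.induction_on with
  | empty =>
    simp
  | insert x S hx ih =>
    rw [Finset.card_insert_of_notMem hx]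
    have h1 := merge_one (fun a b => R a b ∨ (a ∈ S ∧ b = f a)) x (f x)
    have h2 : Nat.card (Quot (fun a b => (R a b ∨ (a ∈ S ∧ b = f a)) ∨ (a = x ∧ b = f x))) ≤
        Nat.card (Quot (fun a b => R a b ∨ (a ∈ insert x S ∧ b = f a))) := by
      apply card_mono
      rintro a b (h | ⟨h, rfl⟩)
      · exact Quot.sound (Or.inl (Or.inl h))
      · rcases Finset.mem_insert.1 h with rfl | h
        · exact Quot.sound (Or.inr ⟨rfl, rfl⟩)
        · exact Quot.sound (Or.inl (Or.inr ⟨h, rfl⟩))
    omega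

/-- A finite set that is closed under a fixed point free involution has an even number of
elements. -/
theorem even_of_invol {Φ : Type} (S : Finset Φ) (f : Φ → Φ) (hf : ∀ x, f (f x) = x)
    (hf' : ∀ x, f x ≠ x) (hS : ∀ x ∈ S, f x ∈ S) : Even S.card := by
  classical
  have h : ∑ x ∈ S, (1 : ZMod 2) = 0 := by
    apply Finset.sum_involution (fun a _ => f a)
    · intro a _
      decide
    · intro a _ _
      exact hf' a
    · intro a ha
      exact hS a ha
    · intro a _
      exact hf a
  rw [Finset.sum_const, nsmul_eq_mul, mul_one] at h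
  exact (ZMod.natCast_eq_zero_iff_even).1 h

/-- Going around the other way. -/
theorem around {Φ α : Type} [Fintype Φ] (f g : Φ → Φ) (hf : ∀ x, f (f x) = x)
    (hf' : ∀ x, f x ≠ x) (hg : ∀ x, g (g x) = x) (hg' : ∀ x, g x ≠ x) (E : Φ → α)
    (hE : ∀ y, E (g y) = E y) (Z : Set Φ) (Zf : ∀ y ∈ Z, f y ∈ Z) (Zg : ∀ y ∈ Z, g y ∈ Z)
    (x : Φ) (hx : x ∈ Z) (h : ∀ y ∈ Z, y ≠ x → y ≠ f x → E (f y) = E y) : E (f x) = E x := by
  classical
  by_contra hne
  have h1 : Even ((Finset.univ.filter (fun y => y ∈ Z ∧ E y = E x)).card) := by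
    apply even_of_invol _ g hg hg'
    intro y hy
    rw [Finset.mem_filter] at hy ⊢
    exact ⟨Finset.mem_univ _, Zg y hy.2.1, by rw [hE, hy.2.2]⟩
  have h2 : Even (((Finset.univ.filter (fun y => y ∈ Z ∧ E y = E x)).erase x).card) := by
    apply even_of_invol _ f hf hf'
    intro y hy
    rw [Finset.mem_erase, Finset.mem_filter] at hy ⊢
    obtain ⟨hyx, -, hyZ, hyE⟩ := hy
    have hyfx : y ≠ f x := by
      rintro rfl
      exact hne hyE
    refine ⟨?_, Finset.mem_univ _, Zf y hyZ, ?_⟩
    · intro h3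
      apply hyfx
      rw [← h3, hf]
    · rw [h y hyZ hyx hyfx, hyE]
  have hmem : x ∈ (Finset.univ.filter (fun y => y ∈ Z ∧ E y = E x)) := by
    simp [hx]
  rw [Finset.card_erase_of_mem hmem] at h2
  have hpos : 0 < (Finset.univ.filter (fun y => y ∈ Z ∧ E y = E x)).card :=
    Finset.card_pos.2 ⟨x, hmem⟩
  obtain ⟨a, ha⟩ := h1
  obtain ⟨b, hb⟩ := h2
  omega

/-- One representative of every pair of a fixed point free involution. -/
theorem half {Φ : Type} [Finite Φ] (D : Finset Φ) (f : Φ → Φ) (hf : ∀ x, f (f x) = x)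
    (hf' : ∀ x, f x ≠ x) (hD : ∀ x ∈ D, f x ∈ D) :
    ∃ H : Finset Φ, H ⊆ D ∧ 2 * H.card = D.card ∧ ∀ x ∈ D, x ∈ H ∨ f x ∈ H := by
  classical
  obtain ⟨n, ⟨e⟩⟩ := Finite.exists_equiv_fin Φ
  have hcard : (D.filter (fun x => e x < e (f x))).card =
      (D.filter (fun x => ¬ e x < e (f x))).card := by
    apply Finset.card_bij (fun a _ => f a)
    · intro a ha
      rw [Finset.mem_filter] at ha ⊢
      refine ⟨hD a ha.1, ?_⟩
      rw [hf]
      exact not_lt.2 ha.2.le
    · intro a _ b _ hab
      rw [← hf a, ← hf b, hab]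
    · intro b hb
      rw [Finset.mem_filter] at hb
      refine ⟨f b, ?_, hf b⟩
      rw [Finset.mem_filter]
      refine ⟨hD b hb.1, ?_⟩
      rw [hf]
      rcases lt_or_eq_of_le (not_lt.1 hb.2) with h | h
      · exact h
      · exact absurd (e.injective h) (hf' b)
  refine ⟨D.filter (fun x => e x < e (f x)), Finset.filter_subset _ _, ?_, ?_⟩
  · have := Finset.card_filter_add_card_filter_not (s := D) (fun x => e x < e (f x))
    omega
  · intro x hx
    by_cases h : e x < e (f x)
    · left
      simp [hx, h]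
    · right
      rw [Finset.mem_filter]
      refine ⟨hD x hx, ?_⟩
      rw [hf]
      rcases lt_or_eq_of_le (not_lt.1 h) with h | h
      · exact h
      · exact absurd (e.injective h) (hf' x)

/-- Three fixed point free involutions that generate a transitive action. -/
structure IsGem {Φ : Type} (a0 a1 a2 : Φ → Φ) : Prop where
  i0 : ∀ x, a0 (a0 x) = x
  i1 : ∀ x, a1 (a1 x) = x
  i2 : ∀ x, a2 (a2 x) = x
  f0 : ∀ x, a0 x ≠ x
  f1 : ∀ x, a1 x ≠ x
  f2 : ∀ x, a2 x ≠ x
  conn : ∀ U : Set Φ, U.Nonempty → (∀ x ∈ U, a0 x ∈ U) → (∀ x ∈ U, a1 x ∈ U) →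
    (∀ x ∈ U, a2 x ∈ U) → U = Set.univ

theorem IsGem.swap {Φ : Type} {a0 a1 a2 : Φ → Φ} (h : IsGem a0 a1 a2) : IsGem a2 a1 a0 :=
  ⟨h.i2, h.i1, h.i0, h.f2, h.f1, h.f0, fun U hU h0 h1 h2 => h.conn U hU h2 h1 h0⟩

theorem exists_level {Φ : Type} {a0 a1 a2 : Φ → Φ} (h : IsGem a0 a1 a2) (K : Set Φ)
    (hK : K.Nonempty) :
    ∃ L : Φ → ℕ, ∀ x, x ∉ K → L (a0 x) < L x ∨ L (a1 x) < L x ∨ L (a2 x) < L x := by
  classical
  let T : ℕ → Set Φ := fun n => Nat.rec K
    (fun _ S => {x | x ∈ S ∨ a0 x ∈ S ∨ a1 x ∈ S ∨ a2 x ∈ S}) n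
  have hT0 : T 0 = K := rfl
  have hTs : ∀ n, T (n + 1) = {x | x ∈ T n ∨ a0 x ∈ T n ∨ a1 x ∈ T n ∨ a2 x ∈ T n} :=
    fun n => rfl
  have hall : {x | ∃ n, x ∈ T n} = Set.univ := by
    apply h.conn
    · obtain ⟨k, hk⟩ := hK
      exact ⟨k, 0, hk⟩
    · rintro x ⟨n, hn⟩
      refine ⟨n + 1, ?_⟩
      rw [hTs]
      right; left
      rw [h.i0]
      exact hn
    · rintro x ⟨n, hn⟩
      refine ⟨n + 1, ?_⟩
      rw [hTs]
      right; right; left
      rw [h.i1]
      exact hn
    · rintro x ⟨n, hn⟩
      refine ⟨n + 1, ?_⟩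
      rw [hTs]
      right; right; right
      rw [h.i2]
      exact hn
  have hex : ∀ x, ∃ n, x ∈ T n := by
    intro x
    have : x ∈ {x | ∃ n, x ∈ T n} := by rw [hall]; trivial
    exact this
  refine ⟨fun x => sInf {n | x ∈ T n}, ?_⟩
  intro x hx
  have hspec : x ∈ T (sInf {n | x ∈ T n}) := Nat.sInf_mem (hex x)
  have hmin : ∀ m, m < sInf {n | x ∈ T n} → x ∉ T m := fun m hm => Nat.notMem_of_lt_sInf hm
  rcases Nat.eq_zero_or_pos (sInf {n | x ∈ T n}) with h0 | hpos
  · rw [h0] at hspec
    exact absurd hspec hx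
  · obtain ⟨n, hn⟩ := Nat.exists_eq_succ_of_ne_zero hpos.ne'
    rw [hn] at hspec
    have hspec' : x ∈ T n ∨ a0 x ∈ T n ∨ a1 x ∈ T n ∨ a2 x ∈ T n := by
      have := hTs n
      rw [Nat.succ_eq_add_one] at hspec
      rw [this] at hspec
      exact hspec
    have key : ∀ y, y ∈ T n → sInf {n | y ∈ T n} < sInf {n | x ∈ T n} := by
      intro y hy
      have : sInf {n | y ∈ T n} ≤ n := Nat.sInf_le hy
      omega
    rcases hspec' with h1 | h1 | h1 | h1
    · exact absurd h1 (hmin n (by omega))
    · exact Or.inl (key _ h1)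
    · exact Or.inr (Or.inl (key _ h1))
    · exact Or.inr (Or.inr (key _ h1))

theorem mk_left {Φ : Type} (f g : Φ → Φ) (x : Φ) :
    Quot.mk (rel2 f g) (f x) = Quot.mk (rel2 f g) x :=
  (Quot.sound (show rel2 f g x (f x) from Or.inl rfl)).symm

theorem mk_right {Φ : Type} (f g : Φ → Φ) (x : Φ) :
    Quot.mk (rel2 f g) (g x) = Quot.mk (rel2 f g) x :=
  (Quot.sound (show rel2 f g x (g x) from Or.inr rfl)).symm

/-- Level of a class. -/
noncomputable def lev {Φ : Type} (R : Φ → Φ → Prop) (L : Φ → ℕ) (p : Quot R) : ℕ :=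
  sInf (L '' {x | Quot.mk R x = p})

theorem lev_le {Φ : Type} (R : Φ → Φ → Prop) (L : Φ → ℕ) (x : Φ) :
    lev R L (Quot.mk R x) ≤ L x :=
  Nat.sInf_le ⟨x, rfl, rfl⟩

theorem lev_attained {Φ : Type} (R : Φ → Φ → Prop) (L : Φ → ℕ) (p : Quot R) :
    ∃ x, Quot.mk R x = p ∧ L x = lev R L p := by
  have hne : (L '' {x | Quot.mk R x = p}).Nonempty := by
    induction p using Quot.ind with
    | mk a => exact ⟨L a, a, rfl, rfl⟩
  obtain ⟨x, hx, hL⟩ := Nat.sInf_mem hne
  exact ⟨x, hx, hL⟩

/-- The parent corner of a class without chosen flags. -/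
theorem parent {Φ : Type} {a0 a1 a2 : Φ → Φ} (K : Set Φ) (L : Φ → ℕ)
    (hL : ∀ x, x ∉ K → L (a0 x) < L x ∨ L (a1 x) < L x ∨ L (a2 x) < L x)
    (p : Quot (rel2 a1 a2)) (hp : ∀ x ∈ K, Quot.mk (rel2 a1 a2) x ≠ p) :
    ∃ x, Quot.mk (rel2 a1 a2) x = p ∧
      lev (rel2 a1 a0) L (Quot.mk (rel2 a1 a0) x) < lev (rel2 a1 a2) L p := by
  obtain ⟨x, hx, hLx⟩ := lev_attained (rel2 a1 a2) L p
  refine ⟨x, hx, ?_⟩
  have hxK : x ∉ K := fun h => hp x h hx
  rw [← hLx]
  rcases hL x hxK with h | h | h
  · have h1 := lev_le (rel2 a1 a0) L (a0 x)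
    rw [mk_right] at h1
    omega
  · have h1 := lev_le (rel2 a1 a2) L (a1 x)
    rw [mk_left, hx] at h1
    omega
  · have h1 := lev_le (rel2 a1 a2) L (a2 x)
    rw [mk_right, hx] at h1
    omega

/-- The relation of the regions of a set of corners. -/
def relK {Φ : Type} (a0 a1 a2 : Φ → Φ) (K : Finset Φ) (x y : Φ) : Prop :=
  y = a0 x ∨ y = a2 x ∨ (x ∉ K ∧ y = a1 x)

theorem main_ineq {Φ : Type} [Fintype Φ] [DecidableEq Φ] {a0 a1 a2 : Φ → Φ}
    (h : IsGem a0 a1 a2) (K : Finset Φ) (hK : K.Nonempty) (hK1 : ∀ x ∈ K, a1 x ∈ K)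
    [DecidableEq (Quot (rel2 a1 a2))] [DecidableEq (Quot (rel2 a1 a0))] :
    2 * Nat.card (Quot (rel2 a0 a2)) + 2 * Nat.card (Quot (rel2 a1 a2)) +
        2 * Nat.card (Quot (rel2 a1 a0)) + K.card ≤
      2 * Nat.card (Quot (relK a0 a1 a2 K)) + 2 * (K.image (Quot.mk (rel2 a1 a2))).card +
        2 * (K.image (Quot.mk (rel2 a1 a0))).card + Fintype.card Φ := by
  classical
  obtain ⟨L, hL⟩ := exists_level h (K : Set Φ) (by exact_mod_cast hK)
  have : Nonempty Φ := ⟨hK.choose⟩
  let _ : Fintype (Quot (rel2 a1 a2)) := Fintype.ofFinite _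
  let _ : Fintype (Quot (rel2 a1 a0)) := Fintype.ofFinite _
  -- parent corners
  have hP : ∀ p : Quot (rel2 a1 a2), ∃ x, (∀ x ∈ K, Quot.mk (rel2 a1 a2) x ≠ p) →
      Quot.mk (rel2 a1 a2) x = p ∧
      lev (rel2 a1 a0) L (Quot.mk (rel2 a1 a0) x) < lev (rel2 a1 a2) L p := by
    intro p
    by_cases hp : ∀ x ∈ K, Quot.mk (rel2 a1 a2) x ≠ p
    · obtain ⟨x, hx⟩ := parent (a0 := a0) (K : Set Φ) L hL p (by exact_mod_cast hp)
      exact ⟨x, fun _ => hx⟩
    · exact ⟨Classical.arbitrary Φ, fun h => absurd h hp⟩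
  have hN : ∀ p : Quot (rel2 a1 a0), ∃ x, (∀ x ∈ K, Quot.mk (rel2 a1 a0) x ≠ p) →
      Quot.mk (rel2 a1 a0) x = p ∧
      lev (rel2 a1 a2) L (Quot.mk (rel2 a1 a2) x) < lev (rel2 a1 a0) L p := by
    intro p
    by_cases hp : ∀ x ∈ K, Quot.mk (rel2 a1 a0) x ≠ p
    · obtain ⟨x, hx⟩ := parent (a0 := a2) (a1 := a1) (a2 := a0) (K : Set Φ) L
        (fun x hx => by rcases hL x hx with h | h | h <;> tauto) p (by exact_mod_cast hp)
      exact ⟨x, fun _ => hx⟩
    · exact ⟨Classical.arbitrary Φ, fun h => absurd h hp⟩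
  choose rP hrP using hP
  choose rN hrN using hN
  set ZP : Finset (Quot (rel2 a1 a2)) := Finset.univ \ K.image (Quot.mk (rel2 a1 a2)) with hZP
  set ZN : Finset (Quot (rel2 a1 a0)) := Finset.univ \ K.image (Quot.mk (rel2 a1 a0)) with hZN
  have hZPc : ZP.card + (K.image (Quot.mk (rel2 a1 a2))).card = Nat.card (Quot (rel2 a1 a2)) := by
    rw [hZP, Finset.card_sdiff_of_subset (Finset.subset_univ _), Nat.card_eq_fintype_card,
      ← Finset.card_univ]
    have := Finset.card_le_card (Finset.subset_univ (K.image (Quot.mk (rel2 a1 a2))))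
    omega
  have hZNc : ZN.card + (K.image (Quot.mk (rel2 a1 a0))).card = Nat.card (Quot (rel2 a1 a0)) := by
    rw [hZN, Finset.card_sdiff_of_subset (Finset.subset_univ _), Nat.card_eq_fintype_card,
      ← Finset.card_univ]
    have := Finset.card_le_card (Finset.subset_univ (K.image (Quot.mk (rel2 a1 a0))))
    omega
  have hZPi : ∀ p ∈ ZP, ∀ x ∈ K, Quot.mk (rel2 a1 a2) x ≠ p := by
    intro p hp x hx hxp
    rw [hZP, Finset.mem_sdiff] at hp
    exact hp.2 (Finset.mem_image.2 ⟨x, hx, hxp⟩)
  have hZNi : ∀ p ∈ ZN, ∀ x ∈ K, Quot.mk (rel2 a1 a0) x ≠ p := by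
    intro p hp x hx hxp
    rw [hZN, Finset.mem_sdiff] at hp
    exact hp.2 (Finset.mem_image.2 ⟨x, hx, hxp⟩)
  -- the removed corners
  set S1 := ZP.image rP with hS1
  set S2 := ZN.image rN with hS2
  have hS1m : ∀ x ∈ S1, Quot.mk (rel2 a1 a2) x ∈ ZP ∧ rP (Quot.mk (rel2 a1 a2) x) = x ∧
      lev (rel2 a1 a0) L (Quot.mk (rel2 a1 a0) x) <
        lev (rel2 a1 a2) L (Quot.mk (rel2 a1 a2) x) := by
    intro x hx
    obtain ⟨p, hp, rfl⟩ := Finset.mem_image.1 hx
    obtain ⟨h1, h2⟩ := hrP p (hZPi p hp)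
    rw [h1]
    exact ⟨hp, rfl, h2⟩
  have hS2m : ∀ x ∈ S2, Quot.mk (rel2 a1 a0) x ∈ ZN ∧ rN (Quot.mk (rel2 a1 a0) x) = x ∧
      lev (rel2 a1 a2) L (Quot.mk (rel2 a1 a2) x) <
        lev (rel2 a1 a0) L (Quot.mk (rel2 a1 a0) x) := by
    intro x hx
    obtain ⟨p, hp, rfl⟩ := Finset.mem_image.1 hx
    obtain ⟨h1, h2⟩ := hrN p (hZNi p hp)
    rw [h1]
    exact ⟨hp, rfl, h2⟩
  have hS1c : S1.card = ZP.card := by
    apply Finset.card_image_of_injOn
    intro p hp q hq hpq
    have h1 := (hrP p (hZPi p hp)).1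
    have h2 := (hrP q (hZPi q hq)).1
    rw [← h1, ← h2]
    exact congrArg _ hpq
  have hS2c : S2.card = ZN.card := by
    apply Finset.card_image_of_injOn
    intro p hp q hq hpq
    have h1 := (hrN p (hZNi p hp)).1
    have h2 := (hrN q (hZNi q hq)).1
    rw [← h1, ← h2]
    exact congrArg _ hpq
  have ha1 : Function.Injective a1 := fun x y hxy => by rw [← h.i1 x, ← h.i1 y, hxy]
  set S := (S1 ∪ S2) ∪ (S1 ∪ S2).image a1 with hS
  have hd12 : Disjoint S1 S2 := by
    rw [Finset.disjoint_left]
    intro x h1 h2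
    have := (hS1m x h1).2.2
    have := (hS2m x h2).2.2
    omega
  have hdd : Disjoint (S1 ∪ S2) ((S1 ∪ S2).image a1) := by
    rw [Finset.disjoint_left]
    intro x h1 h2
    obtain ⟨y, hy, rfl⟩ := Finset.mem_image.1 h2
    rcases Finset.mem_union.1 h1 with h1 | h1 <;> rcases Finset.mem_union.1 hy with hy | hy
    · have e1 := (hS1m _ h1).2.1
      have e2 := (hS1m _ hy).2.1
      rw [mk_left] at e1
      rw [e1] at e2
      exact h.f1 y e2
    · have e1 := (hS1m _ h1).2.2
      have e2 := (hS2m _ hy).2.2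
      rw [mk_left, mk_left] at e1
      omega
    · have e1 := (hS2m _ h1).2.2
      have e2 := (hS1m _ hy).2.2
      rw [mk_left, mk_left] at e1
      omega
    · have e1 := (hS2m _ h1).2.1
      have e2 := (hS2m _ hy).2.1
      rw [mk_left] at e1
      rw [e1] at e2
      exact h.f1 y e2
  have hSc : S.card = 2 * (ZP.card + ZN.card) := by
    rw [hS, Finset.card_union_of_disjoint hdd, Finset.card_image_of_injective _ ha1,
      Finset.card_union_of_disjoint hd12, hS1c, hS2c]
    ring
  have hSK : Disjoint K S := by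
    rw [Finset.disjoint_left]
    intro x hxK hxS
    rw [hS] at hxS
    rcases Finset.mem_union.1 hxS with hx | hx
    · rcases Finset.mem_union.1 hx with hx | hx
      · exact hZPi _ (hS1m x hx).1 x hxK rfl
      · exact hZNi _ (hS2m x hx).1 x hxK rfl
    · obtain ⟨y, hy, rfl⟩ := Finset.mem_image.1 hx
      rcases Finset.mem_union.1 hy with hx | hx
      · exact hZPi _ (hS1m y hx).1 (a1 y) hxK (mk_left _ _ _)
      · exact hZNi _ (hS2m y hx).1 (a1 y) hxK (mk_left _ _ _)
  have hSa : ∀ x ∈ S, a1 x ∈ S := by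
    intro x hx
    rw [hS] at hx ⊢
    rcases Finset.mem_union.1 hx with hx | hx
    · exact Finset.mem_union_right _ (Finset.mem_image_of_mem _ hx)
    · obtain ⟨y, hy, rfl⟩ := Finset.mem_image.1 hx
      rw [h.i1]
      exact Finset.mem_union_left _ hy
  set D := Finset.univ \ (K ∪ S) with hD
  have hDc : D.card + K.card + S.card = Fintype.card Φ := by
    rw [hD, Finset.card_sdiff_of_subset (Finset.subset_univ _),
      Finset.card_union_of_disjoint hSK, Finset.card_univ]
    have := Finset.card_le_card (Finset.subset_univ (K ∪ S))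
    rw [Finset.card_union_of_disjoint hSK, Finset.card_univ] at this
    omega
  have hDa : ∀ x ∈ D, a1 x ∈ D := by
    intro x hx
    rw [hD, Finset.mem_sdiff, Finset.mem_union] at hx ⊢
    refine ⟨Finset.mem_univ _, ?_⟩
    intro h3
    apply hx.2
    rcases h3 with h3 | h3
    · left
      rw [← h.i1 x]
      exact hK1 _ h3
    · right
      rw [← h.i1 x]
      exact hSa _ h3
  obtain ⟨H, hHD, hHc, hHall⟩ := half D a1 h.i1 h.f1 hDa
  set R' : Φ → Φ → Prop := fun a b => rel2 a0 a2 a b ∨ (a ∈ H ∧ b = a1 a) with hR'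
  have hm : Nat.card (Quot (rel2 a0 a2)) ≤ Nat.card (Quot R') + H.card :=
    merge_many (rel2 a0 a2) a1 H
  have e0 : ∀ x, Quot.mk R' (a0 x) = Quot.mk R' x := fun x =>
    (Quot.sound (show R' x (a0 x) from Or.inl (Or.inl rfl))).symm
  have e2 : ∀ x, Quot.mk R' (a2 x) = Quot.mk R' x := fun x =>
    (Quot.sound (show R' x (a2 x) from Or.inl (Or.inr rfl))).symm
  have e1 : ∀ x ∈ D, Quot.mk R' (a1 x) = Quot.mk R' x := by
    intro x hx
    rcases hHall x hx with h3 | h3
    · exact (Quot.sound (show R' x (a1 x) from Or.inr ⟨h3, rfl⟩)).symm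
    · exact Quot.sound (show R' (a1 x) x from Or.inr ⟨h3, (h.i1 x).symm⟩)
  -- levels are bounded
  obtain ⟨B, hB⟩ : ∃ B, ∀ x, L x < B := by
    refine ⟨Finset.univ.sup L + 1, fun x => ?_⟩
    have := Finset.le_sup (f := L) (Finset.mem_univ x)
    omega
  have key : ∀ k l, B ≤ l + k →
      (∀ x ∈ S1, lev (rel2 a1 a2) L (Quot.mk (rel2 a1 a2) x) = l →
        Quot.mk R' (a1 x) = Quot.mk R' x) ∧
      (∀ x ∈ S2, lev (rel2 a1 a0) L (Quot.mk (rel2 a1 a0) x) = l →
        Quot.mk R' (a1 x) = Quot.mk R' x) := by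
    intro k
    induction k with
    | zero =>
      intro l hl
      constructor
      · intro x _ hx
        have := lev_le (rel2 a1 a2) L x
        have := hB x
        omega
      · intro x _ hx
        have := lev_le (rel2 a1 a0) L x
        have := hB x
        omega
    | succ k ih =>
      intro l hl
      have ih1 : ∀ x ∈ S1, l < lev (rel2 a1 a2) L (Quot.mk (rel2 a1 a2) x) →
          Quot.mk R' (a1 x) = Quot.mk R' x := by
        intro x hx hlx
        exact (ih (lev (rel2 a1 a2) L (Quot.mk (rel2 a1 a2) x)) (by omega)).1 x hx rfl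
      have ih2 : ∀ x ∈ S2, l < lev (rel2 a1 a0) L (Quot.mk (rel2 a1 a0) x) →
          Quot.mk R' (a1 x) = Quot.mk R' x := by
        intro x hx hlx
        exact (ih (lev (rel2 a1 a0) L (Quot.mk (rel2 a1 a0) x)) (by omega)).2 x hx rfl
      constructor
      · intro x hx hxl
        obtain ⟨hxZ, hrx, hlt⟩ := hS1m x hx
        apply around a1 a2 h.i1 h.f1 h.i2 h.f2 (Quot.mk R') e2
          {y | Quot.mk (rel2 a1 a2) y = Quot.mk (rel2 a1 a2) x}
        · intro y hy
          simp only [Set.mem_setOf_eq] at hy ⊢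
          rw [mk_left, hy]
        · intro y hy
          simp only [Set.mem_setOf_eq] at hy ⊢
          rw [mk_right, hy]
        · rfl
        · intro y hy hyx hyfx
          simp only [Set.mem_setOf_eq] at hy
          by_cases hyD : y ∈ D
          · exact e1 y hyD
          · rw [hD, Finset.mem_sdiff] at hyD
            have hyKS : y ∈ K ∪ S := by
              by_contra h3
              exact hyD ⟨Finset.mem_univ _, h3⟩
            rcases Finset.mem_union.1 hyKS with h3 | h3
            · exact absurd hy (hZPi _ hxZ y h3)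
            · rw [hS] at h3
              rcases Finset.mem_union.1 h3 with h3 | h3
              · rcases Finset.mem_union.1 h3 with h3 | h3
                · have := (hS1m y h3).2.1
                  rw [hy, hrx] at this
                  exact absurd this.symm hyx
                · apply ih2 y h3
                  have := (hS2m y h3).2.2
                  rw [hy] at this
                  omega
              · obtain ⟨z, hz, rfl⟩ := Finset.mem_image.1 h3
                rw [mk_left] at hy
                rw [h.i1]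
                symm
                rcases Finset.mem_union.1 hz with hz | hz
                · have := (hS1m z hz).2.1
                  rw [hy, hrx] at this
                  exact absurd (by rw [this]) hyfx
                · apply ih2 z hz
                  have := (hS2m z hz).2.2
                  rw [hy] at this
                  omega
      · intro x hx hxl
        obtain ⟨hxZ, hrx, hlt⟩ := hS2m x hx
        apply around a1 a0 h.i1 h.f1 h.i0 h.f0 (Quot.mk R') e0
          {y | Quot.mk (rel2 a1 a0) y = Quot.mk (rel2 a1 a0) x}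
        · intro y hy
          simp only [Set.mem_setOf_eq] at hy ⊢
          rw [mk_left, hy]
        · intro y hy
          simp only [Set.mem_setOf_eq] at hy ⊢
          rw [mk_right, hy]
        · rfl
        · intro y hy hyx hyfx
          simp only [Set.mem_setOf_eq] at hy
          by_cases hyD : y ∈ D
          · exact e1 y hyD
          · rw [hD, Finset.mem_sdiff] at hyD
            have hyKS : y ∈ K ∪ S := by
              by_contra h3
              exact hyD ⟨Finset.mem_univ _, h3⟩
            rcases Finset.mem_union.1 hyKS with h3 | h3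
            · exact absurd hy (hZNi _ hxZ y h3)
            · rw [hS] at h3
              rcases Finset.mem_union.1 h3 with h3 | h3
              · rcases Finset.mem_union.1 h3 with h3 | h3
                · apply ih1 y h3
                  have := (hS1m y h3).2.2
                  rw [hy] at this
                  omega
                · have := (hS2m y h3).2.1
                  rw [hy, hrx] at this
                  exact absurd this.symm hyx
              · obtain ⟨z, hz, rfl⟩ := Finset.mem_image.1 h3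
                rw [mk_left] at hy
                rw [h.i1]
                symm
                rcases Finset.mem_union.1 hz with hz | hz
                · apply ih1 z hz
                  have := (hS1m z hz).2.2
                  rw [hy] at this
                  omega
                · have := (hS2m z hz).2.1
                  rw [hy, hrx] at this
                  exact absurd (by rw [this]) hyfx
  have keyS : ∀ x ∈ S1 ∪ S2, Quot.mk R' (a1 x) = Quot.mk R' x := by
    intro x hx
    rcases Finset.mem_union.1 hx with hx | hx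
    · exact (key B _ (by omega)).1 x hx rfl
    · exact (key B _ (by omega)).2 x hx rfl
  have hfin : Nat.card (Quot R') ≤ Nat.card (Quot (relK a0 a1 a2 K)) := by
    apply card_mono
    rintro a b (rfl | rfl | ⟨haK, rfl⟩)
    · exact (e0 a).symm
    · exact (e2 a).symm
    · by_cases haD : a ∈ D
      · exact (e1 a haD).symm
      · rw [hD, Finset.mem_sdiff] at haD
        have hyKS : a ∈ K ∪ S := by
          by_contra h3
          exact haD ⟨Finset.mem_univ _, h3⟩
        rcases Finset.mem_union.1 hyKS with h3 | h3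
        · exact absurd h3 haK
        · rw [hS] at h3
          rcases Finset.mem_union.1 h3 with h3 | h3
          · exact (keyS a h3).symm
          · obtain ⟨z, hz, rfl⟩ := Finset.mem_image.1 h3
            rw [h.i1]
            exact keyS z hz
  omega

end Pool.Agent.V11122.MapG
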