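import Pool.Agent.V11122.MapG

/-!
# Regions of a set of corners have long boundaries
-/

namespace Pool.Agent.V11122.MapG

open Classical in
theorem even_part {Φ : Type} [Fintype Φ] {a0 a1 a2 : Φ → Φ} (h : IsGem a0 a1 a2)
    (K : Finset Φ) (hK1 : ∀ x ∈ K, a1 x ∈ K) (g : Φ → Φ) (hg : g = a0 ∨ g = a2)
    (Z : Φ → Prop) (Z1 : ∀ x, Z x → Z (a1 x)) (Zg : ∀ x, Z x → Z (g x))
    (q : Quot (relK a0 a1 a2 K)) :
    Even (K.filter (fun y => Quot.mk (relK a0 a1 a2 K) y = q ∧ Z y)).card := by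
  have e0 : ∀ x, Quot.mk (relK a0 a1 a2 K) (a0 x) = Quot.mk (relK a0 a1 a2 K) x := fun x =>
    (Quot.sound (show relK a0 a1 a2 K x (a0 x) from Or.inl rfl)).symm
  have e2 : ∀ x, Quot.mk (relK a0 a1 a2 K) (a2 x) = Quot.mk (relK a0 a1 a2 K) x := fun x =>
    (Quot.sound (show relK a0 a1 a2 K x (a2 x) from Or.inr (Or.inl rfl))).symm
  have e1 : ∀ x, x ∉ K → Quot.mk (relK a0 a1 a2 K) (a1 x) = Quot.mk (relK a0 a1 a2 K) x :=
    fun x hx => (Quot.sound (show relK a0 a1 a2 K x (a1 x) from Or.inr (Or.inr ⟨hx, rfl⟩))).symm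
  have h1 : Even ((Finset.univ.filter
      (fun y => Quot.mk (relK a0 a1 a2 K) y = q ∧ Z y)).card) := by
    apply even_of_invol _ g
    · rcases hg with rfl | rfl
      · exact h.i0
      · exact h.i2
    · rcases hg with rfl | rfl
      · exact h.f0
      · exact h.f2
    · intro x hx
      rw [Finset.mem_filter] at hx ⊢
      refine ⟨Finset.mem_univ _, ?_, Zg x hx.2.2⟩
      rcases hg with rfl | rfl
      · rw [e0]; exact hx.2.1
      · rw [e2]; exact hx.2.1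
  have h2 : Even ((Finset.univ.filter
      (fun y => (Quot.mk (relK a0 a1 a2 K) y = q ∧ Z y) ∧ y ∉ K)).card) := by
    apply even_of_invol _ a1 h.i1 h.f1
    intro x hx
    rw [Finset.mem_filter] at hx ⊢
    refine ⟨Finset.mem_univ _, ⟨?_, Z1 x hx.2.1.2⟩, ?_⟩
    · rw [e1 x hx.2.2]; exact hx.2.1.1
    · intro h3
      apply hx.2.2
      rw [← h.i1 x]
      exact hK1 _ h3
  have h3 : (Finset.univ.filter (fun y => Quot.mk (relK a0 a1 a2 K) y = q ∧ Z y)).card =
      (K.filter (fun y => Quot.mk (relK a0 a1 a2 K) y = q ∧ Z y)).card +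
      (Finset.univ.filter (fun y => (Quot.mk (relK a0 a1 a2 K) y = q ∧ Z y) ∧ y ∉ K)).card := by
    rw [← Finset.card_union_of_disjoint]
    · congr 1
      ext y
      simp only [Finset.mem_filter, Finset.mem_univ, true_and, Finset.mem_union]
      tauto
    · rw [Finset.disjoint_left]
      intro y hy hy'
      rw [Finset.mem_filter] at hy hy'
      exact hy'.2.2 hy.1
  obtain ⟨a, ha⟩ := h1
  obtain ⟨b, hb⟩ := h2
  exact ⟨a - b, by omega⟩

theorem exists_boundary {Φ : Type} {a0 a1 a2 : Φ → Φ} (h : IsGem a0 a1 a2)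
    (K : Finset Φ) (q : Quot (relK a0 a1 a2 K))
    (hq : ∃ y, Quot.mk (relK a0 a1 a2 K) y ≠ q) :
    ∃ x ∈ K, Quot.mk (relK a0 a1 a2 K) x = q ∧ Quot.mk (relK a0 a1 a2 K) (a1 x) ≠ q := by
  by_contra hcon
  push Not at hcon
  have hU : {y | Quot.mk (relK a0 a1 a2 K) y = q} = Set.univ := by
    apply h.conn
    · induction q using Quot.ind with
      | mk a => exact ⟨a, rfl⟩
    · intro x hx
      simp only [Set.mem_setOf_eq] at hx ⊢
      rw [← hx]
      exact (Quot.sound (show relK a0 a1 a2 K x (a0 x) from Or.inl rfl)).symm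
    · intro x hx
      simp only [Set.mem_setOf_eq] at hx ⊢
      by_cases hxK : x ∈ K
      · exact hcon x hxK hx
      · rw [← hx]
        exact (Quot.sound (show relK a0 a1 a2 K x (a1 x) from Or.inr (Or.inr ⟨hxK, rfl⟩))).symm
    · intro x hx
      simp only [Set.mem_setOf_eq] at hx ⊢
      rw [← hx]
      exact (Quot.sound (show relK a0 a1 a2 K x (a2 x) from Or.inr (Or.inl rfl))).symm
  obtain ⟨y, hy⟩ := hq
  have : y ∈ {y | Quot.mk (relK a0 a1 a2 K) y = q} := by rw [hU]; trivial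
  exact hy this

/-- An even set that contains an element contains another one. -/
theorem other_of_even {Φ : Type} (S : Finset Φ) (hS : Even S.card) (x : Φ) (hx : x ∈ S) :
    ∃ y ∈ S, y ≠ x := by
  by_contra hcon
  push Not at hcon
  have : S = {x} := by
    ext y
    rw [Finset.mem_singleton]
    exact ⟨hcon y, fun h => h ▸ hx⟩
  rw [this, Finset.card_singleton] at hS
  exact absurd hS (by decide)

open Classical in
theorem faces_four {Φ : Type} [Fintype Φ] {a0 a1 a2 : Φ → Φ} (h : IsGem a0 a1 a2)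
    (K : Finset Φ) (hK1 : ∀ x ∈ K, a1 x ∈ K)
    (hs : ∀ x ∈ K, ∀ y ∈ K, Quot.mk (rel2 a1 a2) x = Quot.mk (rel2 a1 a2) y →
      Quot.mk (rel2 a1 a0) x = Quot.mk (rel2 a1 a0) y → y = x ∨ y = a1 x)
    (q : Quot (relK a0 a1 a2 K)) (hq : ∃ y, Quot.mk (relK a0 a1 a2 K) y ≠ q) :
    4 ≤ (K.filter (fun y => Quot.mk (relK a0 a1 a2 K) y = q)).card := by
  obtain ⟨x, hxK, hxq, hx1⟩ := exists_boundary h K q hq
  have hev : Even (K.filter (fun y => Quot.mk (relK a0 a1 a2 K) y = q)).card := by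
    have := even_part h K hK1 a0 (Or.inl rfl) (fun _ => True) (fun _ _ => trivial)
      (fun _ _ => trivial) q
    simpa using this
  have hP := even_part h K hK1 a2 (Or.inr rfl)
    (fun y => Quot.mk (rel2 a1 a2) x = Quot.mk (rel2 a1 a2) y)
    (fun y hy => by rw [mk_left]; exact hy) (fun y hy => by rw [mk_right]; exact hy) q
  have hN := even_part h K hK1 a0 (Or.inl rfl)
    (fun y => Quot.mk (rel2 a1 a0) x = Quot.mk (rel2 a1 a0) y)
    (fun y hy => by rw [mk_left]; exact hy) (fun y hy => by rw [mk_right]; exact hy) q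
  obtain ⟨y, hy, hyx⟩ := other_of_even _ hP x (by simp [hxK, hxq])
  obtain ⟨z, hz, hzx⟩ := other_of_even _ hN x (by simp [hxK, hxq])
  rw [Finset.mem_filter] at hy hz
  obtain ⟨hyK, hyq, hyP⟩ := hy
  obtain ⟨hzK, hzq, hzN⟩ := hz
  have hyz : y ≠ z := by
    rintro rfl
    rcases hs x hxK y hyK hyP hzN with h3 | h3
    · exact hyx h3
    · rw [h3] at hyq
      exact hx1 hyq
  have hsub : ({x, y, z} : Finset Φ) ⊆
      K.filter (fun y => Quot.mk (relK a0 a1 a2 K) y = q) := by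
    intro w hw
    simp only [Finset.mem_insert, Finset.mem_singleton] at hw
    rw [Finset.mem_filter]
    rcases hw with rfl | rfl | rfl
    · exact ⟨hxK, hxq⟩
    · exact ⟨hyK, hyq⟩
    · exact ⟨hzK, hzq⟩
  have hc := Finset.card_le_card hsub
  have h3 : ({x, y, z} : Finset Φ).card = 3 := by
    rw [Finset.card_eq_three]
    exact ⟨x, y, z, hyx.symm, hzx.symm, hyz, rfl⟩
  obtain ⟨a, ha⟩ := hev
  omega

open Classical in
theorem faces_six {Φ : Type} [Fintype Φ] {a0 a1 a2 : Φ → Φ} (h : IsGem a0 a1 a2)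
    (K : Finset Φ) (hK1 : ∀ x ∈ K, a1 x ∈ K)
    (hs : ∀ x ∈ K, ∀ y ∈ K, Quot.mk (rel2 a1 a2) x = Quot.mk (rel2 a1 a2) y →
      Quot.mk (rel2 a1 a0) x = Quot.mk (rel2 a1 a0) y → y = x ∨ y = a1 x)
    (h2 : ∀ x ∈ K, ∀ y ∈ K, ∀ z ∈ K, Quot.mk (rel2 a1 a2) x = Quot.mk (rel2 a1 a2) y →
      Quot.mk (rel2 a1 a2) x = Quot.mk (rel2 a1 a2) z →
      Quot.mk (rel2 a1 a0) x ≠ Quot.mk (rel2 a1 a0) y →
      Quot.mk (rel2 a1 a0) x = Quot.mk (rel2 a1 a0) z ∨
      Quot.mk (rel2 a1 a0) y = Quot.mk (rel2 a1 a0) z)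
    (hd : ∀ x ∈ K, ∀ y ∈ K, ∀ x' ∈ K, ∀ y' ∈ K,
      Quot.mk (rel2 a1 a2) x = Quot.mk (rel2 a1 a2) y →
      Quot.mk (rel2 a1 a2) x' = Quot.mk (rel2 a1 a2) y' →
      Quot.mk (rel2 a1 a0) x ≠ Quot.mk (rel2 a1 a0) y →
      Quot.mk (rel2 a1 a0) x = Quot.mk (rel2 a1 a0) x' →
      Quot.mk (rel2 a1 a0) y = Quot.mk (rel2 a1 a0) y' →
      Quot.mk (rel2 a1 a2) x = Quot.mk (rel2 a1 a2) x')
    (q : Quot (relK a0 a1 a2 K)) (hq : ∃ y, Quot.mk (relK a0 a1 a2 K) y ≠ q) :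
    6 ≤ (K.filter (fun y => Quot.mk (relK a0 a1 a2 K) y = q)).card := by
  obtain ⟨x, hxK, hxq, hx1⟩ := exists_boundary h K q hq
  have hP := fun u : Φ => even_part h K hK1 a2 (Or.inr rfl)
    (fun y => Quot.mk (rel2 a1 a2) u = Quot.mk (rel2 a1 a2) y)
    (fun y hy => by rw [mk_left]; exact hy) (fun y hy => by rw [mk_right]; exact hy) q
  have hN := fun u : Φ => even_part h K hK1 a0 (Or.inl rfl)
    (fun y => Quot.mk (rel2 a1 a0) u = Quot.mk (rel2 a1 a0) y)
    (fun y hy => by rw [mk_left]; exact hy) (fun y hy => by rw [mk_right]; exact hy) q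
  obtain ⟨y, hy, hyx⟩ := other_of_even _ (hP x) x (by simp [hxK, hxq])
  obtain ⟨z, hz, hzx⟩ := other_of_even _ (hN x) x (by simp [hxK, hxq])
  rw [Finset.mem_filter] at hy hz
  obtain ⟨hyK, hyq, hyP⟩ := hy
  obtain ⟨hzK, hzq, hzN⟩ := hz
  have hyN : Quot.mk (rel2 a1 a0) x ≠ Quot.mk (rel2 a1 a0) y := by
    intro h3
    rcases hs x hxK y hyK hyP h3 with h3 | h3
    · exact hyx h3
    · rw [h3] at hyq
      exact hx1 hyq
  have hzP : Quot.mk (rel2 a1 a2) x ≠ Quot.mk (rel2 a1 a2) z := by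
    intro h3
    rcases hs x hxK z hzK h3 hzN with h3 | h3
    · exact hzx h3
    · rw [h3] at hzq
      exact hx1 hzq
  -- the other side of the corner of `y` is not in the region
  have hy1 : Quot.mk (relK a0 a1 a2 K) (a1 y) ≠ q := by
    intro h3
    have hset : K.filter (fun w => Quot.mk (relK a0 a1 a2 K) w = q ∧
        Quot.mk (rel2 a1 a2) x = Quot.mk (rel2 a1 a2) w) = {x, y, a1 y} := by
      ext w
      simp only [Finset.mem_filter, Finset.mem_insert, Finset.mem_singleton]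
      constructor
      · rintro ⟨hwK, hwq, hwP⟩
        rcases h2 x hxK y hyK w hwK hyP hwP hyN with h4 | h4
        · rcases hs x hxK w hwK hwP h4 with h5 | h5
          · exact Or.inl h5
          · rw [h5] at hwq
            exact absurd hwq hx1
        · rcases hs y hyK w hwK (hyP.symm.trans hwP) h4 with h5 | h5
          · exact Or.inr (Or.inl h5)
          · exact Or.inr (Or.inr h5)
      · rintro (rfl | rfl | rfl)
        · exact ⟨hxK, hxq, rfl⟩
        · exact ⟨hyK, hyq, hyP⟩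
        · exact ⟨hK1 y hyK, h3, by rw [mk_left]; exact hyP⟩
    have h4 := hP x
    rw [hset] at h4
    have h5 : ({x, y, a1 y} : Finset Φ).card = 3 := by
      rw [Finset.card_eq_three]
      refine ⟨x, y, a1 y, hyx.symm, ?_, (h.f1 y).symm, rfl⟩
      intro h6
      rw [h6, h.i1] at hx1
      exact hx1 hyq
    rw [h5] at h4
    exact absurd h4 (by decide)
  obtain ⟨w, hw, hwy⟩ := other_of_even _ (hN y) y (by simp [hyK, hyq])
  rw [Finset.mem_filter] at hw
  obtain ⟨hwK, hwq, hwN⟩ := hw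
  have hwP : Quot.mk (rel2 a1 a2) y ≠ Quot.mk (rel2 a1 a2) w := by
    intro h3
    rcases hs y hyK w hwK h3 hwN with h3 | h3
    · exact hwy h3
    · rw [h3] at hwq
      exact hy1 hwq
  have hzw : Quot.mk (rel2 a1 a2) z ≠ Quot.mk (rel2 a1 a2) w := by
    intro h3
    exact hzP (hd x hxK y hyK z hzK w hwK hyP h3 hyN hzN hwN)
  -- three points with at least two flags each
  have htwo : ∀ u ∈ K, Quot.mk (relK a0 a1 a2 K) u = q →
      2 ≤ (K.filter (fun y => Quot.mk (relK a0 a1 a2 K) y = q ∧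
        Quot.mk (rel2 a1 a2) u = Quot.mk (rel2 a1 a2) y)).card := by
    intro u huK huq
    have h3 := hP u
    have h4 : 0 < (K.filter (fun y => Quot.mk (relK a0 a1 a2 K) y = q ∧
        Quot.mk (rel2 a1 a2) u = Quot.mk (rel2 a1 a2) y)).card :=
      Finset.card_pos.2 ⟨u, by simp [huK, huq]⟩
    obtain ⟨a, ha⟩ := h3
    omega
  have hdis : ∀ u v : Φ, Quot.mk (rel2 a1 a2) u ≠ Quot.mk (rel2 a1 a2) v →
      Disjoint (K.filter (fun y => Quot.mk (relK a0 a1 a2 K) y = q ∧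
        Quot.mk (rel2 a1 a2) u = Quot.mk (rel2 a1 a2) y))
      (K.filter (fun y => Quot.mk (relK a0 a1 a2 K) y = q ∧
        Quot.mk (rel2 a1 a2) v = Quot.mk (rel2 a1 a2) y)) := by
    intro u v huv
    rw [Finset.disjoint_left]
    intro t ht ht'
    rw [Finset.mem_filter] at ht ht'
    exact huv (ht.2.2.trans ht'.2.2.symm)
  have hsub : ((K.filter (fun y => Quot.mk (relK a0 a1 a2 K) y = q ∧
        Quot.mk (rel2 a1 a2) x = Quot.mk (rel2 a1 a2) y)) ∪
      (K.filter (fun y => Quot.mk (relK a0 a1 a2 K) y = q ∧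
        Quot.mk (rel2 a1 a2) z = Quot.mk (rel2 a1 a2) y))) ∪
      (K.filter (fun y => Quot.mk (relK a0 a1 a2 K) y = q ∧
        Quot.mk (rel2 a1 a2) w = Quot.mk (rel2 a1 a2) y)) ⊆
      K.filter (fun y => Quot.mk (relK a0 a1 a2 K) y = q) := by
    intro t ht
    simp only [Finset.mem_union, Finset.mem_filter] at ht ⊢
    rcases ht with (ht | ht) | ht
    · exact ⟨ht.1, ht.2.1⟩
    · exact ⟨ht.1, ht.2.1⟩
    · exact ⟨ht.1, ht.2.1⟩
  have hc := Finset.card_le_card hsub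
  rw [Finset.card_union_of_disjoint, Finset.card_union_of_disjoint] at hc
  · have h3 := htwo x hxK hxq
    have h4 := htwo z hzK hzq
    have h5 := htwo w hwK hwq
    omega
  · exact hdis x z hzP
  · rw [Finset.disjoint_union_left]
    exact ⟨hdis x w (fun h3 => hwP (hyP.symm.trans h3)), hdis z w hzw⟩

open Classical in
theorem count_faces {Φ : Type} [Fintype Φ] {a0 a1 a2 : Φ → Φ} (K : Finset Φ) (m : ℕ)
    (hm : ∀ q : Quot (relK a0 a1 a2 K), (∃ y, Quot.mk (relK a0 a1 a2 K) y ≠ q) →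
      m ≤ (K.filter (fun y => Quot.mk (relK a0 a1 a2 K) y = q)).card) :
    Nat.card (Quot (relK a0 a1 a2 K)) ≤ 1 ∨
      m * Nat.card (Quot (relK a0 a1 a2 K)) ≤ K.card := by
  by_cases h1 : Nat.card (Quot (relK a0 a1 a2 K)) ≤ 1
  · exact Or.inl h1
  · right
    let _ : Fintype (Quot (relK a0 a1 a2 K)) := Fintype.ofFinite _
    have hfull : ∀ q : Quot (relK a0 a1 a2 K), ∃ y, Quot.mk (relK a0 a1 a2 K) y ≠ q := by
      intro q
      by_contra hcon
      push Not at hcon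
      apply h1
      have : Subsingleton (Quot (relK a0 a1 a2 K)) := by
        constructor
        intro a b
        induction a using Quot.ind with
        | mk a =>
        induction b using Quot.ind with
        | mk b => rw [hcon a, hcon b]
      exact Finite.card_le_one_iff_subsingleton.2 this
    have h2 : K.card = ∑ q : Quot (relK a0 a1 a2 K),
        (K.filter (fun y => Quot.mk (relK a0 a1 a2 K) y = q)).card :=
      Finset.card_eq_sum_card_fiberwise (fun x _ => Finset.mem_coe.2 (Finset.mem_univ _))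
    rw [h2, Nat.card_eq_fintype_card, mul_comm, ← smul_eq_mul, ← Finset.card_univ]
    exact Finset.card_nsmul_le_sum _ _ _ (fun q _ => hm q (hfull q))

open Classical in
/-- The number of chosen flags, for simple incidences. -/
theorem bound_four {Φ : Type} [Fintype Φ] {a0 a1 a2 : Φ → Φ} (h : IsGem a0 a1 a2)
    (g : ℕ) (hχ : 4 + Fintype.card Φ ≤ 2 * Nat.card (Quot (rel2 a0 a2)) +
      2 * Nat.card (Quot (rel2 a1 a2)) + 2 * Nat.card (Quot (rel2 a1 a0)) + 2 * g)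
    (K : Finset Φ) (hK1 : ∀ x ∈ K, a1 x ∈ K)
    (hs : ∀ x ∈ K, ∀ y ∈ K, Quot.mk (rel2 a1 a2) x = Quot.mk (rel2 a1 a2) y →
      Quot.mk (rel2 a1 a0) x = Quot.mk (rel2 a1 a0) y → y = x ∨ y = a1 x) :
    K.card ≤ 4 * ((K.image (Quot.mk (rel2 a1 a2))).card +
      (K.image (Quot.mk (rel2 a1 a0))).card + g) := by
  rcases K.eq_empty_or_nonempty with rfl | hne
  · simp
  have h1 := main_ineq h K hne hK1
  rcases count_faces K 4 (faces_four h K hK1 hs) with h2 | h2 <;> omega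

open Classical in
/-- The number of chosen flags, for simple incidences and points of degree two. -/
theorem bound_six {Φ : Type} [Fintype Φ] {a0 a1 a2 : Φ → Φ} (h : IsGem a0 a1 a2)
    (g : ℕ) (hχ : 4 + Fintype.card Φ ≤ 2 * Nat.card (Quot (rel2 a0 a2)) +
      2 * Nat.card (Quot (rel2 a1 a2)) + 2 * Nat.card (Quot (rel2 a1 a0)) + 2 * g)
    (K : Finset Φ) (hK1 : ∀ x ∈ K, a1 x ∈ K)
    (hs : ∀ x ∈ K, ∀ y ∈ K, Quot.mk (rel2 a1 a2) x = Quot.mk (rel2 a1 a2) y →
      Quot.mk (rel2 a1 a0) x = Quot.mk (rel2 a1 a0) y → y = x ∨ y = a1 x)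
    (h2 : ∀ x ∈ K, ∀ y ∈ K, ∀ z ∈ K, Quot.mk (rel2 a1 a2) x = Quot.mk (rel2 a1 a2) y →
      Quot.mk (rel2 a1 a2) x = Quot.mk (rel2 a1 a2) z →
      Quot.mk (rel2 a1 a0) x ≠ Quot.mk (rel2 a1 a0) y →
      Quot.mk (rel2 a1 a0) x = Quot.mk (rel2 a1 a0) z ∨
      Quot.mk (rel2 a1 a0) y = Quot.mk (rel2 a1 a0) z)
    (hd : ∀ x ∈ K, ∀ y ∈ K, ∀ x' ∈ K, ∀ y' ∈ K,
      Quot.mk (rel2 a1 a2) x = Quot.mk (rel2 a1 a2) y →
      Quot.mk (rel2 a1 a2) x' = Quot.mk (rel2 a1 a2) y' →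
      Quot.mk (rel2 a1 a0) x ≠ Quot.mk (rel2 a1 a0) y →
      Quot.mk (rel2 a1 a0) x = Quot.mk (rel2 a1 a0) x' →
      Quot.mk (rel2 a1 a0) y = Quot.mk (rel2 a1 a0) y' →
      Quot.mk (rel2 a1 a2) x = Quot.mk (rel2 a1 a2) x') :
    K.card ≤ 3 * ((K.image (Quot.mk (rel2 a1 a2))).card +
      (K.image (Quot.mk (rel2 a1 a0))).card + g) := by
  rcases K.eq_empty_or_nonempty with rfl | hne
  · simp
  have h1 := main_ineq h K hne hK1
  have h3 : 0 < (K.image (Quot.mk (rel2 a1 a2))).card :=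
    Finset.card_pos.2 (hne.image _)
  rcases count_faces K 6 (faces_six h K hK1 hs h2 hd) with h4 | h4 <;> omega

end Pool.Agent.V11122.MapG
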