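import Pool.Agent.V11122.MapG2

/-!
# Cutting the surface along deleted edges

From a map on a surface and a set of edges that are kept we produce fixed point free involutions
whose classes are the regions of the kept edges, without increasing the genus.
-/

namespace Pool.Agent.V11122.MapG

open Classical in
/-- The modified involution. -/
noncomputable def sig {Φ : Type} (s0 s2 : Φ → Φ) (T : Finset Φ) (x : Φ) : Φ :=
  if x ∈ T then s2 x else s0 x

open Classical in
theorem sig_of_mem {Φ : Type} (s0 s2 : Φ → Φ) (T : Finset Φ) (x : Φ) (h : x ∈ T) :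
    sig s0 s2 T x = s2 x := by
  simp [sig, h]

open Classical in
theorem sig_of_not {Φ : Type} (s0 s2 : Φ → Φ) (T : Finset Φ) (x : Φ) (h : x ∉ T) :
    sig s0 s2 T x = s0 x := by
  simp [sig, h]

theorem sig_sig {Φ : Type} (s0 s2 : Φ → Φ) (i0 : ∀ x, s0 (s0 x) = x) (i2 : ∀ x, s2 (s2 x) = x)
    (T : Finset Φ) (h0 : ∀ x ∈ T, s0 x ∈ T) (h2 : ∀ x ∈ T, s2 x ∈ T) (x : Φ) :
    sig s0 s2 T (sig s0 s2 T x) = x := by
  by_cases h : x ∈ T
  · rw [sig_of_mem _ _ _ _ h, sig_of_mem _ _ _ _ (h2 x h), i2]
  · rw [sig_of_not _ _ _ _ h, sig_of_not, i0]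
    intro h3
    apply h
    rw [← i0 x]
    exact h0 _ h3

theorem cellularize {Φ : Type} [Fintype Φ] (s0 s1 s2 : Φ → Φ)
    (i0 : ∀ x, s0 (s0 x) = x) (i1 : ∀ x, s1 (s1 x) = x) (i2 : ∀ x, s2 (s2 x) = x)
    (f0 : ∀ x, s0 x ≠ x) (f1 : ∀ x, s1 x ≠ x) (f2 : ∀ x, s2 x ≠ x)
    (comm : ∀ x, s0 (s2 x) = s2 (s0 x)) (f02 : ∀ x, s0 (s2 x) ≠ x)
    (A : Set Φ) (hA0 : ∀ x ∈ A, s0 x ∈ A) (hA2 : ∀ x ∈ A, s2 x ∈ A) :
    ∃ a0 : Φ → Φ, (∀ x, a0 (a0 x) = x) ∧ (∀ x, a0 x ≠ x) ∧
      (∀ x, a0 x = s0 x ∨ (x ∉ A ∧ a0 x = s2 x)) ∧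
      (∀ x, Quot.mk (rel2 s1 a0) (s0 x) = Quot.mk (rel2 s1 a0) x) ∧
      (∀ x, x ∉ A → Quot.mk (rel2 s1 a0) (s2 x) = Quot.mk (rel2 s1 a0) x) ∧
      Nat.card (Quot (rel2 s1 s0)) + Nat.card (Quot (rel2 s0 s2)) ≤
        Nat.card (Quot (rel2 s1 a0)) + Nat.card (Quot (rel2 a0 s2)) := by
  classical
  let Good : Finset Φ → Prop := fun T =>
    (∀ x ∈ T, s0 x ∈ T) ∧ (∀ x ∈ T, s2 x ∈ T) ∧ (∀ x ∈ T, x ∉ A) ∧
    (∀ x, Quot.mk (rel2 s1 (sig s0 s2 T)) (s0 x) = Quot.mk (rel2 s1 (sig s0 s2 T)) x) ∧
    Nat.card (Quot (rel2 s1 s0)) + Nat.card (Quot (rel2 s0 s2)) ≤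
      Nat.card (Quot (rel2 s1 (sig s0 s2 T))) + Nat.card (Quot (rel2 (sig s0 s2 T) s2))
  have hempty : sig s0 s2 ∅ = s0 := by
    funext x
    exact sig_of_not _ _ _ _ (by simp)
  have hG0 : Good ∅ := by
    refine ⟨by simp, by simp, by simp, ?_, ?_⟩
    · intro x
      rw [hempty]
      exact mk_right _ _ _
    · rw [hempty]
  obtain ⟨T, hT, hmax⟩ := Finset.exists_max_image (Finset.univ.filter Good) Finset.card
    ⟨∅, by simp [hG0]⟩
  rw [Finset.mem_filter] at hT
  obtain ⟨-, hT0, hT2, hTA, hTm, hTc⟩ := hT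
  have key : ∀ x, x ∉ A → Quot.mk (rel2 s1 (sig s0 s2 T)) (s2 x) =
      Quot.mk (rel2 s1 (sig s0 s2 T)) x := by
    by_contra hcon
    push Not at hcon
    obtain ⟨x, hxA, hne⟩ := hcon
    have hxT : x ∉ T := by
      intro hx
      apply hne
      have h1 := mk_right s1 (sig s0 s2 T) x
      rw [sig_of_mem _ _ _ _ hx] at h1
      exact h1
    have hT0' : ∀ y, s0 y ∈ T → y ∈ T := fun y hy => by
      rw [← i0 y]; exact hT0 _ hy
    have hT2' : ∀ y, s2 y ∈ T → y ∈ T := fun y hy => by
      rw [← i2 y]; exact hT2 _ hy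
    have hA0' : ∀ y, s0 y ∈ A → y ∈ A := fun y hy => by
      rw [← i0 y]; exact hA0 _ hy
    have hA2' : ∀ y, s2 y ∈ A → y ∈ A := fun y hy => by
      rw [← i2 y]; exact hA2 _ hy
    have hx0T : s0 x ∉ T := fun h3 => hxT (hT0' _ h3)
    have hx2T : s2 x ∉ T := fun h3 => hxT (hT2' _ h3)
    have hx02T : s0 (s2 x) ∉ T := fun h3 => hx2T (hT0' _ h3)
    set e4 : Finset Φ := {x, s0 x, s2 x, s0 (s2 x)} with he4
    have he4m : ∀ y, y ∈ e4 ↔ y = x ∨ y = s0 x ∨ y = s2 x ∨ y = s0 (s2 x) := by
      intro y
      simp [he4]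
    set T' := T ∪ e4 with hT'
    have hT'm : ∀ y, y ∈ T' ↔ y ∈ T ∨ y ∈ e4 := fun y => Finset.mem_union
    have hsT : ∀ y, y ∈ e4 → sig s0 s2 T y = s0 y := by
      intro y hy
      apply sig_of_not
      rcases (he4m y).1 hy with rfl | rfl | rfl | rfl
      · exact hxT
      · exact hx0T
      · exact hx2T
      · exact hx02T
    have hsT' : ∀ y, y ∈ e4 → sig s0 s2 T' y = s2 y := fun y hy =>
      sig_of_mem _ _ _ _ ((hT'm y).2 (Or.inr hy))
    have hsame : ∀ y, y ∉ e4 → sig s0 s2 T' y = sig s0 s2 T y := by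
      intro y hy
      by_cases h3 : y ∈ T
      · rw [sig_of_mem _ _ _ _ h3, sig_of_mem _ _ _ _ ((hT'm y).2 (Or.inl h3))]
      · rw [sig_of_not _ _ _ _ h3, sig_of_not]
        rw [hT'm]
        tauto
    have hx4 : x ∈ e4 := (he4m x).2 (Or.inl rfl)
    have h04 : s0 x ∈ e4 := (he4m _).2 (Or.inr (Or.inl rfl))
    have h24 : s2 x ∈ e4 := (he4m _).2 (Or.inr (Or.inr (Or.inl rfl)))
    have h024 : s0 (s2 x) ∈ e4 := (he4m _).2 (Or.inr (Or.inr (Or.inr rfl)))
    have hsig : ∀ y, sig s0 s2 T (sig s0 s2 T y) = y := sig_sig s0 s2 i0 i2 T hT0 hT2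
    have hT'0 : ∀ y ∈ T', s0 y ∈ T' := by
      intro y hy
      rcases (hT'm y).1 hy with h3 | h3
      · exact (hT'm _).2 (Or.inl (hT0 y h3))
      · apply (hT'm _).2 (Or.inr _)
        rcases (he4m y).1 h3 with rfl | rfl | rfl | rfl
        · exact h04
        · rw [i0]; exact hx4
        · exact h024
        · rw [i0]; exact h24
    have hT'2 : ∀ y ∈ T', s2 y ∈ T' := by
      intro y hy
      rcases (hT'm y).1 hy with h3 | h3
      · exact (hT'm _).2 (Or.inl (hT2 y h3))
      · apply (hT'm _).2 (Or.inr _)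
        rcases (he4m y).1 h3 with rfl | rfl | rfl | rfl
        · exact h24
        · rw [← comm]; exact h024
        · rw [i2]; exact hx4
        · rw [comm, i2]; exact h04
    have hsig' : ∀ y, sig s0 s2 T' (sig s0 s2 T' y) = y := sig_sig s0 s2 i0 i2 T' hT'0 hT'2
    have hsigne : ∀ y, sig s0 s2 T y ≠ y := by
      intro y
      by_cases h3 : y ∈ T
      · rw [sig_of_mem _ _ _ _ h3]; exact f2 y
      · rw [sig_of_not _ _ _ _ h3]; exact f0 y
    -- the classes of the old involutions are contained in those of the new ones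
    have hm1 : ∀ u, (u = x ∨ u = s2 x) → Quot.mk (rel2 s1 (sig s0 s2 T')) (s0 u) =
        Quot.mk (rel2 s1 (sig s0 s2 T')) u := by
      intro u hu
      have hu4 : u ∈ e4 := by
        rcases hu with rfl | rfl
        · exact hx4
        · exact h24
      have hune : Quot.mk (rel2 s1 (sig s0 s2 T)) (s2 u) ≠ Quot.mk (rel2 s1 (sig s0 s2 T)) u := by
        rcases hu with rfl | rfl
        · exact hne
        · rw [i2]; exact hne.symm
      have hu4' : ∀ y, y ∈ e4 ↔ y = u ∨ y = s0 u ∨ y = s2 u ∨ y = s0 (s2 u) := by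
        intro y
        rw [he4m]
        rcases hu with rfl | rfl
        · rfl
        · rw [i2]; tauto
      have h3 := around (sig s0 s2 T) s1 hsig hsigne i1 f1
        (Quot.mk (rel2 s1 (sig s0 s2 T'))) (fun y => mk_left _ _ _)
        {y | Quot.mk (rel2 s1 (sig s0 s2 T)) y = Quot.mk (rel2 s1 (sig s0 s2 T)) u}
        (by
          intro y hy
          simp only [Set.mem_ofPred_eq] at hy ⊢
          rw [mk_right, hy])
        (by
          intro y hy
          simp only [Set.mem_ofPred_eq] at hy ⊢
          rw [mk_left, hy]) u rfl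
        (by
          intro y hy hyu hysu
          simp only [Set.mem_ofPred_eq] at hy
          rw [hsT u hu4] at hysu
          have hy4 : y ∉ e4 := by
            intro hy4
            rcases (hu4' y).1 hy4 with h5 | h5 | h5 | h5
            · exact hyu h5
            · exact hysu h5
            · rw [h5] at hy
              exact hune hy
            · rw [h5] at hy
              have h6 := mk_right s1 (sig s0 s2 T) (s2 u)
              rw [hsT (s2 u) ((hu4' _).2 (Or.inr (Or.inr (Or.inl rfl))))] at h6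
              rw [h6] at hy
              exact hune hy
          rw [← hsame y hy4]
          exact mk_right _ _ _)
      rw [hsT u hu4] at h3
      exact h3
    have hm2 : ∀ y, Quot.mk (rel2 s1 (sig s0 s2 T')) (sig s0 s2 T y) =
        Quot.mk (rel2 s1 (sig s0 s2 T')) y := by
      intro y
      by_cases hy : y ∈ e4
      · rw [hsT y hy]
        rcases (he4m y).1 hy with rfl | rfl | rfl | rfl
        · exact hm1 _ (Or.inl rfl)
        · rw [i0]; exact (hm1 _ (Or.inl rfl)).symm
        · exact hm1 _ (Or.inr rfl)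
        · rw [i0]; exact (hm1 _ (Or.inr rfl)).symm
      · rw [← hsame y hy]
        exact mk_right _ _ _
    have hm3 : ∀ y z, Quot.mk (rel2 s1 (sig s0 s2 T)) y = Quot.mk (rel2 s1 (sig s0 s2 T)) z →
        Quot.mk (rel2 s1 (sig s0 s2 T')) y = Quot.mk (rel2 s1 (sig s0 s2 T')) z := by
      intro y z hyz
      have hwd : ∀ a b, rel2 s1 (sig s0 s2 T) a b →
          Quot.mk (rel2 s1 (sig s0 s2 T')) a = Quot.mk (rel2 s1 (sig s0 s2 T')) b := by
        rintro a b (rfl | rfl)
        · exact (mk_left _ _ _).symm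
        · exact (hm2 a).symm
      exact congrArg (Quot.lift (Quot.mk (rel2 s1 (sig s0 s2 T'))) hwd) hyz
    have hgood : Good T' := by
      refine ⟨hT'0, hT'2, ?_, ?_, ?_⟩
      · intro y hy
        rcases (hT'm y).1 hy with h3 | h3
        · exact hTA y h3
        · rcases (he4m y).1 h3 with rfl | rfl | rfl | rfl
          · exact hxA
          · exact fun h4 => hxA (hA0' _ h4)
          · exact fun h4 => hxA (hA2' _ h4)
          · exact fun h4 => hxA (hA2' _ (hA0' _ h4))
      · intro y
        exact hm3 _ _ (hTm y)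
      · have c1 := merge_one (rel2 s1 (sig s0 s2 T)) x (s2 x)
        set Rp : Φ → Φ → Prop := fun a b => rel2 s1 (sig s0 s2 T) a b ∨ (a = x ∧ b = s2 x) with hRp
        have p1 : ∀ y, Quot.mk Rp (s1 y) = Quot.mk Rp y := fun y =>
          (Quot.sound (show Rp y (s1 y) from Or.inl (Or.inl rfl))).symm
        have p2 : ∀ y, Quot.mk Rp (sig s0 s2 T y) = Quot.mk Rp y := fun y =>
          (Quot.sound (show Rp y (sig s0 s2 T y) from Or.inl (Or.inr rfl))).symm
        have p3 : Quot.mk Rp (s2 x) = Quot.mk Rp x :=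
          (Quot.sound (show Rp x (s2 x) from Or.inr ⟨rfl, rfl⟩)).symm
        have p4 : Quot.mk Rp (s0 x) = Quot.mk Rp x := by
          have := p2 x
          rwa [hsT x hx4] at this
        have p5 : Quot.mk Rp (s0 (s2 x)) = Quot.mk Rp (s2 x) := by
          have := p2 (s2 x)
          rwa [hsT (s2 x) h24] at this
        have c2 : Nat.card (Quot Rp) ≤ Nat.card (Quot (rel2 s1 (sig s0 s2 T'))) := by
          apply card_mono
          rintro a b (rfl | rfl)
          · exact (p1 a).symm
          · by_cases ha : a ∈ e4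
            · rw [hsT' a ha]
              rcases (he4m a).1 ha with rfl | rfl | rfl | rfl
              · exact p3.symm
              · rw [← comm, p4, p5, p3]
              · rw [i2, p3]
              · rw [comm, i2, ← comm, p5, p3, p4]
            · rw [hsame a ha]
              exact (p2 a).symm
        have c3 : Nat.card (Quot (rel2 (sig s0 s2 T) s2)) <
            Nat.card (Quot (rel2 (sig s0 s2 T') s2)) := by
          have hwd : ∀ a b, rel2 (sig s0 s2 T') s2 a b →
              Quot.mk (rel2 (sig s0 s2 T) s2) a = Quot.mk (rel2 (sig s0 s2 T) s2) b := by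
            rintro a b (rfl | rfl)
            · by_cases ha : a ∈ e4
              · rw [hsT' a ha]
                exact (mk_right _ _ _).symm
              · rw [hsame a ha]
                exact (mk_left _ _ _).symm
            · exact (mk_right _ _ _).symm
          let _ : Fintype (Quot (rel2 (sig s0 s2 T) s2)) := Fintype.ofFinite _
          let _ : Fintype (Quot (rel2 (sig s0 s2 T') s2)) := Fintype.ofFinite _
          rw [Nat.card_eq_fintype_card, Nat.card_eq_fintype_card]
          apply Fintype.card_lt_of_surjective_not_injective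
            (Quot.lift (Quot.mk (rel2 (sig s0 s2 T) s2)) hwd)
          · intro q
            induction q using Quot.ind with
            | mk a => exact ⟨Quot.mk _ a, rfl⟩
          · intro hinj
            have e1 : Quot.mk (rel2 (sig s0 s2 T') s2) x =
                Quot.mk (rel2 (sig s0 s2 T') s2) (s0 x) := by
              apply hinj
              change Quot.mk (rel2 (sig s0 s2 T) s2) x = Quot.mk (rel2 (sig s0 s2 T) s2) (s0 x)
              have := mk_left (sig s0 s2 T) s2 x
              rw [hsT x hx4] at this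
              exact this.symm
            have hwd2 : ∀ a b, rel2 (sig s0 s2 T') s2 a b →
                (a = x ∨ a = s2 x) = (b = x ∨ b = s2 x) := by
              rintro a b (rfl | rfl)
              · apply propext
                constructor
                · rintro (rfl | rfl)
                  · rw [hsT' _ hx4]; exact Or.inr rfl
                  · rw [hsT' _ h24, i2]; exact Or.inl rfl
                · rintro (h5 | h5)
                  · right
                    rw [← hsig' a, h5, hsT' _ hx4]
                  · left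
                    rw [← hsig' a, h5, hsT' _ h24, i2]
              · apply propext
                constructor
                · rintro (rfl | rfl)
                  · exact Or.inr rfl
                  · rw [i2]; exact Or.inl rfl
                · rintro (h5 | h5)
                  · right
                    rw [← h5, i2]
                  · left
                    rw [← i2 a, h5, i2]
            have e2 := congrArg (Quot.lift (fun a => (a = x ∨ a = s2 x)) hwd2) e1
            have e3 : (x = x ∨ x = s2 x) = (s0 x = x ∨ s0 x = s2 x) := e2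
            have e4' : s0 x = x ∨ s0 x = s2 x := by
              rw [← e3]
              exact Or.inl rfl
            rcases e4' with h5 | h5
            · exact f0 x h5
            · apply f02 x
              rw [← h5, i0]
        omega
    have h5 := hmax T' (by simp only [Finset.mem_filter, Finset.mem_univ, true_and]; exact hgood)
    have h6 : T.card < T'.card := by
      apply Finset.card_lt_card
      refine ⟨Finset.subset_union_left, ?_⟩
      intro h7
      exact hxT (h7 ((hT'm x).2 (Or.inr hx4)))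
    omega
  refine ⟨sig s0 s2 T, sig_sig s0 s2 i0 i2 T hT0 hT2, ?_, ?_, hTm, key, hTc⟩
  · intro y
    by_cases h3 : y ∈ T
    · rw [sig_of_mem _ _ _ _ h3]; exact f2 y
    · rw [sig_of_not _ _ _ _ h3]; exact f0 y
  · intro y
    by_cases h3 : y ∈ T
    · exact Or.inr ⟨hTA y h3, sig_of_mem _ _ _ _ h3⟩
    · exact Or.inl (sig_of_not _ _ _ _ h3)

end Pool.Agent.V11122.MapG
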