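import Pool.Agent.V11122.MapG3

/-!
# The number of incidences between nations and points
-/

namespace Pool.Agent.V11122.MapG

open Classical in
theorem incidence_bound {Φ V : Type} [Fintype Φ] {a0 a1 a2 : Φ → Φ} (h : IsGem a0 a1 a2)
    (g : ℕ) (hχ : 4 + Fintype.card Φ ≤ 2 * Nat.card (Quot (rel2 a0 a2)) +
      2 * Nat.card (Quot (rel2 a1 a2)) + 2 * Nat.card (Quot (rel2 a1 a0)) + 2 * g)
    (ν : V → Quot (rel2 a1 a0)) (hν : Function.Injective ν)
    (X : Finset V) (PP : Finset (Quot (rel2 a1 a2))) (inc : Quot (rel2 a1 a2) → Finset V)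
    (hinc : ∀ w ∈ PP, ∀ u ∈ inc w, u ∈ X ∧ ∃ x, Quot.mk (rel2 a1 a2) x = w ∧
      Quot.mk (rel2 a1 a0) x = ν u)
    (htwo : ∀ w ∈ PP, 2 ≤ (inc w).card)
    (hpair : ∀ w ∈ PP, (inc w).card = 2 → ∀ w' ∈ PP, inc w ⊆ inc w' → w' = w) :
    ∑ w ∈ PP, (inc w).card ≤ 12 * (X.card + g) := by
  rcases PP.eq_empty_or_nonempty with rfl | ⟨w0, hw0⟩
  · simp
  have hne : Nonempty Φ := by
    have h2 := htwo w0 hw0
    obtain ⟨u, hu⟩ := Finset.card_pos.1 (by omega : 0 < (inc w0).card)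
    obtain ⟨-, x, -⟩ := hinc w0 hw0 u hu
    exact ⟨x⟩
  have hch : ∀ w u, ∃ x, w ∈ PP → u ∈ inc w → Quot.mk (rel2 a1 a2) x = w ∧
      Quot.mk (rel2 a1 a0) x = ν u := by
    intro w u
    by_cases hw : w ∈ PP ∧ u ∈ inc w
    · obtain ⟨x, hx⟩ := (hinc w hw.1 u hw.2).2
      exact ⟨x, fun _ _ => hx⟩
    · exact ⟨Classical.arbitrary Φ, fun h1 h2 => absurd ⟨h1, h2⟩ hw⟩
  choose φ hφ using hch
  -- the flags of a family of points
  have main : ∀ QQ : Finset (Quot (rel2 a1 a2)), QQ ⊆ PP →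
      ∃ K : Finset Φ, (∀ x ∈ K, a1 x ∈ K) ∧ K.card = 2 * ∑ w ∈ QQ, (inc w).card ∧
      (K.image (Quot.mk (rel2 a1 a2))).card ≤ QQ.card ∧
      (K.image (Quot.mk (rel2 a1 a0))).card ≤ X.card ∧
      (∀ x ∈ K, ∀ y ∈ K, Quot.mk (rel2 a1 a2) x = Quot.mk (rel2 a1 a2) y →
        Quot.mk (rel2 a1 a0) x = Quot.mk (rel2 a1 a0) y → y = x ∨ y = a1 x) ∧
      (∀ x ∈ K, ∃ w ∈ QQ, ∃ u ∈ inc w, Quot.mk (rel2 a1 a2) x = w ∧
        Quot.mk (rel2 a1 a0) x = ν u) := by
    intro QQ hQQ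
    set B : Finset Φ := (QQ.sigma (fun w => inc w)).image (fun p => φ p.1 p.2) with hB
    have hBm : ∀ x, x ∈ B ↔ ∃ w ∈ QQ, ∃ u ∈ inc w, φ w u = x := by
      intro x
      rw [hB, Finset.mem_image]
      constructor
      · rintro ⟨⟨w, u⟩, hp, rfl⟩
        rw [Finset.mem_sigma] at hp
        exact ⟨w, hp.1, u, hp.2, rfl⟩
      · rintro ⟨w, hw, u, hu, rfl⟩
        exact ⟨⟨w, u⟩, Finset.mem_sigma.2 ⟨hw, hu⟩, rfl⟩
    have hBc : B.card = ∑ w ∈ QQ, (inc w).card := by
      rw [hB, Finset.card_image_of_injOn, Finset.card_sigma]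
      rintro ⟨w, u⟩ hp ⟨w', u'⟩ hp' heq
      simp only [Finset.mem_coe, Finset.mem_sigma] at hp hp'
      simp only at heq
      obtain ⟨h1, h2⟩ := hφ w u (hQQ hp.1) hp.2
      obtain ⟨h3, h4⟩ := hφ w' u' (hQQ hp'.1) hp'.2
      rw [heq, h3] at h1
      rw [heq, h4] at h2
      have := hν h2
      subst this
      subst h1
      rfl
    have ha1 : Function.Injective a1 := fun x y hxy => by rw [← h.i1 x, ← h.i1 y, hxy]
    have hdis : Disjoint B (B.image a1) := by
      rw [Finset.disjoint_left]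
      intro x hx hx'
      obtain ⟨y, hy, rfl⟩ := Finset.mem_image.1 hx'
      obtain ⟨w, hw, u, hu, h1⟩ := (hBm _).1 hx
      obtain ⟨w', hw', u', hu', h2⟩ := (hBm _).1 hy
      obtain ⟨e1, e2⟩ := hφ w u (hQQ hw) hu
      obtain ⟨e3, e4⟩ := hφ w' u' (hQQ hw') hu'
      rw [h1, mk_left] at e1 e2
      rw [h2] at e3 e4
      rw [e3] at e1
      rw [e4] at e2
      have := hν e2
      subst this
      subst e1
      rw [h2] at h1
      exact h.f1 y h1.symm
    have hKm : ∀ x ∈ B ∪ B.image a1, ∃ w ∈ QQ, ∃ u ∈ inc w, (x = φ w u ∨ x = a1 (φ w u)) ∧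
        Quot.mk (rel2 a1 a2) x = w ∧ Quot.mk (rel2 a1 a0) x = ν u := by
      intro x hx
      rcases Finset.mem_union.1 hx with hx | hx
      · obtain ⟨w, hw, u, hu, rfl⟩ := (hBm _).1 hx
        exact ⟨w, hw, u, hu, Or.inl rfl, hφ w u (hQQ hw) hu⟩
      · obtain ⟨y, hy, rfl⟩ := Finset.mem_image.1 hx
        obtain ⟨w, hw, u, hu, rfl⟩ := (hBm _).1 hy
        refine ⟨w, hw, u, hu, Or.inr rfl, ?_⟩
        rw [mk_left, mk_left]
        exact hφ w u (hQQ hw) hu
    refine ⟨B ∪ B.image a1, ?_, ?_, ?_, ?_, ?_, ?_⟩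
    · intro x hx
      rcases Finset.mem_union.1 hx with hx | hx
      · exact Finset.mem_union_right _ (Finset.mem_image_of_mem _ hx)
      · obtain ⟨y, hy, rfl⟩ := Finset.mem_image.1 hx
        rw [h.i1]
        exact Finset.mem_union_left _ hy
    · rw [Finset.card_union_of_disjoint hdis, Finset.card_image_of_injective _ ha1, hBc]
      ring
    · apply Finset.card_le_card
      intro w hw
      obtain ⟨x, hx, rfl⟩ := Finset.mem_image.1 hw
      obtain ⟨w, hw, u, hu, -, h1, h2⟩ := hKm x hx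
      rw [h1]
      exact hw
    · have hsub : (B ∪ B.image a1).image (Quot.mk (rel2 a1 a0)) ⊆ X.image ν := by
        intro n hn
        obtain ⟨x, hx, rfl⟩ := Finset.mem_image.1 hn
        obtain ⟨w, hw, u, hu, -, h1, h2⟩ := hKm x hx
        rw [h2]
        exact Finset.mem_image_of_mem _ (hinc w (hQQ hw) u hu).1
      exact (Finset.card_le_card hsub).trans Finset.card_image_le
    · intro x hx y hy hP hN
      obtain ⟨w, hw, u, hu, h1, h2, h3⟩ := hKm x hx
      obtain ⟨w', hw', u', hu', h1', h2', h3'⟩ := hKm y hy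
      have e1 : w = w' := by rw [← h2, ← h2', hP]
      have e2 : u = u' := hν (by rw [← h3, ← h3', hN])
      subst e1
      subst e2
      rcases h1 with h1 | h1 <;> rcases h1' with h1' | h1'
      · left; rw [h1, h1']
      · right; rw [h1, h1']
      · right; rw [h1, h1', h.i1]
      · left; rw [h1, h1']
    · intro x hx
      obtain ⟨w, hw, u, hu, -, h2⟩ := hKm x hx
      exact ⟨w, hw, u, hu, h2⟩
  have hsplit : ∑ w ∈ PP, (inc w).card = ∑ w ∈ PP.filter (fun w => (inc w).card = 2), (inc w).card +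
      ∑ w ∈ PP.filter (fun w => ¬ (inc w).card = 2), (inc w).card :=
    (Finset.sum_filter_add_sum_filter_not _ _ _).symm
  have b3 : ∑ w ∈ PP.filter (fun w => ¬ (inc w).card = 2), (inc w).card ≤ 6 * (X.card + g) := by
    obtain ⟨K, k1, k2, k3, k4, k5, k6⟩ := main (PP.filter (fun w => ¬ (inc w).card = 2))
      (Finset.filter_subset _ _)
    have hb := bound_four h g hχ K k1 k5
    have h3 : (PP.filter (fun w => ¬ (inc w).card = 2)).card * 3 ≤
        ∑ w ∈ PP.filter (fun w => ¬ (inc w).card = 2), (inc w).card := by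
      rw [← smul_eq_mul]
      apply Finset.card_nsmul_le_sum
      intro w hw
      rw [Finset.mem_filter] at hw
      have := htwo w hw.1
      have := hw.2
      omega
    omega
  have b2 : ∑ w ∈ PP.filter (fun w => (inc w).card = 2), (inc w).card ≤ 6 * (X.card + g) := by
    obtain ⟨K, k1, k2, k3, k4, k5, k6⟩ := main (PP.filter (fun w => (inc w).card = 2))
      (Finset.filter_subset _ _)
    have hset : ∀ x ∈ K, ∀ y ∈ K, Quot.mk (rel2 a1 a2) x = Quot.mk (rel2 a1 a2) y →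
        Quot.mk (rel2 a1 a0) x ≠ Quot.mk (rel2 a1 a0) y → ∃ w ∈ PP, ∃ u v, inc w = {u, v} ∧
        (inc w).card = 2 ∧
        Quot.mk (rel2 a1 a2) x = w ∧ Quot.mk (rel2 a1 a0) x = ν u ∧
        Quot.mk (rel2 a1 a0) y = ν v := by
      intro x hx y hy hP hN
      obtain ⟨w, hw, u, hu, h1, h2⟩ := k6 x hx
      obtain ⟨w', hw', u', hu', h1', h2'⟩ := k6 y hy
      have e1 : w = w' := by rw [← h1, ← h1', hP]
      subst e1
      rw [Finset.mem_filter] at hw
      refine ⟨w, hw.1, u, u', ?_, hw.2, h1, h2, h2'⟩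
      have huu : u ≠ u' := by
        rintro rfl
        exact hN (by rw [h2, h2'])
      symm
      apply Finset.eq_of_subset_of_card_le
      · intro z hz
        rw [Finset.mem_insert, Finset.mem_singleton] at hz
        rcases hz with rfl | rfl
        · exact hu
        · exact hu'
      · rw [hw.2, Finset.card_pair huu]
    have hb := bound_six h g hχ K k1 k5
      (by
        intro x hx y hy z hz hxy hxz hN
        obtain ⟨w, hw, u, v, h1, h2, h3, h4, h5⟩ := hset x hx y hy hxy hN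
        obtain ⟨w', hw', u', hu', h1', h2'⟩ := k6 z hz
        have e1 : w = w' := by rw [← h3, ← h1', hxz]
        subst e1
        rw [h1, Finset.mem_insert, Finset.mem_singleton] at hu'
        rcases hu' with rfl | rfl
        · left; rw [h4, h2']
        · right; rw [h5, h2'])
      (by
        intro x hx y hy x' hx' y' hy' hxy hxy' hN hx2 hy2
        obtain ⟨w, hw, u, v, h1, h2, h3, h4, h5⟩ := hset x hx y hy hxy hN
        obtain ⟨w', hw', u', v', h1', h2', h3', h4', h5'⟩ := hset x' hx' y' hy' hxy'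
          (by rw [← hx2, ← hy2]; exact hN)
        have e1 : u = u' := hν (by rw [← h4, ← h4', hx2])
        have e2 : v = v' := hν (by rw [← h5, ← h5', hy2])
        subst e1
        subst e2
        have e3 := hpair w hw h2 w' hw' (by rw [h1, h1'])
        rw [h3, h3', e3])
    have h3 : ∑ w ∈ PP.filter (fun w => (inc w).card = 2), (inc w).card =
        (PP.filter (fun w => (inc w).card = 2)).card * 2 := by
      apply Finset.sum_const_nat
      intro w hw
      exact (Finset.mem_filter.1 hw).2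
    omega
  omega

open Classical in
/-- Few cliques cover the neighbourhood of some vertex. -/
theorem exists_vertex {Φ V : Type} [Fintype Φ] {a0 a1 a2 : Φ → Φ} (h : IsGem a0 a1 a2)
    (g : ℕ) (hχ : 4 + Fintype.card Φ ≤ 2 * Nat.card (Quot (rel2 a0 a2)) +
      2 * Nat.card (Quot (rel2 a1 a2)) + 2 * Nat.card (Quot (rel2 a1 a0)) + 2 * g)
    (ν : V → Quot (rel2 a1 a0)) (hν : Function.Injective ν)
    (W : Set (Quot (rel2 a1 a2))) (G : SimpleGraph V)
    (hG : ∀ u v, G.Adj u v ↔ u ≠ v ∧ ∃ x y, Quot.mk (rel2 a1 a0) x = ν u ∧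
      Quot.mk (rel2 a1 a0) y = ν v ∧ Quot.mk (rel2 a1 a2) x = Quot.mk (rel2 a1 a2) y ∧
      Quot.mk (rel2 a1 a2) x ∈ W)
    (X : Finset V) (hX : X.Nonempty) :
    ∃ u ∈ X, ∃ CC : Finset (Set V), CC.card ≤ 12 * (g + 1) ∧ (∀ C ∈ CC, G.IsClique C) ∧
      ⋃₀ (CC : Set (Set V)) = {v | G.Adj u v ∧ v ∈ X} := by
  let _ : Fintype (Quot (rel2 a1 a2)) := Fintype.ofFinite _
  set inc : Quot (rel2 a1 a2) → Finset V := fun w =>
    X.filter (fun u => ∃ x, Quot.mk (rel2 a1 a2) x = w ∧ Quot.mk (rel2 a1 a0) x = ν u) with hinc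
  have hincm : ∀ w u, u ∈ inc w ↔ u ∈ X ∧ ∃ x, Quot.mk (rel2 a1 a2) x = w ∧
      Quot.mk (rel2 a1 a0) x = ν u := by
    intro w u
    rw [hinc, Finset.mem_filter]
  have hadj : ∀ w ∈ W, ∀ u ∈ inc w, ∀ v ∈ inc w, u ≠ v → G.Adj u v := by
    intro w hw u hu v hv huv
    obtain ⟨-, x, hx, hx'⟩ := (hincm w u).1 hu
    obtain ⟨-, y, hy, hy'⟩ := (hincm w v).1 hv
    exact (hG u v).2 ⟨huv, x, y, hx', hy', by rw [hx, hy], by rw [hx]; exact hw⟩
  let Cov : Finset (Quot (rel2 a1 a2)) → Prop := fun PP =>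
    (∀ w ∈ PP, w ∈ W) ∧ ∀ u ∈ X, ∀ v ∈ X, G.Adj u v → ∃ w ∈ PP, u ∈ inc w ∧ v ∈ inc w
  have hcov : Cov (Finset.univ.filter (fun w => w ∈ W)) := by
    refine ⟨fun w hw => (Finset.mem_filter.1 hw).2, ?_⟩
    intro u hu v hv huv
    obtain ⟨-, x, y, hx, hy, hxy, hxW⟩ := (hG u v).1 huv
    refine ⟨Quot.mk _ x, by simp [hxW], ?_, ?_⟩
    · exact (hincm _ _).2 ⟨hu, x, rfl, hx⟩
    · exact (hincm _ _).2 ⟨hv, y, hxy.symm, hy⟩
  obtain ⟨PP, hPP, hmin⟩ := Finset.exists_min_image (Finset.univ.filter Cov) Finset.card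
    ⟨_, by simp only [Finset.mem_filter, Finset.mem_univ, true_and]; exact hcov⟩
  rw [Finset.mem_filter] at hPP
  obtain ⟨-, hPPW, hPPc⟩ := hPP
  have hpriv : ∀ w ∈ PP, ∃ u ∈ inc w, ∃ v ∈ inc w, u ≠ v ∧
      ∀ w' ∈ PP, u ∈ inc w' → v ∈ inc w' → w' = w := by
    intro w hw
    by_contra hcon
    push Not at hcon
    have hc : Cov (PP.erase w) := by
      refine ⟨fun w' hw' => hPPW w' (Finset.mem_of_mem_erase hw'), ?_⟩
      intro u hu v hv huv
      obtain ⟨w1, hw1, h1, h2⟩ := hPPc u hu v hv huv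
      by_cases hww : w1 = w
      · subst hww
        obtain ⟨w2, hw2, h3, h4, h5⟩ := hcon u h1 v h2 huv.ne
        exact ⟨w2, Finset.mem_erase.2 ⟨h5, hw2⟩, h3, h4⟩
      · exact ⟨w1, Finset.mem_erase.2 ⟨hww, hw1⟩, h1, h2⟩
    have h1 := hmin (PP.erase w) (by
      simp only [Finset.mem_filter, Finset.mem_univ, true_and]; exact hc)
    have h2 := Finset.card_erase_lt_of_mem hw
    omega
  have hsum := incidence_bound h g hχ ν hν X PP inc
    (fun w _ u hu => (hincm w u).1 hu)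
    (by
      intro w hw
      obtain ⟨u, hu, v, hv, huv, -⟩ := hpriv w hw
      rw [← Finset.card_pair huv]
      apply Finset.card_le_card
      intro z hz
      rw [Finset.mem_insert, Finset.mem_singleton] at hz
      rcases hz with rfl | rfl
      · exact hu
      · exact hv)
    (by
      intro w hw _ w' hw' hsub
      obtain ⟨u, hu, v, hv, huv, hp⟩ := hpriv w hw
      exact hp w' hw' (hsub hu) (hsub hv))
  have hdc : ∑ u ∈ X, (PP.filter (fun w => u ∈ inc w)).card = ∑ w ∈ PP, (inc w).card := by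
    have h1 := Finset.sum_card_bipartiteAbove_eq_sum_card_bipartiteBelow
      (s := X) (t := PP) (fun u w => u ∈ inc w)
    have h2 : ∀ w ∈ PP, (Finset.bipartiteBelow (fun u w => u ∈ inc w) X w).card =
        (inc w).card := by
      intro w _
      congr 1
      ext u
      simp only [Finset.mem_bipartiteBelow]
      exact ⟨fun h => h.2, fun h => ⟨((hincm w u).1 h).1, h⟩⟩
    rw [Finset.sum_congr rfl h2] at h1
    exact h1
  have hex : ∃ u ∈ X, (PP.filter (fun w => u ∈ inc w)).card ≤ 12 * (g + 1) := by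
    by_contra hcon
    push Not at hcon
    have h1 := Finset.card_nsmul_le_sum X (fun u => (PP.filter (fun w => u ∈ inc w)).card)
      (12 * (g + 1) + 1) (fun u hu => hcon u hu)
    rw [hdc, smul_eq_mul] at h1
    have h2 := Finset.card_pos.2 hX
    have h3 := h1.trans hsum
    nlinarith
  obtain ⟨u, hu, hucard⟩ := hex
  refine ⟨u, hu, (PP.filter (fun w => u ∈ inc w)).image (fun w => {v | v ∈ inc w ∧ v ≠ u}),
    Finset.card_image_le.trans hucard, ?_, ?_⟩
  · intro C hC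
    obtain ⟨w, hw, rfl⟩ := Finset.mem_image.1 hC
    rw [Finset.mem_filter] at hw
    intro a ha b hb hab
    exact hadj w (hPPW w hw.1) a ha.1 b hb.1 hab
  · ext v
    simp only [Finset.coe_image, Set.mem_sUnion, Set.mem_image, Finset.coe_filter,
      Set.mem_ofPred_eq]
    constructor
    · rintro ⟨C, ⟨w, ⟨hw, huw⟩, rfl⟩, hv⟩
      simp only [Set.mem_ofPred_eq] at hv
      exact ⟨hadj w (hPPW w hw) u huw v hv.1 hv.2.symm, ((hincm w v).1 hv.1).1⟩
    · rintro ⟨huv, hvX⟩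
      obtain ⟨w, hw, h1, h2⟩ := hPPc u hu v hvX huv
      exact ⟨_, ⟨w, ⟨hw, h1⟩, rfl⟩, h2, huv.ne'⟩

end Pool.Agent.V11122.MapG
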